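import Pool.Agent.Lib.MP_c171f5_pr.AM.Defs

section

/-!
# TASK A1: crossing numbers

`cr_zero`, `cr_succ` (`Finset.range_add_one`, `Finset.filter_insert`), `cr_symm`, `cr_congr` (for `k < n` both `k` and `k + 1`
are `≤ n`): directly from the definition. `cr_unvisited`: no step `k < n` has `p k = y` or `p (k + 1) = y`: both
filters are empty. `cr_first`: no `k < n` has `p k = y`, so the first filter of `cr p n y z` is empty.
`cr_self`: the two filters are equal.
-/

set_option autoImplicit false

namespace Pool.Agent.Lib.MP_c171f5_pr.AM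

open MeasureTheory Filter Set

variable {V : Type*}

theorem cr_zero (p : ℕ → V) (x y : V) : cr p 0 x y = 0 := by
  simp [cr]

open Classical in
theorem cr_succ (p : ℕ → V) (n : ℕ) (x y : V) : cr p (n + 1) x y =
    cr p n x y + (if p n = x ∧ p (n + 1) = y then 1 else 0) -
      (if p n = y ∧ p (n + 1) = x then 1 else 0) := by
  unfold cr
  rw [Finset.range_add_one, Finset.filter_insert, Finset.filter_insert]
  have h1 : n ∉ (Finset.range n).filter (fun k => p k = x ∧ p (k + 1) = y) := by simp
  have h2 : n ∉ (Finset.range n).filter (fun k => p k = y ∧ p (k + 1) = x) := by simp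
  split_ifs <;> simp [Finset.card_insert_of_notMem h1, Finset.card_insert_of_notMem h2] <;> ring

theorem cr_symm (p : ℕ → V) (n : ℕ) (x y : V) : cr p n y x = - cr p n x y := by
  unfold cr
  ring

theorem cr_congr {p q : ℕ → V} {n : ℕ} (h : ∀ i ≤ n, p i = q i) (x y : V) :
    cr p n x y = cr q n x y := by
  classical
  unfold cr
  have key : ∀ a b : V, (Finset.range n).filter (fun k => p k = a ∧ p (k + 1) = b) =
      (Finset.range n).filter (fun k => q k = a ∧ q (k + 1) = b) := by
    intro a b
    apply Finset.filter_congr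
    intro k hk
    rw [Finset.mem_range] at hk
    rw [h k hk.le, h (k + 1) hk]
  rw [key, key]

theorem cr_self (p : ℕ → V) (n : ℕ) (x : V) : cr p n x x = 0 := by
  unfold cr
  ring

theorem cr_unvisited {p : ℕ → V} {n : ℕ} {y : V} (h : ∀ i ≤ n, p i ≠ y) (z : V) :
    cr p n y z = 0 ∧ cr p n z y = 0 := by
  classical
  have h1 : (Finset.range n).filter (fun k => p k = y ∧ p (k + 1) = z) = ∅ := by
    apply Finset.filter_false_of_mem
    intro k hk hc
    rw [Finset.mem_range] at hk
    exact h k hk.le hc.1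
  have h2 : (Finset.range n).filter (fun k => p k = z ∧ p (k + 1) = y) = ∅ := by
    apply Finset.filter_false_of_mem
    intro k hk hc
    rw [Finset.mem_range] at hk
    exact h (k + 1) hk hc.2
  constructor
  · unfold cr
    rw [h1, h2]
    simp
  · unfold cr
    rw [h1, h2]
    simp

theorem cr_first {p : ℕ → V} {n : ℕ} {y : V} (h : ∀ i < n, p i ≠ y) (z : V) : cr p n y z ≤ 0 := by
  classical
  have h1 : (Finset.range n).filter (fun k => p k = y ∧ p (k + 1) = z) = ∅ := by
    apply Finset.filter_false_of_mem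
    intro k hk hc
    rw [Finset.mem_range] at hk
    exact h k hk hc.1
  unfold cr
  rw [h1]
  simp

theorem pr_congr {G : SimpleGraph V} [G.LocallyFinite] {β : ℝ} {p q : ℕ → V} {n : ℕ}
    (h : ∀ i ≤ n, p i = q i) (y : V) : pr G β p n y = pr G β q n y := by
  unfold pr
  have hn : p n = q n := h n le_rfl
  simp only [cr_congr h]
  rw [hn]

end Pool.Agent.Lib.MP_c171f5_pr.AM
end

section

/-!
# TASK A3: the law of the walk

`pr_sum`: divide the sum of the exponentials (positive, as there is a neighbour) by itself.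
`measurableSet_of_dep`: the map `x ↦ (fun i : Fin (n + 1) => x i)` is measurable to the countable discrete space `Fin (n + 1) → V`, and
the set is the preimage of a set.
`cyl_inter_eq_sum`: `cyl p n` is, for `z : V`, the countable disjoint union of the sets `cyl (update p (n + 1) z) (n + 1)`; for `z` not
adjacent to `p n` these have measure `0` (`hν.step`, `pr = 0`; `pr` only depends on the path up to `n`: `pr_congr`,
and `cyl (update p (n + 1) z) n = cyl p n`).
`cyl_update`: `hν.step` for the path `update p (n + 1) z`.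
`law_path`: a.e. path `x` starts at `v` and moves along edges: the set of the paths with `¬ G.Adj (x n) (x (n + 1))` is the countable
union over the (countably many) restrictions to `{0, …, n + 1}` of null cylinders. (For instance: it is the union over
`a : Fin (n + 2) → V` with `¬ G.Adj (a n) (a (n + 1))` of the cylinders of `a`.)
`isPath_of_pos`: if `¬ G.Adj (p i) (p (i + 1))` with `i < n` then `ν (cyl p n) ≤ ν (cyl p (i + 1)) = 0` by `hν.step`.
`isLaw_of_isWalk`: `μ.map (fun ω n => X n ω)`; measurability from `measurable_pi_iff` and `measurable_to_countable'`;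
the preimages of cylinders are the sets of `IsWalk.step`.
-/

set_option autoImplicit false

namespace Pool.Agent.Lib.MP_c171f5_pr.AM

open MeasureTheory Filter Set
open scoped ENNReal

variable {V : Type*} [Countable V] [MeasurableSpace V] [DiscreteMeasurableSpace V]
  {G : SimpleGraph V} [G.LocallyFinite] {β : ℝ} {v : V} {ν : Measure (ℕ → V)}

omit [Countable V] [MeasurableSpace V] [DiscreteMeasurableSpace V] in
theorem pr_nonneg (p : ℕ → V) (n : ℕ) (y : V) : 0 ≤ pr G β p n y := by
  unfold pr
  split_ifs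
  · exact div_nonneg (Real.exp_pos _).le (Finset.sum_nonneg fun z _ => (Real.exp_pos _).le)
  · exact le_rfl

omit [Countable V] [MeasurableSpace V] [DiscreteMeasurableSpace V] in
theorem pr_sum (p : ℕ → V) (n : ℕ) {w : V} (hw : G.Adj (p n) w) :
    ∑ z ∈ G.neighborFinset (p n), pr G β p n z = 1 := by
  have hpos : 0 < ∑ z ∈ G.neighborFinset (p n), Real.exp (β * cr p n (p n) z) :=
    Finset.sum_pos (fun z _ => Real.exp_pos _) ⟨w, by simpa using hw⟩
  have h : ∀ z ∈ G.neighborFinset (p n), pr G β p n z =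
      Real.exp (β * cr p n (p n) z) / ∑ z ∈ G.neighborFinset (p n), Real.exp (β * cr p n (p n) z) := by
    intro z hz
    have hz' : G.Adj (p n) z := by simpa using hz
    simp only [pr, if_pos hz']
  rw [Finset.sum_congr rfl h, ← Finset.sum_div, div_self hpos.ne']

theorem measurableSet_of_dep {Q : (ℕ → V) → Prop} (n : ℕ)
    (hQ : ∀ x y : ℕ → V, (∀ i ≤ n, x i = y i) → (Q x ↔ Q y)) : MeasurableSet {x | Q x} := by
  classical
  let r : (ℕ → V) → (Fin (n + 1) → V) := fun x i => x i
  have hr : Measurable r := measurable_pi_lambda _ (fun i => measurable_pi_apply _)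
  have he : {x | Q x} = r ⁻¹' (r '' {x | Q x}) := by
    ext x
    constructor
    · intro hx
      exact ⟨x, hx, rfl⟩
    · rintro ⟨y, hy, hxy⟩
      refine (hQ x y ?_).2 hy
      intro i hi
      have := congrFun hxy ⟨i, by omega⟩
      exact this.symm
  rw [he]
  exact hr (Set.to_countable _).measurableSet

theorem measurableSet_cyl (p : ℕ → V) (n : ℕ) : MeasurableSet (cyl p n) := by
  refine measurableSet_of_dep n ?_
  intro x y h
  exact forall_congr' fun i => forall_congr' fun hi => by rw [h i hi]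

theorem measurableSet_noDev (S : Finset V) (nxt : V → V) (rel : V → V → Prop) (E : Set V) (n : ℕ) :
    MeasurableSet (NoDev S nxt rel E n) := by
  have he : NoDev S nxt rel E n = ⋂ k : ℕ, {x : ℕ → V | n ≤ k →
      (∀ j, n ≤ j → j ≤ k → x j ∉ E) → ¬ Dev S nxt rel (x k) (x (k + 1))} := by
    ext x
    simp only [NoDev, mem_setOf_eq, mem_iInter]
  rw [he]
  refine MeasurableSet.iInter fun k => measurableSet_of_dep (k + 1) ?_
  intro x y h
  have h1 : x k = y k := h k (by omega)
  have h2 : x (k + 1) = y (k + 1) := h (k + 1) le_rfl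
  have h3 : (∀ j, n ≤ j → j ≤ k → x j ∉ E) ↔ (∀ j, n ≤ j → j ≤ k → y j ∉ E) := by
    refine forall_congr' fun j => forall_congr' fun _ => forall_congr' fun hj => ?_
    rw [h j (by omega)]
  rw [h1, h2, h3]

theorem cyl_update (hν : IsLaw G β v ν) (p : ℕ → V) (n : ℕ) (z : V) :
    ν (cyl (Function.update p (n + 1) z) (n + 1)) = ν (cyl p n) * ENNReal.ofReal (pr G β p n z) := by
  have h1 : ∀ i ≤ n, Function.update p (n + 1) z i = p i := by
    intro i hi
    rw [Function.update_of_ne (by omega)]
  have h2 : cyl (Function.update p (n + 1) z) n = cyl p n := by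
    ext x
    exact forall_congr' fun i => forall_congr' fun hi => by rw [h1 i hi]
  rw [hν.step (Function.update p (n + 1) z) n, h2, pr_congr h1, Function.update_self]

theorem cyl_inter_eq_sum (hν : IsLaw G β v ν) (p : ℕ → V) (n : ℕ) (E : Set (ℕ → V)) (hE : MeasurableSet E) :
    ν (cyl p n ∩ E) =
      ∑ z ∈ G.neighborFinset (p n), ν (cyl (Function.update p (n + 1) z) (n + 1) ∩ E) := by
  have hU : cyl p n ∩ E = ⋃ z : V, (cyl (Function.update p (n + 1) z) (n + 1) ∩ E) := by
    ext x
    simp only [mem_inter_iff, mem_iUnion, cyl, mem_setOf_eq]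
    constructor
    · rintro ⟨h, hx⟩
      refine ⟨x (n + 1), fun i hi => ?_, hx⟩
      rcases Nat.lt_or_ge i (n + 1) with h' | h'
      · rw [Function.update_of_ne (by omega)]
        exact h i (by omega)
      · obtain rfl : i = n + 1 := by omega
        rw [Function.update_self]
    · rintro ⟨z, h, hx⟩
      refine ⟨fun i hi => ?_, hx⟩
      have h' := h i (by omega)
      rwa [Function.update_of_ne (by omega)] at h'
  rw [hU, measure_iUnion ?_ ?_]
  · refine tsum_eq_sum fun z hz => ?_
    have hna : ¬ G.Adj (p n) z := by simpa using hz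
    refine measure_mono_null inter_subset_left ?_
    rw [cyl_update hν]
    simp [pr, hna]
  · intro z w hzw
    refine Set.disjoint_left.2 ?_
    rintro x ⟨h1, _⟩ ⟨h2, _⟩
    have a := h1 (n + 1) le_rfl
    have b := h2 (n + 1) le_rfl
    rw [Function.update_self] at a b
    exact hzw (a.symm.trans b)
  · intro z
    exact (measurableSet_cyl _ _).inter hE

theorem law_path (hν : IsLaw G β v ν) : ∀ᵐ x ∂ν, x 0 = v ∧ ∀ n, G.Adj (x n) (x (n + 1)) := by
  refine hν.start.and ?_
  rw [ae_all_iff]
  intro n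
  rw [ae_iff]
  have hsub : {x : ℕ → V | ¬ G.Adj (x n) (x (n + 1))} ⊆
      ⋃ a : {a : Fin (n + 2) → V // ¬ G.Adj (a ⟨n, by omega⟩) (a ⟨n + 1, by omega⟩)},
        cyl (fun i => if h : i < n + 2 then a.1 ⟨i, h⟩ else v) (n + 1) := by
    intro x hx
    refine mem_iUnion.2 ⟨⟨fun i => x i, hx⟩, fun i hi => ?_⟩
    simp only [dif_pos (show i < n + 2 by omega)]
  refine measure_mono_null hsub (measure_iUnion_null fun a => ?_)
  rw [hν.step]
  have hz : pr G β (fun i => if h : i < n + 2 then a.1 ⟨i, h⟩ else v) n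
      ((fun i => if h : i < n + 2 then a.1 ⟨i, h⟩ else v) (n + 1)) = 0 := by
    unfold pr
    rw [if_neg]
    simp only [dif_pos (show n < n + 2 by omega), dif_pos (show n + 1 < n + 2 by omega)]
    exact a.2
  rw [hz, ENNReal.ofReal_zero, mul_zero]

theorem isPath_of_pos (hν : IsLaw G β v ν) {p : ℕ → V} {n : ℕ} (h : ν (cyl p n) ≠ 0) :
    p 0 = v ∧ IsPath G p n := by
  constructor
  · by_contra h0
    refine h (measure_mono_null ?_ (ae_iff.1 hν.start))
    intro x hx hx0
    exact h0 ((hx 0 (Nat.zero_le n)).symm.trans hx0)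
  · intro i hi
    by_contra hna
    refine h (measure_mono_null (t := cyl p (i + 1)) ?_ ?_)
    · intro x hx j hj
      exact hx j (by omega)
    · rw [hν.step]
      have hz : pr G β p i (p (i + 1)) = 0 := by
        unfold pr
        rw [if_neg hna]
      rw [hz, ENNReal.ofReal_zero, mul_zero]

theorem isLaw_of_isWalk {Ω : Type*} [MeasurableSpace Ω] {μ : Measure Ω} {X : ℕ → Ω → V}
    (h : IsWalk G β v μ X) : IsLaw G β v (μ.map (fun ω n => X n ω)) ∧
      Measurable (fun (ω : Ω) (n : ℕ) => X n ω) := by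
  have hX : ∀ n, Measurable (X n) := fun n => measurable_to_countable' fun x => h.meas n x
  have hm : Measurable (fun (ω : Ω) (n : ℕ) => X n ω) := measurable_pi_iff.2 hX
  haveI := h.prob
  refine ⟨⟨Measure.isProbabilityMeasure_map hm.aemeasurable, ?_, ?_⟩, hm⟩
  · have hs : MeasurableSet {x : ℕ → V | x 0 = v} :=
      measurableSet_of_dep 0 fun x y hxy => by rw [hxy 0 le_rfl]
    exact (ae_map_iff hm.aemeasurable hs).2 h.start
  · intro p n
    rw [Measure.map_apply hm (measurableSet_cyl _ _), Measure.map_apply hm (measurableSet_cyl _ _)]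
    exact h.step p n

end Pool.Agent.Lib.MP_c171f5_pr.AM
end

section

/-!
# TASK A6: the Levy lemma

PROOF. Give `V` the discrete topology (`letI : TopologicalSpace V := ⊥`, `DiscreteTopology V := ⟨rfl⟩`, `BorelSpace V` by
`DiscreteMeasurableSpace.toBorelSpace`); `ℕ → V` is then second countable and metrizable with its Borel sets, so the
finite measure `ν` is outer regular. Suppose `ν F ≠ 0` (outer measure; `F` is an arbitrary set; we may assume `δ ≤ 1`, replacing it by
`min δ 1`). There is an open `U ⊇ F` with `ν U < ν F / (1 - δ)` if `δ < 1` (`Set.exists_isOpen_lt_of_lt`; `ν F < ν F / (1 - δ)`); for `δ = 1`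
replace `δ` by `1 / 2`. For `x ∈ F` there is `N` with `cyl x N ⊆ U` (basic open sets), so there is `n ≥ N` with `good x n`, and then
`cyl x n ⊆ U`. Let `m x` be the least `n` with `good x n` and `cyl x n ⊆ U`. For `x, y ∈ F` the sets `cyl x (m x)`, `cyl y (m y)` are equal
or disjoint: if they meet and `m x ≤ m y` then `x`, `y` agree up to `m x`, so `good y (m x)` (`hgood`), `cyl y (m x) = cyl x (m x) ⊆ U`, so
`m y ≤ m x`. There are only countably many such sets `C` (a cylinder is given by a number `n` and a function `Fin (n + 1) → V`).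
`F` is covered by them, and they are contained in `U`; and `ν (F ∩ C) ≤ ν (C \ A) = ν C - ν (C ∩ A) ≤ (1 - δ) ν C` (`hF`, if
`ν C ≠ 0`). So `ν F ≤ ∑ ν (F ∩ C) ≤ (1 - δ) ∑ ν C ≤ (1 - δ) ν U < ν F`, a contradiction.
`ae_of_levy` is the form in which it is used: apply `levy` to `{x | ¬ Q x ∧ x 0 = v ∧ ∀ n, G.Adj (x n) (x (n + 1))}`; the rest is null by
`law_path`.
-/

set_option autoImplicit false

namespace Pool.Agent.Lib.MP_c171f5_pr.AM

open MeasureTheory Filter Set
open scoped ENNReal

variable {V : Type*} [Countable V] [MeasurableSpace V] [DiscreteMeasurableSpace V]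
  {G : SimpleGraph V} [G.LocallyFinite] {β : ℝ} {v : V} {ν : Measure (ℕ → V)}

theorem levy [IsProbabilityMeasure ν] (F : Set (ℕ → V)) (good : (ℕ → V) → ℕ → Prop)
    (hgood : ∀ x y n, (∀ i ≤ n, x i = y i) → good x n → good y n)
    (hinf : ∀ x ∈ F, ∀ N, ∃ n ≥ N, good x n) {δ : ℝ} (hδ : 0 < δ)
    (hF : ∀ x ∈ F, ∀ n, good x n → ν (cyl x n) ≠ 0 → ∃ A : Set (ℕ → V), MeasurableSet A ∧
      (∀ y ∈ F, y ∈ cyl x n → y ∉ A) ∧ ENNReal.ofReal δ * ν (cyl x n) ≤ ν (cyl x n ∩ A)) :
    ν F = 0 := by
  classical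
  by_contra hne
  let _ : TopologicalSpace V := ⊥
  have _ : DiscreteTopology V := ⟨rfl⟩
  have _ : BorelSpace V := DiscreteMeasurableSpace.toBorelSpace
  -- the constant
  obtain ⟨c, hc0, hc1, hF'⟩ : ∃ c : ℝ≥0∞, c ≠ 0 ∧ c < 1 ∧ ∀ x ∈ F, ∀ n, good x n →
      ν (cyl x n) ≠ 0 → ∃ A : Set (ℕ → V), MeasurableSet A ∧
      (∀ y ∈ F, y ∈ cyl x n → y ∉ A) ∧ c * ν (cyl x n) ≤ ν (cyl x n ∩ A) := by
    refine ⟨ENNReal.ofReal (min δ (1 / 2)), ?_, ?_, ?_⟩
    · rw [Ne, ENNReal.ofReal_eq_zero, not_le]
      exact lt_min hδ (by norm_num)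
    · rw [← ENNReal.ofReal_one]
      exact (ENNReal.ofReal_lt_ofReal_iff one_pos).2 (lt_of_le_of_lt (min_le_right _ _)
        (by norm_num))
    · intro x hx n hg hn
      obtain ⟨A, hA, hA1, hA2⟩ := hF x hx n hg hn
      exact ⟨A, hA, hA1, le_trans (mul_le_mul_left (ENNReal.ofReal_le_ofReal (min_le_left _ _)) _)
        hA2⟩
  have hb1 : (1 - c) * ν F < ν F := by
    have h1 : (1 - c) < 1 := ENNReal.sub_lt_self ENNReal.one_ne_top one_ne_zero hc0
    calc (1 - c) * ν F < 1 * ν F :=
          ENNReal.mul_lt_mul_left hne (measure_ne_top ν F) h1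
      _ = ν F := one_mul _
  have hb0 : (1 - c) ≠ 0 := (tsub_pos_of_lt hc1).ne'
  have hbt : (1 - c) ≠ ∞ := ENNReal.sub_ne_top ENNReal.one_ne_top
  have hlt : ν F < ν F / (1 - c) := by
    rw [ENNReal.lt_div_iff_mul_lt (Or.inl hb0) (Or.inl hbt), mul_comm]
    exact hb1
  obtain ⟨U, hFU, hUo, hU⟩ := Set.exists_isOpen_lt_of_lt F _ hlt
  have hU' : (1 - c) * ν U < ν F := by
    rw [ENNReal.lt_div_iff_mul_lt (Or.inl hb0) (Or.inl hbt), mul_comm] at hU
    exact hU
  -- cylinders inside `U`
  have hcyl : ∀ x ∈ F, ∃ n, good x n ∧ cyl x n ⊆ U := by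
    intro x hx
    obtain ⟨I, u, hu, hIU⟩ := isOpen_pi_iff.1 hUo x (hFU hx)
    obtain ⟨n, hn, hg⟩ := hinf x hx (I.sup id)
    refine ⟨n, hg, fun y hy => hIU ?_⟩
    intro i hi
    have h1 : i ≤ I.sup id := Finset.le_sup (f := id) hi
    rw [hy i (h1.trans hn)]
    exact (hu i hi).2
  let m : (ℕ → V) → ℕ := fun x => sInf {n | good x n ∧ cyl x n ⊆ U}
  have hm : ∀ x ∈ F, good x (m x) ∧ cyl x (m x) ⊆ U := fun x hx => Nat.sInf_mem (hcyl x hx)
  have hmin : ∀ (x : ℕ → V) (n : ℕ), good x n → cyl x n ⊆ U → m x ≤ n :=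
    fun x n h1 h2 => Nat.sInf_le ⟨h1, h2⟩
  have hcc : ∀ (x y : ℕ → V) (n : ℕ), (∀ i ≤ n, x i = y i) → cyl x n = cyl y n := by
    intro x y n h
    ext z
    exact ⟨fun hz i hi => (hz i hi).trans (h i hi), fun hz i hi => (hz i hi).trans (h i hi).symm⟩
  have hself : ∀ (x : ℕ → V) (n : ℕ), x ∈ cyl x n := fun x n i _ => rfl
  let 𝒞 : Set (Set (ℕ → V)) := (fun x => cyl x (m x)) '' F
  have h𝒞 : 𝒞.Countable := by
    refine (Set.countable_range (fun p : Σ n : ℕ, (Fin (n + 1) → V) =>
      {y : ℕ → V | ∀ i : Fin (p.1 + 1), y i = p.2 i})).mono ?_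
    rintro _ ⟨x, _, rfl⟩
    refine ⟨⟨m x, fun i => x i⟩, ?_⟩
    ext y
    constructor
    · intro h i hi
      exact h ⟨i, Nat.lt_succ_of_le hi⟩
    · intro h i
      exact h i (Nat.le_of_lt_succ i.2)
  have hdis : ∀ x ∈ F, ∀ y ∈ F, m x ≤ m y → (cyl x (m x) ∩ cyl y (m y)).Nonempty →
      cyl x (m x) = cyl y (m y) := by
    rintro x hx y hy hxy ⟨z, hz1, hz2⟩
    have h1 : ∀ i ≤ m x, x i = y i := fun i hi =>
      (hz1 i hi).symm.trans (hz2 i (hi.trans hxy))
    have h2 : m y ≤ m x := by
      apply hmin y (m x) (hgood x y (m x) h1 (hm x hx).1)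
      rw [← hcc x y (m x) h1]
      exact (hm x hx).2
    have h3 : m x = m y := le_antisymm hxy h2
    rw [← h3]
    exact hcc x y (m x) h1
  have hpair : 𝒞.PairwiseDisjoint id := by
    rintro _ ⟨x, hx, rfl⟩ _ ⟨y, hy, rfl⟩ hxy
    change Disjoint (cyl x (m x)) (cyl y (m y))
    rw [Set.disjoint_iff_inter_eq_empty]
    by_contra hno
    have hnon := Set.nonempty_iff_ne_empty.2 hno
    apply hxy
    rcases le_total (m x) (m y) with h | h
    · exact hdis x hx y hy h hnon
    · exact (hdis y hy x hx h (by rwa [Set.inter_comm])).symm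
  have hmeas : ∀ C ∈ 𝒞, MeasurableSet (id C) := by
    rintro _ ⟨x, _, rfl⟩
    exact measurableSet_cyl x (m x)
  have hsum : ∑' C : 𝒞, ν (C : Set (ℕ → V)) ≤ ν U := by
    have h1 := measure_biUnion (μ := ν) h𝒞 hpair hmeas
    have h2 : ∑' C : 𝒞, ν (C : Set (ℕ → V)) = ν (⋃ C ∈ 𝒞, id C) := h1.symm
    rw [h2]
    apply measure_mono
    intro z hz
    rw [Set.mem_iUnion₂] at hz
    obtain ⟨C, ⟨x, hx, rfl⟩, hzC⟩ := hz
    exact (hm x hx).2 hzC
  have hpart : ∀ C : 𝒞, ν (F ∩ (C : Set (ℕ → V))) ≤ (1 - c) * ν (C : Set (ℕ → V)) := by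
    rintro ⟨_, ⟨x, hx, rfl⟩⟩
    change ν (F ∩ cyl x (m x)) ≤ (1 - c) * ν (cyl x (m x))
    by_cases h0 : ν (cyl x (m x)) = 0
    · have h1 : ν (F ∩ cyl x (m x)) ≤ ν (cyl x (m x)) := measure_mono Set.inter_subset_right
      rw [h0] at h1
      exact h1.trans zero_le
    · obtain ⟨A, hA, hA1, hA2⟩ := hF' x hx (m x) (hm x hx).1 h0
      have h1 : ν (F ∩ cyl x (m x)) ≤ ν (cyl x (m x) \ A) :=
        measure_mono fun y hy => ⟨hy.2, hA1 y hy.1 hy.2⟩
      have h2 := measure_inter_add_sdiff (μ := ν) (cyl x (m x)) hA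
      have h3 : c * ν (cyl x (m x)) + (1 - c) * ν (cyl x (m x)) = ν (cyl x (m x)) := by
        rw [← add_mul, add_tsub_cancel_of_le hc1.le, one_mul]
      have h4 : c * ν (cyl x (m x)) + ν (cyl x (m x) \ A) ≤
          c * ν (cyl x (m x)) + (1 - c) * ν (cyl x (m x)) := by
        rw [h3]
        calc c * ν (cyl x (m x)) + ν (cyl x (m x) \ A)
            ≤ ν (cyl x (m x) ∩ A) + ν (cyl x (m x) \ A) := add_le_add hA2 le_rfl
          _ = ν (cyl x (m x)) := h2
      have h5 : c * ν (cyl x (m x)) ≠ ∞ :=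
        ENNReal.mul_ne_top (hc1.trans ENNReal.one_lt_top).ne (measure_ne_top ν _)
      exact h1.trans ((ENNReal.add_le_add_iff_left h5).1 h4)
  have hcover : ν F ≤ ∑' C : 𝒞, ν (F ∩ (C : Set (ℕ → V))) := by
    have _ : Countable 𝒞 := h𝒞.to_subtype
    refine le_trans (measure_mono ?_) (measure_iUnion_le _)
    intro x hx
    rw [Set.mem_iUnion]
    exact ⟨⟨_, ⟨x, hx, rfl⟩⟩, hx, hself x (m x)⟩
  have hfin : ν F ≤ (1 - c) * ν U := by
    calc ν F ≤ ∑' C : 𝒞, ν (F ∩ (C : Set (ℕ → V))) := hcover
      _ ≤ ∑' C : 𝒞, (1 - c) * ν (C : Set (ℕ → V)) := ENNReal.tsum_le_tsum hpart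
      _ = (1 - c) * ∑' C : 𝒞, ν (C : Set (ℕ → V)) := ENNReal.tsum_mul_left
      _ ≤ (1 - c) * ν U := by gcongr
  exact absurd (lt_of_le_of_lt hfin hU') (lt_irrefl _)

theorem ae_of_levy (hν : IsLaw G β v ν) (Q : (ℕ → V) → Prop) (good : (ℕ → V) → ℕ → Prop)
    (hgood : ∀ x y n, (∀ i ≤ n, x i = y i) → good x n → good y n)
    (hinf : ∀ x, ¬ Q x → x 0 = v → (∀ n, G.Adj (x n) (x (n + 1))) → ∀ N, ∃ n ≥ N, good x n)
    {δ : ℝ} (hδ : 0 < δ)
    (hF : ∀ x, ¬ Q x → x 0 = v → (∀ n, G.Adj (x n) (x (n + 1))) → ∀ n, good x n →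
      ∃ A : Set (ℕ → V), MeasurableSet A ∧
      (∀ y, ¬ Q y → (∀ i, G.Adj (y i) (y (i + 1))) → y ∈ cyl x n → y ∉ A) ∧
      ENNReal.ofReal δ * ν (cyl x n) ≤ ν (cyl x n ∩ A)) :
    ∀ᵐ x ∂ν, Q x := by
  have _ : IsProbabilityMeasure ν := hν.prob
  have h0 : ν {x | ¬ Q x ∧ x 0 = v ∧ ∀ n, G.Adj (x n) (x (n + 1))} = 0 := by
    apply levy _ good hgood
      (fun x hx => hinf x hx.1 hx.2.1 hx.2.2) hδ
    intro x hx n hg _
    obtain ⟨A, hA, hA1, hA2⟩ := hF x hx.1 hx.2.1 hx.2.2 n hg
    exact ⟨A, hA, fun y hy hyc => hA1 y hy.1 hy.2.2 hyc, hA2⟩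
  have h1 : ∀ᵐ x ∂ν, x ∉ {x | ¬ Q x ∧ x 0 = v ∧ ∀ n, G.Adj (x n) (x (n + 1))} :=
    measure_eq_zero_iff_ae_notMem.1 h0
  filter_upwards [h1, law_path hν] with x hx1 hx2
  by_contra hQ
  exact hx1 ⟨hQ, hx2⟩

end Pool.Agent.Lib.MP_c171f5_pr.AM
end

section

/-!
# TASK A2: flow conservation in a piece, bridges

`flow`: induction on `n`, with `cr_zero`, `cr_succ`. Step `a = p n → b = p (n + 1)`, `G.Adj a b`. If `π a = π b`, then not
both of `a`, `b` are in `H` (otherwise `a = π a = π b = b`), so no term `(y, z)`, `y, z ∈ H`, changes, and the right side does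
not change. Otherwise `a, b ∈ H`, `π a = a`, `π b = b`: for `y = a` the term `z = b` (it is in the sum) increases by `1` and the right
side too; for `y = b` the term `z = a` decreases by `1` and the right side too; for other `y` nothing changes.
`bridge`: induction on `n`, same cases. If `π a = π b` nothing changes (`(a, b)` is not `(x, z)` or `(z, x)`, as not both are in
`H`). If `a, b ∈ H` and `{a, b} ≠ {x, z}`: `hT` says `a ∈ T ↔ b ∈ T`: nothing changes. `(a, b) = (x, z)`: both sides increase
by `1`. `(a, b) = (z, x)`: both decrease by `1`.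
`cr_le_one_of_bridge`: `T := {a | ((sub G H).deleteEdges {s(x, z)}).Reachable z a}`; `x ∉ T` by hypothesis, `z ∈ T`, and an edge of `G` inside
`H` other than `xz` is an edge of this graph; use `bridge`: the right side is `≤ 1`.
-/

set_option autoImplicit false

namespace Pool.Agent.Lib.MP_c171f5_pr.AM

open MeasureTheory Filter Set

variable {V : Type*} {G : SimpleGraph V} [G.LocallyFinite] {H : Set V} {π : V → V}

open Classical in
theorem flow (hP : Piece G H π) {p : ℕ → V} {n : ℕ} (hp : IsPath G p n) {y : V} (hy : y ∈ H) :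
    ∑ z ∈ (G.neighborFinset y).filter (· ∈ H), cr p n y z =
      (if π (p 0) = y then 1 else 0) - (if π (p n) = y then 1 else 0) := by
  induction n with
  | zero => simp [cr_zero]
  | succ n ih =>
    have hp' : IsPath G p n := fun i hi => hp i (by omega)
    have hadj : G.Adj (p n) (p (n + 1)) := hp n (by omega)
    have ih' := ih hp'
    have hsum : ∑ z ∈ (G.neighborFinset y).filter (· ∈ H), cr p (n + 1) y z =
        ∑ z ∈ (G.neighborFinset y).filter (· ∈ H), cr p n y z +
        (∑ z ∈ (G.neighborFinset y).filter (· ∈ H), (if p n = y ∧ p (n + 1) = z then (1 : ℤ) else 0)) -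
        ∑ z ∈ (G.neighborFinset y).filter (· ∈ H), (if p n = z ∧ p (n + 1) = y then (1 : ℤ) else 0) := by
      rw [← Finset.sum_add_distrib, ← Finset.sum_sub_distrib]
      exact Finset.sum_congr rfl (fun z _ => cr_succ p n y z)
    have hA : ∑ z ∈ (G.neighborFinset y).filter (· ∈ H), (if p n = y ∧ p (n + 1) = z then (1 : ℤ) else 0) =
        if p n = y ∧ p (n + 1) ∈ H then 1 else 0 := by
      by_cases h : p n = y ∧ p (n + 1) ∈ H
      · rw [if_pos h, Finset.sum_eq_single (p (n + 1))]
        · rw [if_pos ⟨h.1, rfl⟩]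
        · intro b _ hb
          rw [if_neg]
          rintro ⟨_, h2⟩
          exact hb h2.symm
        · intro hn
          exfalso
          apply hn
          rw [Finset.mem_filter, SimpleGraph.mem_neighborFinset]
          exact ⟨h.1 ▸ hadj, h.2⟩
      · rw [if_neg h]
        refine Finset.sum_eq_zero (fun z hz => ?_)
        rw [if_neg]
        rintro ⟨h1, h2⟩
        exact h ⟨h1, h2 ▸ (Finset.mem_filter.1 hz).2⟩
    have hB : ∑ z ∈ (G.neighborFinset y).filter (· ∈ H), (if p n = z ∧ p (n + 1) = y then (1 : ℤ) else 0) =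
        if p (n + 1) = y ∧ p n ∈ H then 1 else 0 := by
      by_cases h : p (n + 1) = y ∧ p n ∈ H
      · rw [if_pos h, Finset.sum_eq_single (p n)]
        · rw [if_pos ⟨rfl, h.1⟩]
        · intro b _ hb
          rw [if_neg]
          rintro ⟨h1, _⟩
          exact hb h1.symm
        · intro hn
          exfalso
          apply hn
          rw [Finset.mem_filter, SimpleGraph.mem_neighborFinset]
          exact ⟨h.1 ▸ hadj.symm, h.2⟩
      · rw [if_neg h]
        refine Finset.sum_eq_zero (fun z hz => ?_)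
        rw [if_neg]
        rintro ⟨h1, h2⟩
        exact h ⟨h2, h1 ▸ (Finset.mem_filter.1 hz).2⟩
    rw [hsum, hA, hB, ih']
    rcases hP.edge _ _ hadj with he | ⟨ha, hb⟩
    · have h1 : ¬ (p n = y ∧ p (n + 1) ∈ H) := by
        rintro ⟨h1, h2⟩
        have h3 : p n ∈ H := h1 ▸ hy
        rw [hP.fix _ h3, hP.fix _ h2] at he
        exact hadj.ne he
      have h2 : ¬ (p (n + 1) = y ∧ p n ∈ H) := by
        rintro ⟨h1, h2⟩
        have h3 : p (n + 1) ∈ H := h1 ▸ hy
        rw [hP.fix _ h3, hP.fix _ h2] at he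
        exact hadj.ne he
      rw [if_neg h1, if_neg h2, he]
      ring
    · rw [hP.fix _ ha, hP.fix _ hb]
      simp only [ha, hb, and_true]
      ring

open Classical in
omit [G.LocallyFinite] in
theorem bridge (hP : Piece G H π) {p : ℕ → V} {n : ℕ} (hp : IsPath G p n) {x z : V} (hx : x ∈ H)
    (hz : z ∈ H) {T : Set V} (hxT : x ∉ T) (hzT : z ∈ T)
    (hT : ∀ a b, G.Adj a b → a ∈ H → b ∈ H → ¬ (a = x ∧ b = z) → ¬ (a = z ∧ b = x) → (a ∈ T ↔ b ∈ T)) :
    cr p n x z = (if π (p n) ∈ T then 1 else 0) - (if π (p 0) ∈ T then 1 else 0) := by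
  induction n with
  | zero => simp [cr_zero]
  | succ n ih =>
    have hp' : IsPath G p n := fun i hi => hp i (by omega)
    have hadj : G.Adj (p n) (p (n + 1)) := hp n (by omega)
    have ih' := ih hp'
    rw [cr_succ, ih']
    have hxz : x ≠ z := by
      rintro rfl
      exact hxT hzT
    rcases hP.edge _ _ hadj with he | ⟨ha, hb⟩
    · have h1 : ¬ (p n = x ∧ p (n + 1) = z) := by
        rintro ⟨h1, h2⟩
        rw [h1, h2, hP.fix _ hx, hP.fix _ hz] at he
        exact hxz he
      have h2 : ¬ (p n = z ∧ p (n + 1) = x) := by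
        rintro ⟨h1, h2⟩
        rw [h1, h2, hP.fix _ hx, hP.fix _ hz] at he
        exact hxz he.symm
      rw [if_neg h1, if_neg h2, he]
      ring
    · rw [hP.fix _ ha, hP.fix _ hb]
      by_cases h1 : p n = x ∧ p (n + 1) = z
      · have h2 : ¬ (p n = z ∧ p (n + 1) = x) := by
          rintro ⟨h2, _⟩
          exact hxz (h1.1.symm.trans h2)
        rw [if_pos h1, if_neg h2, h1.1, h1.2, if_neg hxT, if_pos hzT]
        ring
      · by_cases h2 : p n = z ∧ p (n + 1) = x
        · rw [if_neg h1, if_pos h2, h2.1, h2.2, if_neg hxT, if_pos hzT]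
          ring
        · rw [if_neg h1, if_neg h2]
          have h3 := hT _ _ hadj ha hb h1 h2
          simp only [h3]
          ring

omit [G.LocallyFinite] in
theorem cr_le_one_of_bridge (hP : Piece G H π) {p : ℕ → V} {n : ℕ} (hp : IsPath G p n) {x z : V}
    (hx : x ∈ H) (hz : z ∈ H) (hb : ¬ ((sub G H).deleteEdges {s(x, z)}).Reachable z x) :
    cr p n x z ≤ 1 := by
  classical
  have h := bridge hP hp hx hz (T := {a | ((sub G H).deleteEdges {s(x, z)}).Reachable z a}) hb
    (SimpleGraph.Reachable.refl z) (by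
      intro a b hab ha hb' h1 h2
      have hadj : ((sub G H).deleteEdges {s(x, z)}).Adj a b := by
        rw [SimpleGraph.deleteEdges_adj]
        refine ⟨⟨hab, ha, hb'⟩, ?_⟩
        rw [Set.mem_singleton_iff, Sym2.eq_iff]
        rintro (h | h)
        · exact h1 h
        · exact h2 h
      constructor
      · intro h
        exact SimpleGraph.Reachable.trans h hadj.reachable
      · intro h
        exact SimpleGraph.Reachable.trans h hadj.symm.reachable)
  rw [h]
  split_ifs <;> norm_num

end Pool.Agent.Lib.MP_c171f5_pr.AM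
end

section

/-!
# TASK B1: live edges

`live_adj`: from a path of length `0`. `Live` is monotone: a path for `n + 1` serves for `n`.
`live_next`: for every `n` take the path `s` for `n + 1` and `z_n := s 2`, a neighbour of `w` different from `x` (`n ≥ 1` for this; take `n + 2`);
the shifted path `i ↦ s (i + 1)` shows the condition of `Live G H w z_n` for `n`. `G.neighborFinset w` is finite, so some `z` is
`z_n` for infinitely many `n` (`Finite.exists_infinite_fiber` or similar), and `Live` follows by monotonicity.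
`live_exists`: `G` is infinite, connected, locally finite, so balls are finite and for every `n` there is a vertex at distance `n + 2` from `x`
(`(G.dist x y)` is unbounded, take a vertex on a shortest path); a shortest walk from `x` to it (`SimpleGraph.Walk.getVert`) is a
nonbacktracking path, because its vertices are distinct. By pigeonhole some neighbour `w` of `x` is the second vertex for
infinitely many `n`.
`ball_finite`: induction on `r`.
-/

set_option autoImplicit false

namespace Pool.Agent.Lib.MP_c171f5_pr.AM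

open MeasureTheory Filter Set

variable {V : Type*} {G : SimpleGraph V} {H : Set V}

theorem piece_univ : Piece G univ id := ⟨fun _ => mem_univ _, fun _ _ => rfl, fun _ _ _ => Or.inr ⟨mem_univ _, mem_univ _⟩⟩

private theorem B1_mono {x w : V} {m n : ℕ} (h : n ≤ m)
    (hs : ∃ s : ℕ → V, s 0 = x ∧ s 1 = w ∧ (∀ i ≤ m, G.Adj (s i) (s (i + 1))) ∧ (∀ i ≤ m + 1, s i ∈ H) ∧
      ∀ i < m, s (i + 2) ≠ s i) :
    ∃ s : ℕ → V, s 0 = x ∧ s 1 = w ∧ (∀ i ≤ n, G.Adj (s i) (s (i + 1))) ∧ (∀ i ≤ n + 1, s i ∈ H) ∧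
      ∀ i < n, s (i + 2) ≠ s i := by
  obtain ⟨s, h0, h1, h2, h3, h4⟩ := hs
  exact ⟨s, h0, h1, fun i hi => h2 i (hi.trans h), fun i hi => h3 i (by omega), fun i hi => h4 i (by omega)⟩

private theorem B1_pigeon [G.LocallyFinite] (w : V) (P : V → ℕ → Prop)
    (hmono : ∀ z m n, n ≤ m → P z m → P z n) (h : ∀ n, ∃ z, G.Adj w z ∧ P z n) :
    ∃ z, G.Adj w z ∧ ∀ n, P z n := by
  choose z hz hP using h
  have : Finite (G.neighborSet w) := Finite.of_fintype _
  obtain ⟨y, hy⟩ := Finite.exists_infinite_fiber (fun n => (⟨z n, hz n⟩ : G.neighborSet w))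
  refine ⟨y.1, y.2, fun n => ?_⟩
  have hinf : ((fun n => (⟨z n, hz n⟩ : G.neighborSet w)) ⁻¹' {y}).Infinite := Set.infinite_coe_iff.1 hy
  obtain ⟨m, hm, hnm⟩ := hinf.exists_gt n
  have h1 : z m = y.1 := congrArg Subtype.val hm
  rw [← h1]
  exact hmono _ _ _ hnm.le (hP m)

theorem live_adj {x w : V} (h : Live G H x w) : G.Adj x w ∧ x ∈ H ∧ w ∈ H := by
  obtain ⟨s, h0, h1, h2, h3, -⟩ := h 0
  subst h0
  subst h1
  exact ⟨h2 0 le_rfl, h3 0 (by omega), h3 1 (by omega)⟩

theorem live_next [G.LocallyFinite] {x w : V} (h : Live G H x w) : ∃ z, z ≠ x ∧ Live G H w z := by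
  obtain ⟨z, -, hz⟩ := B1_pigeon (G := G) w
    (fun z n => z ≠ x ∧ ∃ s : ℕ → V, s 0 = w ∧ s 1 = z ∧ (∀ i ≤ n, G.Adj (s i) (s (i + 1))) ∧
      (∀ i ≤ n + 1, s i ∈ H) ∧ ∀ i < n, s (i + 2) ≠ s i)
    (fun z m n hnm hP => ⟨hP.1, B1_mono hnm hP.2⟩) (fun n => by
      obtain ⟨s, h0, h1, h2, h3, h4⟩ := h (n + 1)
      refine ⟨s 2, ?_, ?_, fun i => s (i + 1), h1, rfl, fun i hi => h2 (i + 1) (by omega),
        fun i hi => h3 (i + 1) (by omega), fun i hi => ?_⟩
      · rw [← h1]; exact h2 1 (by omega)
      · rw [← h0]; exact h4 0 (by omega)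
      · exact h4 (i + 1) (by omega))
  exact ⟨z, (hz 0).1, fun n => (hz n).2⟩

theorem ball_finite [G.LocallyFinite] (hG : G.Connected) (x : V) (r : ℕ) : {y | G.dist x y ≤ r}.Finite := by
  induction r with
  | zero =>
    refine (Set.finite_singleton x).subset fun y hy => ?_
    have h : G.dist x y = 0 := Nat.le_zero.1 hy
    exact ((hG.dist_eq_zero_iff).1 h).symm
  | succ r ih =>
    have hfin : (⋃ z ∈ {y | G.dist x y ≤ r}, G.neighborSet z).Finite :=
      ih.biUnion fun z _ => Set.toFinite _
    refine (ih.union hfin).subset fun y hy => ?_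
    by_cases h : G.dist x y ≤ r
    · exact Or.inl h
    · right
      obtain ⟨p, hp⟩ := (hG y x).exists_walk_length_eq_dist
      have hy' : G.dist x y ≤ r + 1 := hy
      rw [SimpleGraph.dist_comm] at hp
      cases p with
      | nil => exact absurd (by rw [SimpleGraph.dist_self]; exact Nat.zero_le r) h
      | @cons _ z _ hadj q =>
        have h1 : G.dist z x ≤ q.length := SimpleGraph.dist_le q
        rw [SimpleGraph.Walk.length_cons] at hp
        refine Set.mem_biUnion (x := z) ?_ hadj.symm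
        change G.dist x z ≤ r
        rw [SimpleGraph.dist_comm]
        omega

theorem live_exists [Infinite V] [G.LocallyFinite] (hG : G.Connected) (x : V) : ∃ w, Live G univ x w := by
  obtain ⟨z, -, hz⟩ := B1_pigeon (G := G) x
    (fun z n => ∃ s : ℕ → V, s 0 = x ∧ s 1 = z ∧ (∀ i ≤ n, G.Adj (s i) (s (i + 1))) ∧
      (∀ i ≤ n + 1, s i ∈ (univ : Set V)) ∧ ∀ i < n, s (i + 2) ≠ s i)
    (fun z m n hnm hP => B1_mono hnm hP) (fun n => by
      obtain ⟨y, hy⟩ := (ball_finite hG x (n + 1)).exists_notMem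
      have hy' : n + 1 < G.dist x y := not_le.1 hy
      obtain ⟨p, hp, hlen⟩ := (hG x y).exists_path_of_dist
      refine ⟨p.getVert 1, ?_, p.getVert, p.getVert_zero, rfl, fun i hi => ?_, fun _ _ => mem_univ _,
        fun i hi heq => ?_⟩
      · have h1 := p.adj_getVert_succ (i := 0) (by omega)
        rw [p.getVert_zero] at h1
        exact h1
      · exact p.adj_getVert_succ (by omega)
      · have h1 := hp.getVert_injOn (show i + 2 ≤ p.length by omega) (show i ≤ p.length by omega) heq
        omega)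
  exact ⟨z, hz⟩

end Pool.Agent.Lib.MP_c171f5_pr.AM
end

section

/-!
# TASK B2: circuits and live edges

`circuit_of_reach`: a path (`Walk.toPath`) from `z` to `x` in `(sub G H).deleteEdges {s(x, z)}`; its length is `k ≥ 2` (it is not `0` as `x ≠ z`, and
not `1` as the edge `zx` is deleted). `l := k + 1`, `u 0 := x`, `u (i + 1) :=` its `i`-th vertex (`getVert`), `i < k`; the last edge from its
`(k - 1)`-th vertex to `x`.
`live_of_circuit`: `s i := u (i % l)` for `u 0 = x`, `u 1 = z`: adjacent; `s (i + 2) ≠ s i` since `l ≥ 3`.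
`cr_le_one_of_not_live`: by `circuit_of_reach`, `live_of_circuit` and `cr_le_one_of_bridge`.
`circuit_shift`: `u' j := u ((i + j) % l)`.
`circuit_of_live`: `H` finite with `N` vertices: take a nonbacktracking path `s` in `H` for `n = N + 2`; let `j` be least with `s j = s i` for some `i < j`;
then `s i, …, s (j - 1)` are distinct, `j - i ≥ 3` since `s (i + 1) ≠ s i` (adjacent) and `s (i + 2) ≠ s i`; a circuit.
`circuit_in_piece`: suppose `u k ∉ H`; `k ≥ 2`. Let `a < k` be the largest index with `u a ∈ H` (`a ≥ 1`), `b > k` the least index with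
`u (b % l) ∈ H` (`b ≤ l`). The edges between consecutive vertices of indices `a, …, b` are not inside `H`, so `π` is constant on them:
`u a = π (u a) = π (u (b % l)) = u (b % l)`, so `a = b % l`; but `1 ≤ a < b ≤ l`. A contradiction.
-/

set_option autoImplicit false

namespace Pool.Agent.Lib.MP_c171f5_pr.AM

open MeasureTheory Filter Set

variable {V : Type*} {G : SimpleGraph V} {H : Set V} {π : V → V}

private theorem B2_succ_mod {l i : ℕ} (hl : 0 < l) :
    (i % l + 1 < l ∧ (i + 1) % l = i % l + 1) ∨ (i % l + 1 = l ∧ (i + 1) % l = 0) := by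
  have h1 : i % l < l := Nat.mod_lt _ hl
  rcases Nat.lt_or_ge (i % l + 1) l with h | h
  · left
    refine ⟨h, ?_⟩
    rw [Nat.add_mod, Nat.mod_eq_of_lt (show 1 < l by omega)]
    exact Nat.mod_eq_of_lt h
  · right
    have h2 : i % l + 1 = l := by omega
    refine ⟨h2, ?_⟩
    rw [← Nat.mod_add_mod, h2, Nat.mod_self]

private theorem B2_adj_mod {l : ℕ} {u : ℕ → V} (hu : IsCircuit G l u) (i : ℕ) :
    G.Adj (u (i % l)) (u ((i + 1) % l)) := by
  have hl : 0 < l := by have := hu.three; omega
  rcases B2_succ_mod (i := i) hl with ⟨h1, h2⟩ | ⟨h1, h2⟩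
  · rw [h2]; exact hu.adj _ h1
  · rw [h2]
    have h3 : i % l = l - 1 := by omega
    rw [h3]; exact hu.last

private theorem B2_mod_inj {l i a b : ℕ} (ha : a < l) (hb : b < l) (h : (i + a) % l = (i + b) % l) : a = b := by
  have h1 : a % l = b % l := Nat.ModEq.add_left_cancel' i h
  rwa [Nat.mod_eq_of_lt ha, Nat.mod_eq_of_lt hb] at h1

theorem circuit_of_reach {x z : V} (hxz : G.Adj x z) (hx : x ∈ H) (hz : z ∈ H)
    (h : ((sub G H).deleteEdges {s(x, z)}).Reachable z x) :
    ∃ l u, IsCircuit G l u ∧ (∀ i < l, u i ∈ H) ∧ u 0 = x ∧ u 1 = z := by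
  obtain ⟨w, hw⟩ := h.exists_isPath
  have hk0 : w.length ≠ 0 := by
    intro h0
    exact hxz.ne (SimpleGraph.Walk.eq_of_length_eq_zero h0).symm
  have hadj : ∀ i < w.length, ((sub G H).deleteEdges {s(x, z)}).Adj (w.getVert i) (w.getVert (i + 1)) :=
    fun i hi => w.adj_getVert_succ hi
  have hk1 : w.length ≠ 1 := by
    intro h1
    have h2 := hadj 0 (by omega)
    have h3 : w.getVert (0 + 1) = x := by
      have := w.getVert_length
      rw [h1] at this
      exact this
    rw [w.getVert_zero, h3, SimpleGraph.deleteEdges_adj] at h2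
    exact h2.2 (by rw [Set.mem_singleton_iff]; exact Sym2.eq_swap)
  have hinj : ∀ i ≤ w.length, ∀ j ≤ w.length, w.getVert i = w.getVert j → i = j :=
    fun i hi j hj hij => hw.getVert_injOn (by simpa using hi) (by simpa using hj) hij
  have hG : ∀ i < w.length, G.Adj (w.getVert i) (w.getVert (i + 1)) ∧ w.getVert i ∈ H := by
    intro i hi
    have h1 := hadj i hi
    rw [SimpleGraph.deleteEdges_adj] at h1
    exact ⟨h1.1.1, h1.1.2.1⟩
  refine ⟨w.length + 1, fun i => if i = 0 then x else w.getVert (i - 1), ⟨by omega, ?_, ?_, ?_⟩, ?_, ?_, ?_⟩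
  · intro i hi j hj hij
    by_cases hi0 : i = 0 <;> by_cases hj0 : j = 0
    · omega
    · rw [if_pos hi0, if_neg hj0] at hij
      have := hinj w.length le_rfl (j - 1) (by omega) (by rw [w.getVert_length]; exact hij)
      omega
    · rw [if_neg hi0, if_pos hj0] at hij
      have := hinj w.length le_rfl (i - 1) (by omega) (by rw [w.getVert_length]; exact hij.symm)
      omega
    · rw [if_neg hi0, if_neg hj0] at hij
      have := hinj (i - 1) (by omega) (j - 1) (by omega) hij
      omega
  · intro i hi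
    by_cases hi0 : i = 0
    · subst hi0
      rw [if_pos rfl, if_neg (by omega)]
      have : w.getVert (0 + 1 - 1) = z := w.getVert_zero
      rw [this]
      exact hxz
    · rw [if_neg hi0, if_neg (by omega)]
      have h1 := (hG (i - 1) (by omega)).1
      have h2 : i - 1 + 1 = i + 1 - 1 := by omega
      rw [h2] at h1
      exact h1
  · rw [if_neg (by omega), if_pos rfl]
    have h1 := (hG (w.length - 1) (by omega)).1
    have h2 : w.length - 1 + 1 = w.length := by omega
    rw [h2, w.getVert_length] at h1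
    exact h1
  · intro i hi
    dsimp only
    by_cases hi0 : i = 0
    · rw [if_pos hi0]; exact hx
    · rw [if_neg hi0]; exact (hG (i - 1) (by omega)).2
  · dsimp only
    rw [if_pos rfl]
  · dsimp only
    rw [if_neg (by omega)]
    exact w.getVert_zero

theorem live_of_circuit {l : ℕ} {u : ℕ → V} (hu : IsCircuit G l u) (hH : ∀ i < l, u i ∈ H) :
    Live G H (u 0) (u 1) := by
  have h3 := hu.three
  have hl : 0 < l := by omega
  intro n
  refine ⟨fun i => u (i % l), ?_, ?_, fun i _ => B2_adj_mod hu i, fun i _ => hH _ (Nat.mod_lt _ hl), ?_⟩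
  · dsimp only
    rw [Nat.zero_mod]
  · dsimp only
    rw [Nat.mod_eq_of_lt (show 1 < l by omega)]
  · intro i _ h
    have h1 := hu.inj _ (Nat.mod_lt _ hl) _ (Nat.mod_lt _ hl) h
    have h2 : (2 : ℕ) = 0 := B2_mod_inj (l := l) (i := i) (by omega) (by omega) h1
    omega

theorem cr_le_one_of_not_live (hP : Piece G H π) {p : ℕ → V} {n : ℕ} (hp : IsPath G p n) {x z : V}
    (hxz : G.Adj x z) (hx : x ∈ H) (hz : z ∈ H) (h : ¬ Live G H x z) : cr p n x z ≤ 1 := by
  refine cr_le_one_of_bridge hP hp hx hz fun hr => h ?_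
  obtain ⟨l, u, hu, hH, h0, h1⟩ := circuit_of_reach hxz hx hz hr
  have := live_of_circuit hu hH
  rwa [h0, h1] at this

theorem circuit_shift {l : ℕ} {u : ℕ → V} (hu : IsCircuit G l u) (i : ℕ) :
    IsCircuit G l (fun j => u ((i + j) % l)) := by
  have h3 := hu.three
  have hl : 0 < l := by omega
  refine ⟨h3, ?_, ?_, ?_⟩
  · intro a ha b hb hab
    exact B2_mod_inj ha hb (hu.inj _ (Nat.mod_lt _ hl) _ (Nat.mod_lt _ hl) hab)
  · intro a _
    exact B2_adj_mod hu (i + a)
  · have h1 := B2_adj_mod hu (i + (l - 1))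
    have h2 : (i + (l - 1) + 1) % l = (i + 0) % l := by
      have : i + (l - 1) + 1 = i + l := by omega
      rw [this, Nat.add_mod_right, Nat.add_zero]
    rw [h2] at h1
    exact h1

theorem circuit_of_live (hH : H.Finite) {x w : V} (h : Live G H x w) :
    ∃ l u, IsCircuit G l u ∧ ∀ i < l, u i ∈ H := by
  classical
  obtain ⟨s, -, -, h2, h3, h4⟩ := h (H.ncard + 2)
  have hex : ∃ j, j ≤ H.ncard ∧ ∃ i < j, s j = s i := by
    by_contra hno
    push Not at hno
    have hinj : Set.InjOn s ((Finset.range (H.ncard + 1) : Finset ℕ) : Set ℕ) := by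
      intro a ha b hb hab
      have ha' : a ≤ H.ncard := by
        have := Finset.mem_range.1 (Finset.mem_coe.1 ha); omega
      have hb' : b ≤ H.ncard := by
        have := Finset.mem_range.1 (Finset.mem_coe.1 hb); omega
      rcases lt_trichotomy a b with hlt | heq | hgt
      · exact absurd hab.symm (hno b hb' a hlt)
      · exact heq
      · exact absurd hab (hno a ha' b hgt)
    have hsub : ((Finset.range (H.ncard + 1)).image s : Set V) ⊆ H := by
      intro y hy
      obtain ⟨a, ha, rfl⟩ := Finset.mem_image.1 (Finset.mem_coe.1 hy)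
      have := Finset.mem_range.1 ha
      exact h3 a (by omega)
    have hcard := Set.ncard_le_ncard hsub hH
    rw [Set.ncard_coe_finset, Finset.card_image_of_injOn hinj, Finset.card_range] at hcard
    omega
  obtain ⟨hj, i, hij, hs⟩ := Nat.find_spec hex
  have hmin : ∀ b < Nat.find hex, ∀ a < b, s b ≠ s a := by
    intro b hb a hab heq
    exact Nat.find_min hex hb ⟨by omega, a, hab, heq⟩
  generalize Nat.find hex = j at hj hij hs hmin
  have hj1 : j ≠ i + 1 := by
    rintro rfl
    exact (h2 i (by omega)).ne hs.symm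
  have hj2 : j ≠ i + 2 := by
    rintro rfl
    exact h4 i (by omega) hs
  refine ⟨j - i, fun t => s (i + t), ⟨by omega, ?_, ?_, ?_⟩, ?_⟩
  · intro a ha b hb hab
    rcases lt_trichotomy a b with hlt | heq | hgt
    · exact absurd hab.symm (hmin (i + b) (by omega) (i + a) (by omega))
    · exact heq
    · exact absurd hab (hmin (i + a) (by omega) (i + b) (by omega))
  · intro a ha
    exact h2 (i + a) (by omega)
  · have h5 := h2 (i + (j - i - 1)) (by omega)
    have h6 : i + (j - i - 1) + 1 = j := by omega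
    rw [h6, hs] at h5
    exact h5
  · intro a ha
    exact h3 _ (by omega)

theorem circuit_in_piece (hP : Piece G H π) {l : ℕ} {u : ℕ → V} (hu : IsCircuit G l u) (h0 : u 0 ∈ H)
    (h1 : u 1 ∈ H) : ∀ i < l, u i ∈ H := by
  classical
  intro k hk
  by_contra hkH
  have h3 := hu.three
  have hl : 0 < l := by omega
  have hk0 : k ≠ 0 := fun h => hkH (h ▸ h0)
  have hk1 : k ≠ 1 := fun h => hkH (h ▸ h1)
  -- the last visit to `H` before `k`
  have ha := Nat.findGreatest_spec (P := fun a => u a ∈ H) (n := k) (m := 1) (by omega) h1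
  have ha1 := Nat.le_findGreatest (P := fun a => u a ∈ H) (n := k) (m := 1) (by omega) h1
  have ha2 := Nat.findGreatest_le (P := fun a => u a ∈ H) k
  have ha3 : ∀ t, Nat.findGreatest (fun a => u a ∈ H) k < t → t ≤ k → u t ∉ H :=
    fun t ht htk => Nat.findGreatest_is_greatest ht htk
  generalize Nat.findGreatest (fun a => u a ∈ H) k = a at ha ha1 ha2 ha3
  have hak : a < k := lt_of_le_of_ne ha2 (fun h => hkH (h ▸ ha))
  -- the first visit to `H` after `k`
  have hex : ∃ b, k < b ∧ u (b % l) ∈ H := ⟨l, hk, by rw [Nat.mod_self]; exact h0⟩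
  obtain ⟨hb1, hb2⟩ := Nat.find_spec hex
  have hb3 : Nat.find hex ≤ l := Nat.find_min' hex ⟨hk, by rw [Nat.mod_self]; exact h0⟩
  have hb4 : ∀ t, k < t → t < Nat.find hex → u (t % l) ∉ H := fun t htk ht hH => Nat.find_min hex ht ⟨htk, hH⟩
  generalize Nat.find hex = b at hb1 hb2 hb3 hb4
  have hout : ∀ t, a < t → t < b → u (t % l) ∉ H := by
    intro t hat htb
    rcases Nat.lt_or_ge k t with h | h
    · exact hb4 t h htb
    · rw [Nat.mod_eq_of_lt (show t < l by omega)]
      exact ha3 t hat h
  have hconst : ∀ t, a ≤ t → t ≤ b → π (u (t % l)) = u a := by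
    intro t hat
    induction t, hat using Nat.le_induction with
    | base =>
      intro _
      rw [Nat.mod_eq_of_lt (show a < l by omega)]
      exact hP.fix _ ha
    | succ t hat ih =>
      intro htb
      rw [← ih (by omega)]
      rcases hP.edge _ _ (B2_adj_mod hu t) with h | ⟨h5, h6⟩
      · exact h.symm
      · exfalso
        rcases Nat.lt_or_ge a t with h | h
        · exact hout t h (by omega) h5
        · exact hout (t + 1) (by omega) (by omega) h6
  have hfin := hconst b (by omega) le_rfl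
  rw [hP.fix _ hb2] at hfin
  have hab := hu.inj _ (Nat.mod_lt _ hl) _ (by omega) hfin
  rcases Nat.lt_or_ge b l with h | h
  · rw [Nat.mod_eq_of_lt h] at hab
    omega
  · have : b = l := by omega
    rw [this, Nat.mod_self] at hab
    omega

end Pool.Agent.Lib.MP_c171f5_pr.AM
end

section

/-!
# TASK B3: walks in a piece

`dist_proj`: a shortest walk from `a` to `b` is mapped by `π` to a sequence of vertices in which consecutive ones are equal or adjacent (an
edge with both ends in `H` is mapped to itself), so `G.dist (π a) (π b) ≤ G.dist a b`.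
`exists_walk_in`: induction on `d = G.dist a b`. `d = 0`: `a = b`. `d + 1`: let `b'` be the neighbour of `a` on a shortest walk, `G.dist b' b = d`. If
`b' ∈ H`: induction for `b'`, `b`. If `b' ∉ H` then `π b' = π a = a` (the edge is not inside `H`), so `G.dist a b = G.dist (π b') (π b) ≤ d`, a
contradiction. The bound on the distances: the `i`-th vertex has distance `≤ d - i ≤ d` to `b`. (The walk is given as a function
`q`, `q 0 = a`, `q d = b`.)
`live_of_circuit_in`: let `d` be the least distance of `x` to a vertex `u i`, `i < l`, say `u i`. If `d = 0` use `circuit_shift` and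
`live_of_circuit`. Otherwise take `q` from `exists_walk_in` for `x`, `u i`: `q j` has distance `≤ d - j` to `u i` (use `hdist`), so `q j` is not on the circuit
for `j < d`, and `q 0, …, q d` are distinct (`G.dist x (q j) ≥ j`). Follow `q` to `u i` and then the circuit `u i, u (i + 1), …`: a
nonbacktracking path in `H` of every length which starts with `x`, `q 1`: `s j = q j` for `j ≤ d`, `s (d + j) = u ((i + j) % l)`.
-/

set_option autoImplicit false

namespace Pool.Agent.Lib.MP_c171f5_pr.AM

open MeasureTheory Filter Set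

variable {V : Type*} {G : SimpleGraph V} {H : Set V} {π : V → V}

private theorem B3_edge (hP : Piece G H π) {a b : V} (h : G.Adj a b) : G.dist (π a) (π b) ≤ 1 := by
  rcases hP.edge a b h with h1 | ⟨h1, h2⟩
  · rw [h1, SimpleGraph.dist_self]; exact Nat.zero_le _
  · rw [hP.fix a h1, hP.fix b h2, SimpleGraph.dist_eq_one_iff_adj.mpr h]

private theorem B3_walk (hG : G.Connected) (hP : Piece G H π) {a b : V} (w : G.Walk a b) :
    G.dist (π a) (π b) ≤ w.length := by
  induction w with
  | nil => rw [SimpleGraph.dist_self]; exact Nat.zero_le _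
  | @cons x y z h w ih =>
    have h1 := hG.dist_triangle (u := π x) (v := π y) (w := π z)
    have h2 := B3_edge hP h
    rw [SimpleGraph.Walk.length_cons]
    omega

theorem dist_proj (hG : G.Connected) (hP : Piece G H π) (a b : V) : G.dist (π a) (π b) ≤ G.dist a b := by
  obtain ⟨w, hw⟩ := hG.exists_walk_length_eq_dist a b
  rw [← hw]
  exact B3_walk hG hP w

theorem exists_walk_in (hG : G.Connected) (hP : Piece G H π) {a b : V} (ha : a ∈ H) (hb : b ∈ H) :
    ∃ q : ℕ → V, q 0 = a ∧ q (G.dist a b) = b ∧ (∀ i < G.dist a b, G.Adj (q i) (q (i + 1))) ∧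
      ∀ i ≤ G.dist a b, q i ∈ H ∧ G.dist (q i) b = G.dist a b - i := by
  suffices hmain : ∀ (d : ℕ) (a : V), a ∈ H → G.dist a b = d →
      ∃ q : ℕ → V, q 0 = a ∧ q d = b ∧ (∀ i < d, G.Adj (q i) (q (i + 1))) ∧
        ∀ i ≤ d, q i ∈ H ∧ G.dist (q i) b = d - i from hmain _ a ha rfl
  intro d
  induction d with
  | zero =>
    intro a ha hd
    have hab : a = b := hG.dist_eq_zero_iff.mp hd
    refine ⟨fun _ => a, rfl, hab, fun i hi => absurd hi (Nat.not_lt_zero _), fun i hi => ⟨ha, ?_⟩⟩
    have : i = 0 := by omega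
    rw [hd, this]
  | succ d ih =>
    intro a ha hd
    obtain ⟨w, hw⟩ := hG.exists_walk_length_eq_dist a b
    cases w with
    | nil => rw [SimpleGraph.Walk.length_nil] at hw; omega
    | @cons _ c _ h w =>
      rw [SimpleGraph.Walk.length_cons, hd] at hw
      have h1 : G.dist c b ≤ w.length := SimpleGraph.dist_le w
      have h2 := hG.dist_triangle (u := a) (v := c) (w := b)
      have h3 : G.dist a c = 1 := SimpleGraph.dist_eq_one_iff_adj.mpr h
      have hc : G.dist c b = d := by omega
      have hcH : c ∈ H := by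
        by_contra hcn
        rcases hP.edge a c h with h4 | ⟨_, h5⟩
        · have h6 := dist_proj hG hP c b
          rw [← h4, hP.fix a ha, hP.fix b hb] at h6
          omega
        · exact hcn h5
      obtain ⟨q, hq0, hqd, hadj, hq⟩ := ih c hcH hc
      refine ⟨fun i => Nat.casesOn i a q, rfl, hqd, ?_, ?_⟩
      · intro i hi
        cases i with
        | zero =>
          show G.Adj a (q 0)
          rw [hq0]
          exact h
        | succ i => exact hadj i (by omega)
      · intro i hi
        cases i with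
        | zero => exact ⟨ha, by simpa using hd⟩
        | succ i =>
          obtain ⟨h7, h8⟩ := hq i (by omega)
          refine ⟨h7, ?_⟩
          show G.dist (q i) b = d + 1 - (i + 1)
          rw [h8]; omega

theorem live_of_circuit_in (hG : G.Connected) (hP : Piece G H π) {l : ℕ} {u : ℕ → V}
    (hu : IsCircuit G l u) (hH : ∀ i < l, u i ∈ H) {x : V} (hx : x ∈ H) : ∃ w, Live G H x w := by
  have hl : 3 ≤ l := hu.three
  obtain ⟨i, hi, hmin⟩ : ∃ i < l, ∀ j < l, G.dist x (u i) ≤ G.dist x (u j) := by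
    obtain ⟨i, hi, hmin⟩ := Finset.exists_min_image (Finset.range l) (fun j => G.dist x (u j))
      ⟨0, Finset.mem_range.mpr (by omega)⟩
    exact ⟨i, Finset.mem_range.mp hi, fun j hj => hmin j (Finset.mem_range.mpr hj)⟩
  have hmod : ∀ k, k % l < l := fun k => Nat.mod_lt _ (by omega)
  obtain ⟨q, hq0, hqd, hadj, hq⟩ := exists_walk_in hG hP hx (hH i hi)
  set d := G.dist x (u i) with hd
  -- the circuit from `u i` on
  set t : ℕ → V := fun k => u ((i + k) % l) with ht
  have ht0 : t 0 = u i := by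
    show u ((i + 0) % l) = u i
    rw [Nat.add_zero, Nat.mod_eq_of_lt hi]
  have htH : ∀ k, t k ∈ H := fun k => hH _ (hmod _)
  have htmin : ∀ k, d ≤ G.dist x (t k) := fun k => hmin _ (hmod _)
  have hsucc : ∀ m, G.Adj (u (m % l)) (u ((m + 1) % l)) := by
    intro m
    have hm := hmod m
    rw [Nat.add_mod, Nat.mod_eq_of_lt (show 1 < l by omega)]
    rcases Nat.lt_or_ge (m % l + 1) l with h1 | h1
    · rw [Nat.mod_eq_of_lt h1]
      exact hu.adj _ h1
    · have h2 : m % l = l - 1 := by omega
      rw [h2, Nat.sub_add_cancel (by omega), Nat.mod_self]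
      exact hu.last
  have htadj : ∀ k, G.Adj (t k) (t (k + 1)) := fun k => hsucc (i + k)
  have htne : ∀ k, t (k + 2) ≠ t k := by
    intro k h
    have h1 := hu.inj _ (hmod _) _ (hmod _) h
    have h2 := Nat.sub_mod_eq_zero_of_mod_eq h1
    rw [show i + (k + 2) - (i + k) = 2 by omega, Nat.mod_eq_of_lt (by omega)] at h2
    omega
  have hqx : ∀ j ≤ d, G.dist x (q j) ≤ j := by
    intro j
    induction j with
    | zero => intro _; rw [hq0, SimpleGraph.dist_self]
    | succ j ih =>
      intro hj
      have h1 := ih (by omega)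
      have h2 := hG.dist_triangle (u := x) (v := q j) (w := q (j + 1))
      have h3 : G.dist (q j) (q (j + 1)) = 1 := SimpleGraph.dist_eq_one_iff_adj.mpr (hadj j (by omega))
      omega
  set s : ℕ → V := fun j => if j < d then q j else t (j - d) with hs
  have hslt : ∀ j, j ≤ d → s j = q j := by
    intro j hj
    rcases Nat.lt_or_ge j d with h1 | h1
    · exact if_pos h1
    · have h2 : j = d := le_antisymm hj h1
      show (if j < d then q j else t (j - d)) = q j
      rw [if_neg (by omega), h2, Nat.sub_self, ht0, hqd]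
  have hsge : ∀ j, d ≤ j → s j = t (j - d) := fun j hj => if_neg (by omega)
  refine ⟨s 1, fun n => ⟨s, ?_, rfl, ?_, ?_, ?_⟩⟩
  · rw [hslt 0 (Nat.zero_le _), hq0]
  · intro j _
    rcases Nat.lt_or_ge j d with h1 | h1
    · rw [hslt j h1.le, hslt (j + 1) h1]
      exact hadj j h1
    · rw [hsge j h1, hsge (j + 1) (by omega), show j + 1 - d = j - d + 1 by omega]
      exact htadj _
  · intro j _
    rcases Nat.lt_or_ge j d with h1 | h1
    · rw [hslt j h1.le]
      exact (hq j h1.le).1
    · rw [hsge j h1]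
      exact htH _
  · intro j _
    rcases Nat.lt_or_ge j d with h1 | h1
    · rcases Nat.lt_or_ge d (j + 2) with h2 | h2
      · intro h
        rw [hsge (j + 2) h2.le, hslt j h1.le] at h
        have h3 := htmin (j + 2 - d)
        rw [h] at h3
        have h4 := hqx j h1.le
        omega
      · intro h
        rw [hslt (j + 2) h2, hslt j h1.le] at h
        have h3 := (hq j h1.le).2
        have h4 := (hq (j + 2) h2).2
        rw [h] at h4
        omega
    · rw [hsge j h1, hsge (j + 2) (by omega), show j + 2 - d = j - d + 2 by omega]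
      exact htne _

end Pool.Agent.Lib.MP_c171f5_pr.AM
end

section

/-!
# TASK C1: the way to a fresh circuit

PROOF. `W := {y | ∀ i < n, p i ≠ y}`: a vertex of `W` other than `p n` is not visited up to time `n`, so all crossing numbers at it are `0`
(`cr_unvisited`). Let `C = {u 0, …, u (l - 1)}`. Among all walks `q 0 = p n, …, q m`
(adjacent, all `q i ∈ W ∩ H`) with `q m ∈ C` take one with the least `m` (the given one shows `m ≤ M`). Then the `q i` are distinct
(otherwise a shorter one) and `q i ∉ C` for `i < m`. `S := {q 0, …, q m} ∪ C`, `nxt (q i) := q (i + 1)` for `i < m`,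
`nxt (u j) := u ((j + 1) % l)`. `S.card ≤ M + l`: (`m` vertices outside `C`, and `l`). `nxt (nxt y) ≠ y`: for `y = q i`, `i + 2 ≤ m`: distinct; for
`y = q (m - 1)`: `nxt (nxt y) ∈ C`, `y ∉ C`; for `y ∈ C`: `l ≥ 3` and the `u j` are distinct. The last condition: if `y ≠ p n`
then `y` is unvisited: all its crossing numbers are `0`. If `y = p n`: `cr p n y z ≤ 0` (`cr_first`) and `cr p n y (nxt y) = 0`, since `nxt y ≠ p n` is unvisited
(`cr_unvisited`, second part).
-/

set_option autoImplicit false

namespace Pool.Agent.Lib.MP_c171f5_pr.AM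

open MeasureTheory Filter Set

variable {V : Type*} {G : SimpleGraph V} {H : Set V}

theorem fresh_nxt {p : ℕ → V} {n : ℕ} {l : ℕ} {u : ℕ → V} (hu : IsCircuit G l u)
    (huW : ∀ j < l, u j ∈ H ∧ ∀ i < n, p i ≠ u j) {M : ℕ} {q : ℕ → V} (hq0 : q 0 = p n) (hqM : q M = u 0)
    (hq : ∀ i < M, G.Adj (q i) (q (i + 1))) (hqW : ∀ i ≤ M, q i ∈ H ∧ ∀ j < n, p j ≠ q i) :
    ∃ (S : Finset V) (nxt : V → V), S.card ≤ M + l ∧ p n ∈ S ∧ (∀ y ∈ S, y ∈ H ∧ nxt y ∈ S ∧ G.Adj y (nxt y) ∧
      nxt (nxt y) ≠ y) ∧ ∀ y ∈ S, ∀ z, cr p n y z ≤ cr p n y (nxt y) := by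
  classical
  have hl3 := hu.three
  let P : ℕ → Prop := fun m => ∃ r : ℕ → V, r 0 = p n ∧ (∃ j < l, u j = r m) ∧
    (∀ i < m, G.Adj (r i) (r (i + 1))) ∧ (∀ i ≤ m, r i ∈ H ∧ ∀ j < n, p j ≠ r i)
  have hP : ∃ m, P m := ⟨M, q, hq0, ⟨0, by omega, hqM.symm⟩, hq, hqW⟩
  let m := Nat.find hP
  have hmM : m ≤ M := Nat.find_min' hP ⟨q, hq0, ⟨0, by omega, hqM.symm⟩, hq, hqW⟩
  have hmin : ∀ m' < m, ¬ P m' := fun m' hm' => Nat.find_min hP hm'
  obtain ⟨r, hr0, ⟨jm, hjm, hrm⟩, hr, hrW⟩ : P m := Nat.find_spec hP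
  have hrC : ∀ i < m, ∀ j < l, u j ≠ r i := by
    intro i hi j hj h
    exact hmin i hi ⟨r, hr0, ⟨j, hj, h⟩, fun t ht => hr t (by omega), fun t ht => hrW t (by omega)⟩
  have hrinj : ∀ i j, i < j → j ≤ m → r i ≠ r j := by
    intro i j hij hjm' h
    refine hmin (m - (j - i)) (by omega) ⟨fun t => if t ≤ i then r t else r (t + (j - i)), ?_, ?_, ?_, ?_⟩
    · simp [hr0]
    · refine ⟨jm, hjm, ?_⟩
      by_cases hc : m - (j - i) ≤ i
      · have h1 : m - (j - i) = i := by omega
        have h2 : j = m := by omega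
        simp only [h1, le_refl, if_true]
        rw [h, h2]
        exact hrm
      · simp only [hc, if_false]
        rw [show m - (j - i) + (j - i) = m by omega]
        exact hrm
    · intro t ht
      by_cases h1 : t + 1 ≤ i
      · have h2 : t ≤ i := by omega
        simp only [h1, h2, if_true]
        exact hr t (by omega)
      · by_cases h2 : t ≤ i
        · have h3 : t = i := by omega
          subst h3
          have h4 : ¬ (t + 1 ≤ t) := by omega
          simp only [le_refl, if_true, h4, if_false]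
          rw [h, show t + 1 + (j - t) = j + 1 by omega]
          exact hr j (by omega)
        · simp only [h1, h2, if_false]
          rw [show t + 1 + (j - i) = t + (j - i) + 1 by omega]
          exact hr _ (by omega)
    · intro t ht
      by_cases h2 : t ≤ i
      · simp only [h2, if_true]
        exact hrW t (by omega)
      · simp only [h2, if_false]
        exact hrW _ (by omega)
  -- the successor function
  let nxt : V → V := fun y =>
    if h : ∃ j, j < l ∧ u j = y then u ((h.choose + 1) % l)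
    else if h : ∃ i, i < m ∧ r i = y then r (h.choose + 1) else y
  have hnu : ∀ j < l, nxt (u j) = u ((j + 1) % l) := by
    intro j hj
    have h : ∃ j', j' < l ∧ u j' = u j := ⟨j, hj, rfl⟩
    have h1 : h.choose = j := hu.inj _ h.choose_spec.1 _ hj h.choose_spec.2
    change (if h : ∃ j', j' < l ∧ u j' = u j then u ((h.choose + 1) % l)
      else if h : ∃ i, i < m ∧ r i = u j then r (h.choose + 1) else u j) = _
    rw [dif_pos h, h1]
  have hnr : ∀ i < m, nxt (r i) = r (i + 1) := by
    intro i hi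
    have h0 : ¬ ∃ j, j < l ∧ u j = r i := by
      rintro ⟨j, hj, h⟩
      exact hrC i hi j hj h
    have h : ∃ i', i' < m ∧ r i' = r i := ⟨i, hi, rfl⟩
    have h1 : h.choose = i := by
      by_contra hne
      rcases lt_or_gt_of_ne hne with h2 | h2
      · exact hrinj _ _ h2 (by omega) h.choose_spec.2
      · exact hrinj _ _ h2 (le_of_lt h.choose_spec.1) h.choose_spec.2.symm
    change (if h : ∃ j', j' < l ∧ u j' = r i then u ((h.choose + 1) % l)
      else if h : ∃ i', i' < m ∧ r i' = r i then r (h.choose + 1) else r i) = _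
    rw [dif_neg h0, dif_pos h, h1]
  let C : Finset V := (Finset.range l).image u
  let R : Finset V := (Finset.range m).image r
  have hC : ∀ y, y ∈ C ↔ ∃ j < l, u j = y := by
    intro y
    simp [C]
  have hR : ∀ y, y ∈ R ↔ ∃ i < m, r i = y := by
    intro y
    simp [R]
  have hmod : ∀ j < l, (j + 1) % l < l := fun j _ => Nat.mod_lt _ (by omega)
  have hrS : ∀ i ≤ m, r i ∈ R ∪ C := by
    intro i hi
    rw [Finset.mem_union]
    rcases Nat.lt_or_ge i m with h | h
    · exact Or.inl ((hR _).2 ⟨i, h, rfl⟩)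
    · have h1 : i = m := by omega
      rw [h1]
      exact Or.inr ((hC _).2 ⟨jm, hjm, hrm⟩)
  have hW : ∀ y ∈ R ∪ C, y ∈ H ∧ ∀ j < n, p j ≠ y := by
    intro y hy
    rw [Finset.mem_union] at hy
    rcases hy with hy | hy
    · obtain ⟨i, hi, rfl⟩ := (hR _).1 hy
      exact hrW i (by omega)
    · obtain ⟨j, hj, rfl⟩ := (hC _).1 hy
      exact huW j hj
  have hmain : ∀ y ∈ R ∪ C, y ∈ H ∧ nxt y ∈ R ∪ C ∧ G.Adj y (nxt y) ∧ nxt (nxt y) ≠ y := by
    intro y hy
    refine ⟨(hW y hy).1, ?_⟩
    rw [Finset.mem_union] at hy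
    rcases hy with hy | hy
    · obtain ⟨i, hi, rfl⟩ := (hR _).1 hy
      rw [hnr i hi]
      refine ⟨hrS (i + 1) (by omega), hr i hi, ?_⟩
      rcases Nat.lt_or_ge (i + 1) m with h | h
      · rw [hnr (i + 1) h]
        exact (hrinj i (i + 1 + 1) (by omega) (by omega)).symm
      · have h1 : i + 1 = m := by omega
        rw [h1, ← hrm, hnu jm hjm]
        exact hrC i hi _ (hmod jm hjm)
    · obtain ⟨j, hj, rfl⟩ := (hC _).1 hy
      rw [hnu j hj]
      refine ⟨Finset.mem_union.2 (Or.inr ((hC _).2 ⟨_, hmod j hj, rfl⟩)), ?_, ?_⟩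
      · rcases Nat.lt_or_ge (j + 1) l with h | h
        · rw [Nat.mod_eq_of_lt h]
          exact hu.adj j h
        · have h1 : j + 1 = l := by omega
          rw [h1, Nat.mod_self]
          have h2 : j = l - 1 := by omega
          rw [h2]
          exact hu.last
      · rw [hnu _ (hmod j hj)]
        intro h
        have h3 := hu.inj _ (hmod _ (hmod j hj)) _ hj h
        rcases Nat.lt_or_ge (j + 1) l with h4 | h4
        · rw [Nat.mod_eq_of_lt h4] at h3
          rcases Nat.lt_or_ge (j + 1 + 1) l with h5 | h5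
          · rw [Nat.mod_eq_of_lt h5] at h3
            omega
          · have h6 : j + 1 + 1 = l := by omega
            rw [h6, Nat.mod_self] at h3
            omega
        · have h5 : j + 1 = l := by omega
          rw [h5, Nat.mod_self, Nat.mod_eq_of_lt (by omega : 0 + 1 < l)] at h3
          omega
  refine ⟨R ∪ C, nxt, ?_, ?_, hmain, ?_⟩
  · calc (R ∪ C).card ≤ R.card + C.card := Finset.card_union_le _ _
      _ ≤ m + l := by
        refine Nat.add_le_add ?_ ?_
        · exact Finset.card_image_le.trans (by rw [Finset.card_range])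
        · exact Finset.card_image_le.trans (by rw [Finset.card_range])
      _ ≤ M + l := by omega
  · rw [← hr0]
    exact hrS 0 (Nat.zero_le _)
  · intro y hy z
    obtain ⟨-, hnS, hadj, -⟩ := hmain y hy
    by_cases hyn : y = p n
    · have h1 : cr p n y z ≤ 0 := cr_first (hW y hy).2 z
      have h2 : ∀ i ≤ n, p i ≠ nxt y := by
        intro i hi h
        rcases Nat.lt_or_ge i n with h3 | h3
        · exact (hW _ hnS).2 i h3 h
        · have h4 : i = n := by omega
          rw [h4, ← hyn] at h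
          exact hadj.ne h
      rw [(cr_unvisited h2 y).2]
      exact h1
    · have h2 : ∀ i ≤ n, p i ≠ y := by
        intro i hi h
        rcases Nat.lt_or_ge i n with h3 | h3
        · exact (hW _ hy).2 i h3 h
        · have h4 : i = n := by omega
          rw [h4] at h
          exact hyn h.symm
      rw [(cr_unvisited h2 z).1, (cr_unvisited h2 (nxt y)).1]

end Pool.Agent.Lib.MP_c171f5_pr.AM
end
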