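import Pool.Agent.Lib.MP_c171f5_pr.AM.Defs
import Pool.Agent.Lib.MP_c171f5_pr.Mg.G001

section

/-!
# TASK B5: a path which follows `nxt` in a finite set is trapped

PROOF. `x (n + i) = nxt^[i] (x n) ∈ S`, `S` finite: there are `i < j` with `x (n + i) = x (n + j)`; take such a pair with the least
difference `l = j - i > 0` (over all pairs; `Nat.find`). Then `x (n + i + k)` has period `l` in `k`, and `x (n + i), …, x (n + i + l - 1)` are
distinct (otherwise there is a pair with a smaller difference). `l ≠ 1` since `x (n + i)`, `x (n + i + 1)` are adjacent, and `l ≠ 2` by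
`h2` for `y = x (n + i)` (`nxt y = x (n + i + 1) ∈ S`). `m := n + i`, `u k := x (m + k)`; `x (m + k) = u (k % l)` by periodicity.
`dl_anti`: monotonicity of `dl` in the first two arguments.
-/

set_option autoImplicit false

namespace Pool.Agent.Lib.MP_c171f5_pr.AM

open MeasureTheory Filter Set

variable {V : Type*} {G : SimpleGraph V}

theorem trap_of_nxt {S : Finset V} {nxt : V → V} (h2 : ∀ y ∈ S, nxt y ∈ S → nxt (nxt y) ≠ y)
    {x : ℕ → V} {n : ℕ}
    (hadj : ∀ k, G.Adj (x k) (x (k + 1))) (hS : ∀ k ≥ n, x k ∈ S) (hx : ∀ k ≥ n, x (k + 1) = nxt (x k)) :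
    Trap G x := by
  classical
  -- some period exists
  have hex : ∃ l, 0 < l ∧ ∃ m, n ≤ m ∧ x m = x (m + l) := by
    have hmaps : ∀ i ∈ Finset.range (S.card + 1), x (n + i) ∈ S := fun i _ => hS _ (by omega)
    obtain ⟨i, _, j, _, hij, he⟩ := Finset.exists_ne_map_eq_of_card_lt_of_maps_to
      (s := Finset.range (S.card + 1)) (t := S) (by simp) (f := fun i => x (n + i)) hmaps
    rcases lt_or_gt_of_ne hij with h | h
    · exact ⟨j - i, by omega, n + i, by omega, by
        have : n + i + (j - i) = n + j := by omega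
        rw [this]; exact he⟩
    · exact ⟨i - j, by omega, n + j, by omega, by
        have : n + j + (i - j) = n + i := by omega
        rw [this]; exact he.symm⟩
  set l := Nat.find hex with hl
  obtain ⟨hl0, m, hnm, hm⟩ := Nat.find_spec hex
  rw [← hl] at hl0 hm
  have hmin : ∀ l', 0 < l' → l' < l → ∀ m', n ≤ m' → x m' ≠ x (m' + l') := by
    intro l' h0 hlt m' hm' he
    exact Nat.find_min hex hlt ⟨h0, m', hm', he⟩
  -- periodicity
  have hper : ∀ k, x (m + k) = x (m + k + l) := by
    intro k
    induction k with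
    | zero => simpa using hm
    | succ k ih =>
      have h1 : x (m + (k + 1)) = nxt (x (m + k)) := hx (m + k) (by omega)
      have h2 : x (m + (k + 1) + l) = nxt (x (m + k + l)) := by
        have := hx (m + k + l) (by omega)
        have e : m + (k + 1) + l = m + k + l + 1 := by omega
        rw [e]; exact this
      rw [h1, h2, ih]
  have hmod : ∀ k, x (m + k) = x (m + k % l) := by
    intro k
    induction k using Nat.strong_induction_on with
    | _ k ih =>
      by_cases hk : k < l
      · rw [Nat.mod_eq_of_lt hk]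
      · push Not at hk
        have h1 := ih (k - l) (by omega)
        have h2 := hper (k - l)
        have e1 : m + (k - l) + l = m + k := by omega
        rw [e1] at h2
        have e2 : (k - l) % l = k % l := by
          rw [← Nat.mod_eq_sub_mod hk]
        rw [← h2, h1, e2]
  have hl1 : l ≠ 1 := by
    intro h1
    have := hadj m
    rw [h1] at hm
    rw [← hm] at this
    exact this.ne rfl
  have hl2 : l ≠ 2 := by
    intro h
    rw [h] at hm
    have e1 : x (m + 1) = nxt (x m) := hx m hnm
    have e2 : x (m + 1 + 1) = nxt (x (m + 1)) := hx (m + 1) (by omega)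
    refine h2 (x m) (hS m hnm) (by rw [← e1]; exact hS _ (by omega)) ?_
    rw [← e1, ← e2]
    have : m + 1 + 1 = m + 2 := by omega
    rw [this]; exact hm.symm
  refine ⟨l, fun k => x (m + k), m, ⟨by omega, ?_, ?_, ?_⟩, ?_⟩
  · intro i hi j hj hij
    by_contra hne
    change x (m + i) = x (m + j) at hij
    rcases lt_or_gt_of_ne hne with h | h
    · refine hmin (j - i) (by omega) (by omega) (m + i) (by omega) ?_
      have : m + i + (j - i) = m + j := by omega
      rw [this]; exact hij
    · refine hmin (i - j) (by omega) (by omega) (m + j) (by omega) ?_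
      have : m + j + (i - j) = m + i := by omega
      rw [this]; exact hij.symm
  · intro i _
    exact hadj (m + i)
  · have h := hadj (m + (l - 1))
    have e : m + (l - 1) + 1 = m + l := by omega
    rw [e] at h
    have e0 : x (m + l) = x (m + 0) := by simpa using hm.symm
    rw [e0] at h
    exact h
  · intro i
    exact hmod i

theorem dl_anti {β : ℝ} (hβ : 0 < β) {s s' D D' : ℕ} (hs : s ≤ s') (hD : D ≤ D') (K : ℕ) :
    dl β s' D' K ≤ dl β s D K := by
  unfold dl
  have h1 : 0 < 1 - Real.exp (-β) := by
    have : Real.exp (-β) < Real.exp 0 := Real.exp_lt_exp.2 (by linarith)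
    rw [Real.exp_zero] at this
    linarith
  have hs' : (s : ℝ) ≤ s' := by exact_mod_cast hs
  have hD' : (D : ℝ) ≤ D' := by exact_mod_cast hD
  apply Real.exp_le_exp.2
  apply neg_le_neg
  have h2 : (D : ℝ) * Real.exp (β * K) / (1 - Real.exp (-β)) ≤
      D' * Real.exp (β * K) / (1 - Real.exp (-β)) := by gcongr
  have h3 : 0 ≤ (D : ℝ) * Real.exp (β * K) / (1 - Real.exp (-β)) := by positivity
  exact mul_le_mul hs' h2 h3 (by positivity)

end Pool.Agent.Lib.MP_c171f5_pr.AM
end

section

/-!
# The walk exists (Ionescu-Tulcea)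
-/

set_option autoImplicit false

namespace Pool.Agent.Lib.MP_c171f5_pr.AM

open MeasureTheory Filter Set

variable {V : Type*} [Countable V] [MeasurableSpace V] [DiscreteMeasurableSpace V]
  {G : SimpleGraph V} [G.LocallyFinite]

open Classical in
/-- the path which continues `a` by `v` -/
private def E1_ext (v : V) (n : ℕ) (a : (i : Finset.Iic n) → V) : ℕ → V := fun i =>
  if h : i ∈ Finset.Iic n then a ⟨i, h⟩ else v

/-- the restriction of a path -/
private def E1_r (p : ℕ → V) (n : ℕ) : (i : Finset.Iic n) → V := fun j => p j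

omit [Countable V] [MeasurableSpace V] [DiscreteMeasurableSpace V] in
private theorem E1_ext_eq (v : V) (n : ℕ) (p : ℕ → V) (i : ℕ) (hi : i ≤ n) :
    E1_ext v n (E1_r p n) i = p i := by
  unfold E1_ext
  rw [dif_pos (Finset.mem_Iic.2 hi)]
  rfl

/-- the kernel -/
private noncomputable def E1_f (G : SimpleGraph V) [G.LocallyFinite] (β : ℝ) (v : V) (n : ℕ)
    (a : (i : Finset.Iic n) → V) : Measure V :=
  ∑ z ∈ G.neighborFinset (E1_ext v n a n),
    ENNReal.ofReal (pr G β (E1_ext v n a) n z) • Measure.dirac z

private theorem E1_f_singleton (β : ℝ) (v : V) (n : ℕ) (a : (i : Finset.Iic n) → V) (y : V) :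
    E1_f G β v n a {y} = ENNReal.ofReal (pr G β (E1_ext v n a) n y) := by
  classical
  unfold E1_f
  simp only [Measure.coe_finsetSum, Finset.sum_apply, Measure.smul_apply, smul_eq_mul,
    Measure.dirac_apply' _ (MeasurableSet.singleton y)]
  by_cases hy : G.Adj (E1_ext v n a n) y
  · rw [Finset.sum_eq_single y]
    · simp
    · intro z _ hz
      simp [hz]
    · intro h
      exact absurd ((G.mem_neighborFinset _ _).2 hy) h
  · have h0 : pr G β (E1_ext v n a) n y = 0 := by
      unfold pr
      rw [if_neg hy]
    rw [h0, ENNReal.ofReal_zero]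
    apply Finset.sum_eq_zero
    intro z hz
    have hzy : z ≠ y := by
      rintro rfl
      exact hy ((G.mem_neighborFinset _ _).1 hz)
    simp [hzy]

omit [Countable V] [DiscreteMeasurableSpace V] in
private theorem E1_f_univ (hnbr : ∀ x : V, ∃ y, G.Adj x y) (β : ℝ) (v : V) (n : ℕ)
    (a : (i : Finset.Iic n) → V) : E1_f G β v n a univ = 1 := by
  unfold E1_f
  simp only [Measure.coe_finsetSum, Finset.sum_apply, Measure.smul_apply, smul_eq_mul,
    measure_univ, mul_one]
  obtain ⟨w, hw⟩ := hnbr (E1_ext v n a n)
  rw [← ENNReal.ofReal_sum_of_nonneg (fun z _ => pr_nonneg _ _ _), pr_sum _ _ hw, ENNReal.ofReal_one]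

private noncomputable def E1_k (G : SimpleGraph V) [G.LocallyFinite] (β : ℝ) (v : V) (n : ℕ) :
    ProbabilityTheory.Kernel ((i : Finset.Iic n) → V) V :=
  ⟨E1_f G β v n, measurable_of_countable _⟩

theorem exists_law (β : ℝ) (v : V) (hnbr : ∀ x : V, ∃ y, G.Adj x y) :
    ∃ ν : Measure (ℕ → V), IsLaw G β v ν := by
  classical
  have hM : ∀ n, ProbabilityTheory.IsMarkovKernel (E1_k G β v n) :=
    fun n => ⟨fun a => ⟨E1_f_univ hnbr β v n a⟩⟩
  set x₀ : (i : Finset.Iic 0) → V := fun _ => v with hx₀
  set ν : Measure (ℕ → V) := ProbabilityTheory.Kernel.traj (X := fun _ => V) (E1_k G β v) 0 x₀ with hν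
  have hmap : ∀ n, ν.map (Preorder.frestrictLe n) =
      ProbabilityTheory.Kernel.partialTraj (X := fun _ => V) (E1_k G β v) 0 n x₀ := fun n =>
    ProbabilityTheory.Kernel.traj_map_frestrictLe_apply (X := fun _ => V) (κ := E1_k G β v) 0 n x₀
  have hcyl : ∀ (p : ℕ → V) (n : ℕ), cyl p n =
      Preorder.frestrictLe (π := fun _ => V) n ⁻¹' {E1_r p n} := by
    intro p n
    ext x
    simp only [cyl, mem_ofPred_eq, mem_preimage, mem_singleton_iff]
    constructor
    · intro h
      funext j
      exact h j (Finset.mem_Iic.1 j.2)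
    · intro h i hi
      exact congrFun h ⟨i, Finset.mem_Iic.2 hi⟩
  refine ⟨ν, ⟨inferInstance, ?_, ?_⟩⟩
  · have h1 : ν {x | x 0 = v} = 1 := by
      have h2 : {x : ℕ → V | x 0 = v} = Preorder.frestrictLe (π := fun _ => V) 0 ⁻¹' {x₀} := by
        have h3 := hcyl (fun _ => v) 0
        have h4 : E1_r (fun _ => v) 0 = x₀ := rfl
        rw [h4] at h3
        rw [← h3]
        ext x
        simp [cyl]
      rw [h2, ← Measure.map_apply (by fun_prop) (MeasurableSet.singleton _), hmap 0,
        ProbabilityTheory.Kernel.partialTraj_self, ProbabilityTheory.Kernel.id_apply]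
      simp
    exact (prob_compl_eq_zero_iff (measurableSet_of_dep 0 (by
      intro x y h
      rw [h 0 le_rfl]))).2 h1
  · intro p n
    have h1 : cyl p (n + 1) = (fun x : ℕ → V => (Preorder.frestrictLe (π := fun _ => V) n x, x (n + 1))) ⁻¹'
        ({E1_r p n} ×ˢ {p (n + 1)}) := by
      ext x
      simp only [mem_preimage, mem_prod, mem_singleton_iff]
      constructor
      · intro h
        refine ⟨?_, h (n + 1) le_rfl⟩
        funext j
        exact h j ((Finset.mem_Iic.1 j.2).trans (Nat.le_succ n))
      · rintro ⟨h, h'⟩ i hi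
        rcases Nat.lt_or_ge n i with h2 | h2
        · have : i = n + 1 := le_antisymm hi h2
          rw [this]
          exact h'
        · exact congrFun h ⟨i, Finset.mem_Iic.2 h2⟩
    rw [h1, ← Measure.map_apply (by fun_prop) ((MeasurableSet.singleton _).prod (MeasurableSet.singleton _)),
      hν, ← ProbabilityTheory.Kernel.partialTraj_compProd_eq_map_traj (Nat.zero_le n),
      Measure.compProd_apply_prod (MeasurableSet.singleton _) (MeasurableSet.singleton _),
      Measure.restrict_singleton, lintegral_smul_measure, lintegral_dirac, ← hmap n,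
      Measure.map_apply (by fun_prop) (MeasurableSet.singleton _), ← hcyl p n]
    have h3 : (E1_k G β v n) (E1_r p n) {p (n + 1)} = ENNReal.ofReal (pr G β p n (p (n + 1))) := by
      have : (E1_k G β v n) (E1_r p n) {p (n + 1)} = E1_f G β v n (E1_r p n) {p (n + 1)} := rfl
      rw [this, E1_f_singleton, pr_congr (fun i hi => E1_ext_eq v n p i hi)]
    rw [h3]
    rfl

end Pool.Agent.Lib.MP_c171f5_pr.AM
end

section

/-!
# TASK T1: crossing numbers in a tree

`tree_cr`: `bridge` for `H = univ`, `π = id` (`piece_univ`) and `T := {a | (G.deleteEdges {s(x, z)}).Reachable z a}`; `x ∉ T` by `circuit_of_reach` (`sub G univ = G`).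
`tree_cr_le`: `bridge` as well: the value is a difference of two numbers in `{0, 1}`.
`toward`: in a tree, for `x ≠ v` there is exactly one neighbour `z` of `x` with `v` in `T x z`: existence: the second vertex `z` of a path from
`x` to `v` (the rest of the path avoids `x`, so it does not use the edge `xz`). Uniqueness: if `z ≠ z'` are two such, then there are walks
from `z` to `v` without the edge `xz` and from `z'` to `v` without `xz'`. The path from `z` to `v` in `G` minus `xz` does not meet `x` (otherwise its
part from `z` to `x` gives a circuit by `circuit_of_reach`), the same for `z'`; so `z` and `z'` are connected in `G` by a walk which avoids `x`, so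
there is a walk from `z` to `x` without the edge `xz` (via `z'`), contradicting `circuit_of_reach`.
-/

set_option autoImplicit false

namespace Pool.Agent.Lib.MP_c171f5_pr.AM

open MeasureTheory Filter Set

variable {V : Type*} {G : SimpleGraph V}

/-- the vertices on the side of `z` of the edge `x z` -/
def side (G : SimpleGraph V) (x z : V) : Set V := {a | (G.deleteEdges {s(x, z)}).Reachable z a}

theorem mem_side_self (x z : V) : z ∈ side G x z := SimpleGraph.Reachable.refl _

theorem not_mem_side (hG : ∀ l u, ¬ IsCircuit G l u) {x z : V} (h : G.Adj x z) : x ∉ side G x z := by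
  intro hx
  have hsub : sub G univ = G := by
    ext a b
    simp [sub]
  have h2 : ((sub G univ).deleteEdges {s(x, z)}).Reachable z x := by
    rw [hsub]
    exact hx
  obtain ⟨l, u, hu, _⟩ := circuit_of_reach h (mem_univ _) (mem_univ _) h2
  exact hG l u hu

/-- only the edge `x z` joins the two sides -/
theorem side_iff {x z a b : V} (h : G.Adj a b) (h1 : ¬ (a = x ∧ b = z)) (h2 : ¬ (a = z ∧ b = x)) :
    a ∈ side G x z ↔ b ∈ side G x z := by
  have hab : (G.deleteEdges {s(x, z)}).Adj a b := by
    rw [SimpleGraph.deleteEdges_adj]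
    refine ⟨h, ?_⟩
    rw [Set.mem_singleton_iff, Sym2.eq_iff]
    rintro (h3 | h3)
    · exact h1 h3
    · exact h2 h3
  exact ⟨fun ha => SimpleGraph.Reachable.trans ha hab.reachable,
    fun hb => SimpleGraph.Reachable.trans hb hab.symm.reachable⟩

open Classical in
theorem tree_cr (hG : ∀ l u, ¬ IsCircuit G l u) {p : ℕ → V} {n : ℕ} (hp : IsPath G p n) {x z : V}
    (h : G.Adj x z) : cr p n x z = (if p n ∈ side G x z then 1 else 0) - (if p 0 ∈ side G x z then 1 else 0) := by
  have h1 := bridge (G := G) (H := univ) (π := id) piece_univ hp (mem_univ x) (mem_univ z)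
    (T := side G x z) (not_mem_side hG h) (mem_side_self x z)
    (fun a b hab _ _ h1 h2 => side_iff hab h1 h2)
  simpa using h1

theorem tree_cr_le (hG : ∀ l u, ¬ IsCircuit G l u) {p : ℕ → V} {n : ℕ} (hp : IsPath G p n) {x z : V}
    (h : G.Adj x z) : -1 ≤ cr p n x z ∧ cr p n x z ≤ 1 := by
  classical
  rw [tree_cr hG hp h]
  constructor <;> split_ifs <;> norm_num

theorem toward (hG : ∀ l u, ¬ IsCircuit G l u) (hc : G.Connected) {x v : V} (hx : x ≠ v) :
    ∃! z, G.Adj x z ∧ v ∈ side G x z := by
  classical
  obtain ⟨p, hp⟩ := (hc.preconnected x v).exists_isPath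
  cases p with
  | nil => exact absurd rfl hx
  | cons h q =>
    rename_i z
    rw [SimpleGraph.Walk.cons_isPath_iff] at hp
    have hz : v ∈ side G x z := by
      have h1 : ∀ e, e ∈ q.edges → e ∉ ({s(x, z)} : Set (Sym2 V)) := by
        intro e he h2
        rw [Set.mem_singleton_iff] at h2
        rw [h2] at he
        exact hp.2 (q.fst_mem_support_of_mem_edges he)
      exact (q.toDeleteEdges {s(x, z)} h1).reachable
    refine ⟨z, ⟨h, hz⟩, ?_⟩
    rintro w ⟨hw, hvw⟩
    by_contra hne
    obtain ⟨p2, -⟩ := SimpleGraph.Reachable.exists_isPath hvw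
    have hxp : x ∉ p2.support := by
      intro h3
      exact not_mem_side hG hw (p2.takeUntil x h3).reachable
    have h4 : ∀ e ∈ p2.edges, e ∈ (G.deleteEdges {s(x, z)}).edgeSet := by
      intro e he
      have h5 := p2.edges_subset_edgeSet he
      rw [SimpleGraph.edgeSet_deleteEdges] at h5 ⊢
      refine ⟨h5.1, ?_⟩
      intro h6
      rw [Set.mem_singleton_iff] at h6
      rw [h6] at he
      exact hxp (p2.fst_mem_support_of_mem_edges he)
    have h7 : (G.deleteEdges {s(x, z)}).Reachable w v := (p2.transfer _ h4).reachable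
    have h8 : (G.deleteEdges {s(x, z)}).Adj w x := by
      rw [SimpleGraph.deleteEdges_adj]
      refine ⟨hw.symm, ?_⟩
      rw [Set.mem_singleton_iff, Sym2.eq_iff]
      rintro (h9 | h9)
      · exact hw.ne h9.1.symm
      · exact hne h9.1
    exact not_mem_side hG h (SimpleGraph.Reachable.trans hz
      (SimpleGraph.Reachable.trans h7.symm h8.reachable))

end Pool.Agent.Lib.MP_c171f5_pr.AM
end
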