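import Pool.Agent.Lib.MP_c171f5_pr.Mg.G001
import Pool.Agent.Lib.MP_c171f5_pr.Mg.G003

section

/-!
# TASK A4: one step of the hazard lemma

`p` is a path with `y = p n`; `nxt y` is a neighbour of `y`; the edges `(y, z)`, `z ∼ y`, `z ≠ nxt y` with `R z` satisfy `cr p n y z ≤ cr p n y (nxt y) + t` (`t` an
integer, maybe negative). Then `(∑ pr over these z) ≤ D e^(β t) · pr (nxt y)` (each term is at most `e^(β t) pr (nxt y)`, at most
`D` terms). So for `ρ := D e^(β t)`, with `f = pr (nxt y)` and `d` the sum over these `z`: the sum over all neighbours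
`z` of `pr z · w z`, where `w (nxt y) ≥ e^ρ w₀`, `w z ≥ 0` for the deviations and `w z ≥ w₀` for the others, is at least
`w₀ (f e^ρ + 1 - f - d) ≥ w₀ (1 + f ρ - d) ≥ w₀`.
-/

set_option autoImplicit false

namespace Pool.Agent.Lib.MP_c171f5_pr.AM

open MeasureTheory Filter Set
open scoped ENNReal

variable {V : Type*} {G : SimpleGraph V} [G.LocallyFinite] {β : ℝ}

theorem hazard_step (hβ : 0 < β) (p : ℕ → V) (n : ℕ) (y' : V) (hy' : G.Adj (p n) y') (R : V → Prop)
    (D : ℕ) (hD : G.degree (p n) ≤ D) (t : ℤ)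
    (hR : ∀ z, G.Adj (p n) z → z ≠ y' → R z → cr p n (p n) z ≤ cr p n (p n) y' + t)
    (w : V → ℝ) (w₀ : ℝ) (hw₀ : 0 ≤ w₀) (hw : ∀ z, 0 ≤ w z)
    (hw1 : Real.exp (D * Real.exp (β * t)) * w₀ ≤ w y')
    (hw2 : ∀ z, G.Adj (p n) z → z ≠ y' → ¬ R z → w₀ ≤ w z) :
    w₀ ≤ ∑ z ∈ G.neighborFinset (p n), pr G β p n z * w z := by
  classical
  obtain ⟨f, hf⟩ : ∃ f, f = pr G β p n y' := ⟨_, rfl⟩
  have hf0 : 0 ≤ f := hf ▸ pr_nonneg p n y'
  obtain ⟨e, he⟩ : ∃ e, e = Real.exp (β * t) := ⟨_, rfl⟩
  have he0 : 0 < e := he ▸ Real.exp_pos _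
  have hy : y' ∈ G.neighborFinset (p n) := (G.mem_neighborFinset _ _).2 hy'
  have hS : 0 < ∑ z ∈ G.neighborFinset (p n), Real.exp (β * cr p n (p n) z) :=
    Finset.sum_pos (fun _ _ => Real.exp_pos _) ⟨y', hy⟩
  -- the deviations
  have hdev : ∀ z, G.Adj (p n) z → z ≠ y' → R z → pr G β p n z ≤ e * f := by
    intro z hz hzy hRz
    have h1 : pr G β p n z = Real.exp (β * cr p n (p n) z) /
        ∑ z ∈ G.neighborFinset (p n), Real.exp (β * cr p n (p n) z) := by
      unfold pr
      rw [if_pos hz]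
    have h2 : f = Real.exp (β * cr p n (p n) y') /
        ∑ z ∈ G.neighborFinset (p n), Real.exp (β * cr p n (p n) z) := by
      rw [hf]
      unfold pr
      rw [if_pos hy']
    rw [h1, h2, ← mul_div_assoc]
    apply div_le_div_of_nonneg_right _ hS.le
    rw [he, ← Real.exp_add]
    apply Real.exp_le_exp.2
    have h3 : (cr p n (p n) z : ℝ) ≤ cr p n (p n) y' + t := by exact_mod_cast hR z hz hzy hRz
    nlinarith
  have hterm : ∀ z ∈ (G.neighborFinset (p n)).erase y',
      w₀ * (pr G β p n z - e * f) ≤ pr G β p n z * w z := by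
    intro z hz
    obtain ⟨hzy, hzN⟩ := Finset.mem_erase.1 hz
    have hza : G.Adj (p n) z := (G.mem_neighborFinset _ _).1 hzN
    have hp0 := pr_nonneg (G := G) (β := β) p n z
    by_cases hRz : R z
    · have h1 := hdev z hza hzy hRz
      have h2 : 0 ≤ pr G β p n z * w z := mul_nonneg hp0 (hw z)
      have h3 : w₀ * (pr G β p n z - e * f) ≤ 0 :=
        mul_nonpos_of_nonneg_of_nonpos hw₀ (by linarith)
      linarith
    · have h1 := hw2 z hza hzy hRz
      have h2 : w₀ * (e * f) ≥ 0 := mul_nonneg hw₀ (mul_nonneg he0.le hf0)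
      have h3 : pr G β p n z * w₀ ≤ pr G β p n z * w z := mul_le_mul_of_nonneg_left h1 hp0
      nlinarith
  have hsum1 := pr_sum (G := G) (β := β) p n hy'
  rw [← Finset.add_sum_erase _ _ hy] at hsum1 ⊢
  have hsum2 : ∑ z ∈ (G.neighborFinset (p n)).erase y', w₀ * (pr G β p n z - e * f) ≤
      ∑ z ∈ (G.neighborFinset (p n)).erase y', pr G β p n z * w z := Finset.sum_le_sum hterm
  rw [← Finset.mul_sum, Finset.sum_sub_distrib, Finset.sum_const, nsmul_eq_mul] at hsum2
  have hcard : (((G.neighborFinset (p n)).erase y').card : ℝ) ≤ D := by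
    have h1 : ((G.neighborFinset (p n)).erase y').card ≤ (G.neighborFinset (p n)).card :=
      Finset.card_le_card (Finset.erase_subset _ _)
    have h2 : (G.neighborFinset (p n)).card = G.degree (p n) := rfl
    exact_mod_cast h1.trans (h2 ▸ hD)
  have hmain : f * (1 + D * e) * w₀ ≤ f * w y' := by
    have h1 : 1 + (D : ℝ) * e ≤ Real.exp (D * e) := by
      have := Real.add_one_le_exp ((D : ℝ) * e)
      linarith
    have h2 : (1 + (D : ℝ) * e) * w₀ ≤ w y' := by
      have h3 : Real.exp (D * e) * w₀ ≤ w y' := by rw [he]; exact hw1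
      exact (mul_le_mul_of_nonneg_right h1 hw₀).trans h3
    calc f * (1 + D * e) * w₀ = f * ((1 + D * e) * w₀) := by ring
      _ ≤ f * w y' := mul_le_mul_of_nonneg_left h2 hf0
  rw [← hf] at hsum1 ⊢
  have hef : 0 ≤ w₀ * (e * f) := mul_nonneg hw₀ (mul_nonneg he0.le hf0)
  have hcf : w₀ * ((((G.neighborFinset (p n)).erase y').card : ℝ) * (e * f)) ≤
      w₀ * (D * (e * f)) :=
    mul_le_mul_of_nonneg_left (mul_le_mul_of_nonneg_right hcard (mul_nonneg he0.le hf0)) hw₀
  have hs : ∑ z ∈ (G.neighborFinset (p n)).erase y', pr G β p n z = 1 - f := by linarith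
  rw [hs] at hsum2
  have h9 : w₀ * (1 - f - D * (e * f)) ≤
      w₀ * (1 - f - (((G.neighborFinset (p n)).erase y').card : ℝ) * (e * f)) := by
    have e1 : w₀ * (1 - f - D * (e * f)) = w₀ * (1 - f) - w₀ * (D * (e * f)) := by ring
    have e2 : w₀ * (1 - f - (((G.neighborFinset (p n)).erase y').card : ℝ) * (e * f)) =
      w₀ * (1 - f) - w₀ * ((((G.neighborFinset (p n)).erase y').card : ℝ) * (e * f)) := by ring
    rw [e1, e2]
    linarith
  have h10 : w₀ = f * (1 + D * e) * w₀ + w₀ * (1 - f - D * (e * f)) := by ring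
  calc w₀ = f * (1 + D * e) * w₀ + w₀ * (1 - f - D * (e * f)) := h10
    _ ≤ _ := add_le_add hmain (h9.trans hsum2)

end Pool.Agent.Lib.MP_c171f5_pr.AM
end

section

/-!
# TASK A5: the hazard lemma

PROOF. Put `c := D e^(β K) / (1 - e^(-β))`. For a path `q` with `q i = p i` for `i ≤ n` and `k ≥ n` call `(q, k)` alive if `q j ∉ E` for `n ≤ j ≤ k`
and `¬ Dev S nxt rel (q j) (q (j + 1))` for `n ≤ j < k`. For `y ∈ S` let `r_y` be the number of `j`, `n ≤ j < k`, with `q j = y`,
`q (j + 1) = nxt y`, and `W q k := ∏_{y ∈ S} exp (-(c e^(-β r_y)))`.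
(a) If `(q, k)` is alive then for `y ∈ S`: `cr q k y (nxt y) = cr p n y (nxt y) + r_y`, and `cr q k y z ≤ cr p n y z` if `G.Adj y z`, `rel y z`,
`z ≠ nxt y`. Induction on `k` (`cr_succ`): a step `nxt y → y` does not occur: `nxt y ∈ E` is impossible (alive), and if `nxt y ∈ S` it
is a deviation by `hrev`; a step `y → z` with `rel y z`, `z ≠ nxt y` is a deviation.
(b) Let `ND t := {x | ∀ j, n ≤ j → j < t → (∀ i, n ≤ i → i ≤ j → x i ∉ E) → ¬ Dev S nxt rel (x j) (x (j + 1))}` (measurable by
`measurableSet_of_dep`). Claim: `ofReal (W q k) * ν (cyl q k) ≤ ν (cyl q k ∩ ND (k + m))` for alive `(q, k)`; induction on `m`.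
`m = 0`: `cyl q k ⊆ ND k`, `W ≤ 1`. Step: `cyl_inter_eq_sum`, with `q^z = update q (k + 1) z` and `cyl_update`. If `ν (cyl q k) = 0` trivial; so
`q k` has a neighbour (for instance by `law_path`, or because otherwise all terms of the sum with `E = univ` are missing). The term
of `z` is `≥ ν (cyl q k) * ofReal (pr z * w z)` where `w z = 0` if `(q k, z)` is a deviation; `w z = 1` if it is none and `z ∈ E` (then
`cyl q^z (k+1) ⊆ ND t` for all `t`); and otherwise `(q^z, k + 1)` is alive and `w z = W q^z (k + 1)` (induction hypothesis). This `W` is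
`W q k`, except if `q k = y ∈ S`, `z = nxt y`: then it is `exp (c e^(-β r) (1 - e^(-β))) W q k = exp (D e^(β (K - r))) W q k`,
`r = r_y`. If `q k ∉ S`: use `pr_sum`. If `q k = y ∈ S`: `hazard_step` with `y' = nxt y`, `R z = rel y z`, `t = K - r`, `w₀ = W q k` ((a) gives `hR`; if
`nxt y ∈ E` then `w (nxt y) = 1 ≥ exp (D e^(β (K - r))) W q k` since `c e^(-β r) ≥ D e^(β (K - r))`).
(c) `W p n = dl β S.card D K` (all `r_y = 0`), if `(p, n)` is alive, i.e. `p n ∉ E` (otherwise `NoDev` contains `cyl p n`). `NoDev` is the decreasing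
intersection of the `ND (n + m)`: continuity from above (`tendsto_measure_iInter_atTop` or similar).
-/

set_option autoImplicit false

namespace Pool.Agent.Lib.MP_c171f5_pr.AM

open MeasureTheory Filter Set
open scoped ENNReal

open Classical in
/-- the number of the steps `y → nxt y` of `q` between the times `n` and `k` -/
private noncomputable def A5_r {V : Type*} (nxt : V → V) (n : ℕ) (q : ℕ → V) (k : ℕ) (y : V) : ℕ :=
  ((Finset.Ico n k).filter fun j => q j = y ∧ q (j + 1) = nxt y).card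

/-- the weight -/
private noncomputable def A5_W {V : Type*} (β : ℝ) (S : Finset V) (nxt : V → V) (K D n : ℕ) (q : ℕ → V)
    (k : ℕ) : ℝ :=
  ∏ y ∈ S, Real.exp (-(D * Real.exp (β * K) / (1 - Real.exp (-β)) * Real.exp (-β * A5_r nxt n q k y)))

/-- alive -/
private structure A5_Alive {V : Type*} (S : Finset V) (nxt : V → V) (rel : V → V → Prop) (E : Set V)
    (p : ℕ → V) (n : ℕ) (q : ℕ → V) (k : ℕ) : Prop where
  le : n ≤ k
  eq : ∀ i ≤ n, q i = p i
  notE : ∀ j, n ≤ j → j ≤ k → q j ∉ E
  noDev : ∀ j, n ≤ j → j < k → ¬ Dev S nxt rel (q j) (q (j + 1))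

/-- no deviation before time `t` -/
private def A5_ND {V : Type*} (S : Finset V) (nxt : V → V) (rel : V → V → Prop) (E : Set V) (n t : ℕ) :
    Set (ℕ → V) :=
  {x | ∀ j, n ≤ j → j < t → (∀ i, n ≤ i → i ≤ j → x i ∉ E) → ¬ Dev S nxt rel (x j) (x (j + 1))}

open Classical in
private theorem A5_r_succ {V : Type*} (nxt : V → V) {n k : ℕ} (h : n ≤ k) (q : ℕ → V) (y : V) :
    A5_r nxt n q (k + 1) y = A5_r nxt n q k y + if q k = y ∧ q (k + 1) = nxt y then 1 else 0 := by
  unfold A5_r
  rw [Finset.card_filter, Finset.card_filter, Finset.sum_Ico_succ_top h]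

private theorem A5_r_congr {V : Type*} (nxt : V → V) {n k : ℕ} {q q' : ℕ → V}
    (h : ∀ i ≤ k, q i = q' i) (y : V) : A5_r nxt n q k y = A5_r nxt n q' k y := by
  unfold A5_r
  congr 1
  ext j
  simp only [Finset.mem_filter, Finset.mem_Ico]
  constructor
  · rintro ⟨hj, h1, h2⟩
    refine ⟨hj, ?_, ?_⟩
    · rw [← h j (by omega)]
      exact h1
    · rw [← h (j + 1) (by omega)]
      exact h2
  · rintro ⟨hj, h1, h2⟩
    refine ⟨hj, ?_, ?_⟩
    · rw [h j (by omega)]
      exact h1
    · rw [h (j + 1) (by omega)]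
      exact h2

open Classical in
private theorem A5_r_update {V : Type*} (nxt : V → V) {n k : ℕ} (h : n ≤ k) (q : ℕ → V) (y z : V) :
    A5_r nxt n (Function.update q (k + 1) z) (k + 1) y =
      A5_r nxt n q k y + if q k = y ∧ z = nxt y then 1 else 0 := by
  rw [A5_r_succ nxt h, Function.update_self, Function.update_of_ne (by omega : k ≠ k + 1)]
  congr 1
  refine A5_r_congr nxt (fun i hi => ?_) y
  rw [Function.update_of_ne (by omega)]

private theorem A5_cr {V : Type*} {S : Finset V} {nxt : V → V} {rel : V → V → Prop} {E : Set V}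
    (hnext : ∀ y ∈ S, nxt y ∈ S ∨ nxt y ∈ E)
    (hrev : ∀ y ∈ S, nxt y ∈ S → rel (nxt y) y ∧ nxt (nxt y) ≠ y) {p : ℕ → V} {n : ℕ} {q : ℕ → V}
    {k : ℕ} (h : A5_Alive S nxt rel E p n q k) {y : V} (hy : y ∈ S) :
    cr q k y (nxt y) = cr p n y (nxt y) + A5_r nxt n q k y ∧
    ∀ z, rel y z → z ≠ nxt y → cr q k y z ≤ cr p n y z := by
  classical
  obtain ⟨d, rfl⟩ := Nat.exists_eq_add_of_le h.le
  induction d with
  | zero =>
    constructor
    · rw [Nat.add_zero, cr_congr h.eq]
      simp [A5_r]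
    · intro z _ _
      rw [Nat.add_zero, cr_congr h.eq]
  | succ d ih =>
    have h' : A5_Alive S nxt rel E p n q (n + d) :=
      ⟨by omega, h.eq, fun j h1 h2 => h.notE j h1 (by omega), fun j h1 h2 => h.noDev j h1 (by omega)⟩
    obtain ⟨i1, i2⟩ := ih h'
    have hnd := h.noDev (n + d) (by omega) (by omega)
    have hne := h.notE (n + d) (by omega) (by omega)
    constructor
    · have hb : ¬ (q (n + d) = nxt y ∧ q (n + d + 1) = y) := by
        rintro ⟨h1, h2⟩
        rcases hnext y hy with h3 | h3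
        · obtain ⟨h4, h5⟩ := hrev y hy h3
          apply hnd
          rw [h1, h2]
          exact ⟨h3, h4, h5.symm⟩
        · exact hne (h1 ▸ h3)
      rw [← add_assoc, cr_succ, i1, if_neg hb, A5_r_succ nxt (by omega)]
      push_cast
      ring
    · intro z hz1 hz2
      have ha : ¬ (q (n + d) = y ∧ q (n + d + 1) = z) := by
        rintro ⟨h1, h2⟩
        apply hnd
        rw [h1, h2]
        exact ⟨hy, hz1, hz2⟩
      have := i2 z hz1 hz2
      rw [← add_assoc, cr_succ, if_neg ha]
      split_ifs <;> omega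

private theorem A5_c_nonneg {β : ℝ} (hβ : 0 < β) (K D : ℕ) :
    0 ≤ (D * Real.exp (β * K) / (1 - Real.exp (-β)) : ℝ) := by
  have h1 : Real.exp (-β) < 1 := by
    rw [← Real.exp_zero]
    exact Real.exp_lt_exp.2 (by linarith)
  have h2 : 0 < 1 - Real.exp (-β) := by linarith
  positivity

private theorem A5_W_pos {V : Type*} (β : ℝ) (S : Finset V) (nxt : V → V) (K D n : ℕ) (q : ℕ → V) (k : ℕ) :
    0 < A5_W β S nxt K D n q k :=
  Finset.prod_pos fun _ _ => Real.exp_pos _

private theorem A5_fac_le {β : ℝ} (hβ : 0 < β) (K D r : ℕ) :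
    Real.exp (-(D * Real.exp (β * K) / (1 - Real.exp (-β)) * Real.exp (-β * r))) ≤ 1 := by
  rw [Real.exp_le_one_iff, neg_nonpos]
  exact mul_nonneg (A5_c_nonneg hβ K D) (Real.exp_pos _).le

private theorem A5_W_le_one {V : Type*} {β : ℝ} (hβ : 0 < β) (S : Finset V) (nxt : V → V) (K D n : ℕ)
    (q : ℕ → V) (k : ℕ) : A5_W β S nxt K D n q k ≤ 1 :=
  Finset.prod_le_one (fun _ _ => (Real.exp_pos _).le) (fun _ _ => A5_fac_le hβ K D _)

private theorem A5_W_le_fac {V : Type*} {β : ℝ} (hβ : 0 < β) {S : Finset V} (nxt : V → V) (K D n : ℕ)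
    (q : ℕ → V) (k : ℕ) {y : V} (hy : y ∈ S) : A5_W β S nxt K D n q k ≤
      Real.exp (-(D * Real.exp (β * K) / (1 - Real.exp (-β)) * Real.exp (-β * A5_r nxt n q k y))) := by
  classical
  unfold A5_W
  rw [← Finset.mul_prod_erase S _ hy]
  refine mul_le_of_le_one_right (Real.exp_pos _).le ?_
  exact Finset.prod_le_one (fun _ _ => (Real.exp_pos _).le) (fun _ _ => A5_fac_le hβ K D _)

private theorem A5_W_ne {V : Type*} (β : ℝ) {S : Finset V} {nxt : V → V} (K D : ℕ) {n k : ℕ}
    (hk : n ≤ k) (q : ℕ → V) (z : V) (h : ¬ (q k ∈ S ∧ z = nxt (q k))) :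
    A5_W β S nxt K D n (Function.update q (k + 1) z) (k + 1) = A5_W β S nxt K D n q k := by
  classical
  unfold A5_W
  refine Finset.prod_congr rfl (fun y hy => ?_)
  rw [A5_r_update nxt hk, if_neg, add_zero]
  rintro ⟨rfl, h2⟩
  exact h ⟨hy, h2⟩

private theorem A5_alg {β : ℝ} (hβ : 0 < β) (K D r : ℕ) :
    (D * Real.exp (β * K) / (1 - Real.exp (-β)) * Real.exp (-β * (r : ℝ)) : ℝ) =
      D * Real.exp (β * ((K : ℝ) - r)) +
        D * Real.exp (β * K) / (1 - Real.exp (-β)) * Real.exp (-β * ((r : ℝ) + 1)) := by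
  have h1 : Real.exp (-β) < 1 := by
    rw [← Real.exp_zero]
    exact Real.exp_lt_exp.2 (by linarith)
  have h2 : (1 - Real.exp (-β)) ≠ 0 := by linarith
  have h3 : Real.exp (-β * ((r : ℝ) + 1)) = Real.exp (-β * r) * Real.exp (-β) := by
    rw [← Real.exp_add]
    congr 1
    ring
  have h4 : Real.exp (β * ((K : ℝ) - r)) = Real.exp (β * K) * Real.exp (-β * r) := by
    rw [← Real.exp_add]
    congr 1
    ring
  rw [h3, h4]
  field_simp
  ring

private theorem A5_W_eq {V : Type*} {β : ℝ} (hβ : 0 < β) {S : Finset V} {nxt : V → V} (K D : ℕ)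
    {n k : ℕ} (hk : n ≤ k) (q : ℕ → V) (h : q k ∈ S) :
    A5_W β S nxt K D n (Function.update q (k + 1) (nxt (q k))) (k + 1) =
      Real.exp (D * Real.exp (β * ((K : ℝ) - A5_r nxt n q k (q k)))) * A5_W β S nxt K D n q k := by
  classical
  unfold A5_W
  rw [← Finset.mul_prod_erase S _ h, ← Finset.mul_prod_erase S _ h, ← mul_assoc, ← Real.exp_add]
  congr 1
  · rw [A5_r_update nxt hk, if_pos ⟨rfl, rfl⟩]
    congr 1
    have := A5_alg hβ K D (A5_r nxt n q k (q k))
    push_cast
    linarith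
  · refine Finset.prod_congr rfl (fun y hy => ?_)
    rw [A5_r_update nxt hk, if_neg, add_zero]
    rintro ⟨h1, _⟩
    exact (Finset.mem_erase.1 hy).1 h1.symm

private theorem A5_W_end {V : Type*} {β : ℝ} (hβ : 0 < β) {S : Finset V} {nxt : V → V} (K D : ℕ)
    {n k : ℕ} (q : ℕ → V) (h : q k ∈ S) :
    Real.exp (D * Real.exp (β * ((K : ℝ) - A5_r nxt n q k (q k)))) * A5_W β S nxt K D n q k ≤ 1 := by
  have h1 := A5_W_le_fac hβ nxt K D n q k h
  have h2 := A5_alg hβ K D (A5_r nxt n q k (q k))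
  have h3 : 0 ≤ (D * Real.exp (β * K) / (1 - Real.exp (-β)) *
      Real.exp (-β * ((A5_r nxt n q k (q k) : ℝ) + 1)) : ℝ) :=
    mul_nonneg (A5_c_nonneg hβ K D) (Real.exp_pos _).le
  calc Real.exp (D * Real.exp (β * ((K : ℝ) - A5_r nxt n q k (q k)))) * A5_W β S nxt K D n q k
      ≤ Real.exp (D * Real.exp (β * ((K : ℝ) - A5_r nxt n q k (q k)))) *
        Real.exp (-(D * Real.exp (β * K) / (1 - Real.exp (-β)) *
          Real.exp (-β * A5_r nxt n q k (q k)))) :=
        mul_le_mul_of_nonneg_left h1 (Real.exp_pos _).le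
    _ ≤ 1 := by
        rw [← Real.exp_add, Real.exp_le_one_iff]
        linarith

variable {V : Type*} [Countable V] [MeasurableSpace V] [DiscreteMeasurableSpace V]
  {G : SimpleGraph V} [G.LocallyFinite] {β : ℝ} {v : V} {ν : Measure (ℕ → V)}

omit [Countable V] [MeasurableSpace V] [DiscreteMeasurableSpace V] in
/-- the sum over the neighbours -/
private theorem A5_sum (hβ : 0 < β) {S : Finset V} {nxt : V → V} {rel : V → V → Prop}
    {E : Set V} {K D : ℕ} (hadj : ∀ y ∈ S, G.Adj y (nxt y))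
    (hnext : ∀ y ∈ S, nxt y ∈ S ∨ nxt y ∈ E)
    (hrev : ∀ y ∈ S, nxt y ∈ S → rel (nxt y) y ∧ nxt (nxt y) ≠ y)
    (hD : ∀ y ∈ S, G.degree y ≤ D) {p : ℕ → V} {n : ℕ}
    (hgap : ∀ y ∈ S, ∀ z, G.Adj y z → rel y z → cr p n y z ≤ cr p n y (nxt y) + K)
    {q : ℕ → V} {k : ℕ} (ha : A5_Alive S nxt rel E p n q k) (w : V → ℝ) (hw0 : ∀ z, 0 ≤ w z)
    (hwE : ∀ z, ¬ Dev S nxt rel (q k) z → z ∈ E → w z = 1)
    (hwA : ∀ z, ¬ Dev S nxt rel (q k) z → z ∉ E →
      w z = A5_W β S nxt K D n (Function.update q (k + 1) z) (k + 1))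
    {z₀ : V} (hz₀ : G.Adj (q k) z₀) :
    A5_W β S nxt K D n q k ≤ ∑ z ∈ G.neighborFinset (q k), pr G β q k z * w z := by
  have hw1 := A5_W_le_one hβ S nxt K D n q k
  by_cases hS : q k ∈ S
  · obtain ⟨h1, h2⟩ := A5_cr hnext hrev ha hS
    have hnd : ¬ Dev S nxt rel (q k) (nxt (q k)) := fun h => h.2.2 rfl
    refine hazard_step hβ q k (nxt (q k)) (hadj _ hS) (rel (q k)) D (hD _ hS)
      ((K : ℤ) - A5_r nxt n q k (q k)) ?_ w _ (A5_W_pos β S nxt K D n q k).le hw0 ?_ ?_
    · intro z hz1 hz2 hz3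
      have h3 := h2 z hz3 hz2
      have h4 := hgap _ hS z hz1 hz3
      rw [h1]
      linarith
    · have hcast : (((K : ℤ) - (A5_r nxt n q k (q k) : ℤ) : ℤ) : ℝ) =
        (K : ℝ) - A5_r nxt n q k (q k) := by push_cast; rfl
      rw [hcast]
      by_cases hE' : nxt (q k) ∈ E
      · rw [hwE _ hnd hE']
        exact A5_W_end hβ K D q hS
      · rw [hwA _ hnd hE', A5_W_eq hβ K D ha.le q hS]
    · intro z hz1 hz2 hz3
      have hnd' : ¬ Dev S nxt rel (q k) z := fun h => hz3 h.2.1
      by_cases hE' : z ∈ E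
      · rw [hwE _ hnd' hE']
        exact hw1
      · rw [hwA _ hnd' hE', A5_W_ne β K D ha.le q z (fun h => hz2 h.2)]
  · have hnd : ∀ z, ¬ Dev S nxt rel (q k) z := fun z h => hS h.1
    have hwz : ∀ z, A5_W β S nxt K D n q k ≤ w z := by
      intro z
      by_cases hE' : z ∈ E
      · rw [hwE _ (hnd z) hE']
        exact hw1
      · rw [hwA _ (hnd z) hE', A5_W_ne β K D ha.le q z (fun h => hS h.1)]
    calc A5_W β S nxt K D n q k
        = ∑ z ∈ G.neighborFinset (q k), pr G β q k z * A5_W β S nxt K D n q k := by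
          rw [← Finset.sum_mul, pr_sum q k hz₀, one_mul]
      _ ≤ _ := Finset.sum_le_sum fun z _ => mul_le_mul_of_nonneg_left (hwz z) (pr_nonneg q k z)

private theorem A5_meas (S : Finset V) (nxt : V → V) (rel : V → V → Prop) (E : Set V) (n t : ℕ) :
    MeasurableSet (A5_ND S nxt rel E n t) := by
  refine measurableSet_of_dep t (fun x y hxy => ?_)
  have key : ∀ x y : ℕ → V, (∀ i ≤ t, x i = y i) →
      (∀ j, n ≤ j → j < t → (∀ i, n ≤ i → i ≤ j → x i ∉ E) → ¬ Dev S nxt rel (x j) (x (j + 1))) →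
      (∀ j, n ≤ j → j < t → (∀ i, n ≤ i → i ≤ j → y i ∉ E) → ¬ Dev S nxt rel (y j) (y (j + 1))) := by
    intro x y hxy h j hj1 hj2 hj3
    rw [← hxy j (by omega), ← hxy (j + 1) (by omega)]
    refine h j hj1 hj2 (fun i hi1 hi2 => ?_)
    rw [hxy i (by omega)]
    exact hj3 i hi1 hi2
  exact ⟨key x y hxy, key y x (fun i hi => (hxy i hi).symm)⟩

open Classical in
private theorem A5_main (hν : IsLaw G β v ν) (hβ : 0 < β) {S : Finset V} {nxt : V → V} {rel : V → V → Prop}
    {E : Set V} {K D : ℕ} (hadj : ∀ y ∈ S, G.Adj y (nxt y))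
    (hnext : ∀ y ∈ S, nxt y ∈ S ∨ nxt y ∈ E)
    (hrev : ∀ y ∈ S, nxt y ∈ S → rel (nxt y) y ∧ nxt (nxt y) ≠ y)
    (hD : ∀ y ∈ S, G.degree y ≤ D) {p : ℕ → V} {n : ℕ}
    (hgap : ∀ y ∈ S, ∀ z, G.Adj y z → rel y z → cr p n y z ≤ cr p n y (nxt y) + K) (m : ℕ) :
    ∀ (q : ℕ → V) (k : ℕ), A5_Alive S nxt rel E p n q k →
    ENNReal.ofReal (A5_W β S nxt K D n q k) * ν (cyl q k) ≤ ν (cyl q k ∩ A5_ND S nxt rel E n (k + m)) := by
  induction m with
  | zero =>
    intro q k ha
    have hsub : cyl q k ⊆ A5_ND S nxt rel E n (k + 0) := by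
      intro x hx j hj1 hj2 _
      rw [hx j (by omega), hx (j + 1) (by omega)]
      exact ha.noDev j hj1 (by omega)
    rw [Set.inter_eq_left.2 hsub]
    calc ENNReal.ofReal (A5_W β S nxt K D n q k) * ν (cyl q k)
        ≤ ENNReal.ofReal 1 * ν (cyl q k) := by
          gcongr
          exact A5_W_le_one hβ S nxt K D n q k
      _ = ν (cyl q k) := by rw [ENNReal.ofReal_one, one_mul]
  | succ m ih =>
    intro q k ha
    by_cases h0 : ν (cyl q k) = 0
    · rw [h0, mul_zero]
      exact zero_le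
    obtain ⟨z₀, hz₀⟩ : ∃ z₀, G.Adj (q k) z₀ := by
      by_contra hcon
      push Not at hcon
      apply h0
      have h1 := cyl_inter_eq_sum hν q k Set.univ MeasurableSet.univ
      rw [Set.inter_univ] at h1
      rw [h1]
      refine Finset.sum_eq_zero (fun z hz => ?_)
      rw [SimpleGraph.mem_neighborFinset] at hz
      exact absurd hz (hcon z)
    let w : V → ℝ := fun z => if Dev S nxt rel (q k) z then 0 else if z ∈ E then 1 else
      A5_W β S nxt K D n (Function.update q (k + 1) z) (k + 1)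
    have hw0 : ∀ z, 0 ≤ w z := by
      intro z
      simp only [w]
      split_ifs
      · exact le_refl _
      · exact zero_le_one
      · exact (A5_W_pos β S nxt K D n _ (k + 1)).le
    have hwE : ∀ z, ¬ Dev S nxt rel (q k) z → z ∈ E → w z = 1 := by
      intro z h1 h2
      simp only [w, if_neg h1, if_pos h2]
    have hwA : ∀ z, ¬ Dev S nxt rel (q k) z → z ∉ E →
        w z = A5_W β S nxt K D n (Function.update q (k + 1) z) (k + 1) := by
      intro z h1 h2
      simp only [w, if_neg h1, if_neg h2]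
    have hwD : ∀ z, Dev S nxt rel (q k) z → w z = 0 := by
      intro z h1
      simp only [w, if_pos h1]
    have hsum := A5_sum hβ hadj hnext hrev hD hgap ha w hw0 hwE hwA hz₀
    have hup : ∀ z, ∀ i ≤ k, Function.update q (k + 1) z i = q i := fun z i hi =>
      Function.update_of_ne (by omega) _ _
    have hterm : ∀ z ∈ G.neighborFinset (q k), ν (cyl q k) * ENNReal.ofReal (pr G β q k z * w z) ≤
        ν (cyl (Function.update q (k + 1) z) (k + 1) ∩ A5_ND S nxt rel E n (k + (m + 1))) := by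
      intro z _
      rw [ENNReal.ofReal_mul (pr_nonneg q k z), ← mul_assoc, ← cyl_update hν q k z]
      by_cases hdev : Dev S nxt rel (q k) z
      · rw [hwD z hdev, ENNReal.ofReal_zero, mul_zero]
        exact zero_le
      by_cases hzE : z ∈ E
      · rw [hwE z hdev hzE, ENNReal.ofReal_one, mul_one]
        have hsub : cyl (Function.update q (k + 1) z) (k + 1) ⊆ A5_ND S nxt rel E n (k + (m + 1)) := by
          intro x hx j hj1 hj2 hj3
          rcases lt_trichotomy j k with hjk | hjk | hjk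
          · rw [hx j (by omega), hx (j + 1) (by omega), hup z j (by omega), hup z (j + 1) (by omega)]
            exact ha.noDev j hj1 hjk
          · subst hjk
            rw [hx j (by omega), hx (j + 1) (by omega), hup z j (by omega), Function.update_self]
            exact hdev
          · exfalso
            apply hj3 (k + 1) (by have := ha.le; omega) (by omega)
            rw [hx (k + 1) (by omega), Function.update_self]
            exact hzE
        rw [Set.inter_eq_left.2 hsub]
      · have hal : A5_Alive S nxt rel E p n (Function.update q (k + 1) z) (k + 1) := by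
          refine ⟨by have := ha.le; omega, ?_, ?_, ?_⟩
          · intro i hi
            rw [hup z i (by have := ha.le; omega)]
            exact ha.eq i hi
          · intro j hj1 hj2
            rcases Nat.lt_or_ge j (k + 1) with h | h
            · rw [hup z j (by omega)]
              exact ha.notE j hj1 (by omega)
            · obtain rfl : j = k + 1 := by omega
              rw [Function.update_self]
              exact hzE
          · intro j hj1 hj2
            rcases Nat.lt_or_ge j k with h | h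
            · rw [hup z j (by omega), hup z (j + 1) (by omega)]
              exact ha.noDev j hj1 h
            · obtain rfl : j = k := by omega
              rw [hup z j (by omega), Function.update_self]
              exact hdev
        rw [hwA z hdev hzE, mul_comm]
        have h3 := ih (Function.update q (k + 1) z) (k + 1) hal
        have h4 : k + 1 + m = k + (m + 1) := by omega
        rw [h4] at h3
        exact h3
    rw [cyl_inter_eq_sum hν q k _ (A5_meas S nxt rel E n (k + (m + 1)))]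
    calc ENNReal.ofReal (A5_W β S nxt K D n q k) * ν (cyl q k)
        = ν (cyl q k) * ENNReal.ofReal (A5_W β S nxt K D n q k) := mul_comm _ _
      _ ≤ ν (cyl q k) * ENNReal.ofReal (∑ z ∈ G.neighborFinset (q k), pr G β q k z * w z) := by
          gcongr
      _ = ν (cyl q k) * ∑ z ∈ G.neighborFinset (q k), ENNReal.ofReal (pr G β q k z * w z) := by
          rw [ENNReal.ofReal_sum_of_nonneg]
          intro z _
          exact mul_nonneg (pr_nonneg q k z) (hw0 z)
      _ = ∑ z ∈ G.neighborFinset (q k), ν (cyl q k) * ENNReal.ofReal (pr G β q k z * w z) :=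
          Finset.mul_sum _ _ _
      _ ≤ _ := Finset.sum_le_sum hterm

theorem hazard (hν : IsLaw G β v ν) (hβ : 0 < β) {S : Finset V} {nxt : V → V} {rel : V → V → Prop}
    {E : Set V} {K D : ℕ} (hE : ∀ y ∈ S, y ∉ E) (hadj : ∀ y ∈ S, G.Adj y (nxt y))
    (hnext : ∀ y ∈ S, nxt y ∈ S ∨ nxt y ∈ E)
    (hrev : ∀ y ∈ S, nxt y ∈ S → rel (nxt y) y ∧ nxt (nxt y) ≠ y)
    (hD : ∀ y ∈ S, G.degree y ≤ D) {p : ℕ → V} {n : ℕ}
    (hgap : ∀ y ∈ S, ∀ z, G.Adj y z → rel y z → cr p n y z ≤ cr p n y (nxt y) + K) :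
    ENNReal.ofReal (dl β S.card D K) * ν (cyl p n) ≤ ν (cyl p n ∩ NoDev S nxt rel E n) := by
  have := hν.prob
  have hc := A5_c_nonneg hβ K D
  have hdl : dl β S.card D K ≤ 1 := by
    unfold dl
    rw [Real.exp_le_one_iff, neg_nonpos]
    positivity
  by_cases hpE : p n ∈ E
  · have hsub : cyl p n ⊆ NoDev S nxt rel E n := by
      intro x hx k hk h
      exfalso
      apply h n (le_refl n) hk
      rw [hx n (le_refl n)]
      exact hpE
    rw [Set.inter_eq_left.2 hsub]
    calc ENNReal.ofReal (dl β S.card D K) * ν (cyl p n)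
        ≤ ENNReal.ofReal 1 * ν (cyl p n) := by gcongr
      _ = ν (cyl p n) := by rw [ENNReal.ofReal_one, one_mul]
  have hal : A5_Alive S nxt rel E p n p n := by
    refine ⟨le_refl n, fun _ _ => rfl, ?_, ?_⟩
    · intro j hj1 hj2
      obtain rfl : j = n := by omega
      exact hpE
    · intro j hj1 hj2
      omega
  have hW : A5_W β S nxt K D n p n = dl β S.card D K := by
    have h1 : ∀ y, A5_r nxt n p n y = 0 := fun y => by simp [A5_r]
    unfold A5_W dl
    simp only [h1, Nat.cast_zero, mul_zero, Real.exp_zero, mul_one]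
    rw [Finset.prod_const, ← Real.exp_nat_mul]
    congr 1
    ring
  have hmain := fun m => A5_main hν hβ hadj hnext hrev hD hgap m p n hal
  rw [hW] at hmain
  have hEq : cyl p n ∩ NoDev S nxt rel E n = ⋂ m : ℕ, (cyl p n ∩ A5_ND S nxt rel E n (n + m)) := by
    ext x
    simp only [Set.mem_iInter, Set.mem_inter_iff]
    constructor
    · rintro ⟨h1, h2⟩ m
      exact ⟨h1, fun j hj1 _ hj3 => h2 j hj1 hj3⟩
    · intro h
      refine ⟨(h 0).1, fun k hk hk2 => ?_⟩
      exact (h (k + 1)).2 k hk (by omega) hk2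
  rw [hEq]
  have hanti : Antitone fun m : ℕ => cyl p n ∩ A5_ND S nxt rel E n (n + m) := by
    intro a b hab x hx
    exact ⟨hx.1, fun j hj1 hj2 hj3 => hx.2 j hj1 (by omega) hj3⟩
  have htend := tendsto_measure_iInter_atTop (μ := ν)
    (fun m => ((measurableSet_cyl p n).inter (A5_meas S nxt rel E n (n + m))).nullMeasurableSet)
    hanti ⟨0, measure_ne_top ν _⟩
  exact ge_of_tendsto' htend hmain

end Pool.Agent.Lib.MP_c171f5_pr.AM
end

section

/-!
# TASK C2: a fresh ball of a dense piece traps the walk with positive probability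

`z ∈ H` is the centre of a ball of radius `2 * L` (in `G`) which contains `p n` and whose vertices in `H` are not visited before time `n`.
PROOF. By `hD` for `z` there is a circuit `u` in `H`, `l ≤ L`, `G.dist z (u 0) ≤ L`. Its vertices have distance `≤ L + l ≤ 2 L` to `z` (walk along the
circuit, `G.dist (u 0) (u j) ≤ j < l`). Let `q` be the concatenation of the walk of `exists_walk_in` from `p n` to `z` (its vertices have
distance `≤ G.dist (p n) z ≤ 2 L` to `z`) and of the one from `z` to `u 0` (its vertices have distance `≤ L` to `u 0` and so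
`≤ 2 L` to `z`; better: the `i`-th one has distance `≤ i ≤ L` to `z`); length `M ≤ 3 L`. `fresh_nxt` gives `S`, `nxt`, `S.card ≤ 4 L`. `hazard` with
`rel := fun _ _ => True`, `E := ∅`, `K := 0`, and `dl_anti`; `A := NoDev S nxt rel ∅ n`. A path `y ∈ cyl p n ∩ A` follows `nxt` in `S` from time `n` on (induction), so
`Trap G y` by `trap_of_nxt`.
-/

set_option autoImplicit false

namespace Pool.Agent.Lib.MP_c171f5_pr.AM

open MeasureTheory Filter Set
open scoped ENNReal

variable {V : Type*} [Countable V] [MeasurableSpace V] [DiscreteMeasurableSpace V]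
  {G : SimpleGraph V} [G.LocallyFinite] {β : ℝ} {v : V} {ν : Measure (ℕ → V)} {H : Set V} {π : V → V}

omit [Countable V] [MeasurableSpace V] [DiscreteMeasurableSpace V] [G.LocallyFinite] in
private theorem C2_dist_circ (hG : G.Connected) {l : ℕ} {u : ℕ → V} (hu : IsCircuit G l u) :
    ∀ j, j < l → G.dist (u 0) (u j) ≤ j := by
  intro j
  induction j with
  | zero => intro _; simp
  | succ j ih =>
    intro hj
    have h1 := ih (by omega)
    have h2 : G.dist (u j) (u (j + 1)) ≤ 1 := by
      rw [SimpleGraph.dist_eq_one_iff_adj.mpr (hu.adj j hj)]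
    have h3 := hG.dist_triangle (u := u 0) (v := u j) (w := u (j + 1))
    omega

theorem fresh_trap (hG : G.Connected) (hν : IsLaw G β v ν) (hβ : 0 < β) (hP : Piece G H π) {D L : ℕ}
    (hD : ∀ x ∈ H, G.degree x ≤ D ∧ ∃ (l : ℕ) (u : ℕ → V), IsCircuit G l u ∧ l ≤ L ∧
      (∀ i < l, u i ∈ H) ∧ G.dist x (u 0) ≤ L)
    {p : ℕ → V} {n : ℕ} (hpn : p n ∈ H) {z : V} (hz : z ∈ H) (hzp : G.dist z (p n) ≤ 2 * L)
    (hfresh : ∀ y ∈ H, G.dist z y ≤ 2 * L → ∀ i < n, p i ≠ y) :
    ∃ A : Set (ℕ → V), MeasurableSet A ∧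
      (∀ y, (∀ i, G.Adj (y i) (y (i + 1))) → y ∈ cyl p n → y ∈ A → Trap G y) ∧
      ENNReal.ofReal (dl β (4 * L) D 0) * ν (cyl p n) ≤ ν (cyl p n ∩ A) := by
  obtain ⟨-, l, u, hu, hl, hH, hdz⟩ := hD z hz
  have hl3 := hu.three
  have hzp' : G.dist (p n) z ≤ 2 * L := by rw [SimpleGraph.dist_comm]; exact hzp
  obtain ⟨q1, h10, h11, h1a, h1b⟩ := exists_walk_in hG hP hpn hz
  obtain ⟨q2, h20, h21, h2a, h2b⟩ := exists_walk_in hG hP hz (hH 0 (by omega))
  set d1 := G.dist (p n) z with hd1
  set d2 := G.dist z (u 0) with hd2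
  let q : ℕ → V := fun i => if i ≤ d1 then q1 i else q2 (i - d1)
  have hqr : ∀ j, q (d1 + j) = q2 j := by
    intro j
    by_cases hj : j = 0
    · subst hj
      simp only [q, add_zero, le_refl, if_true]
      rw [h11, h20]
    · have : ¬ (d1 + j ≤ d1) := by omega
      simp only [q, this, if_false]
      congr 1
      omega
  have hql : ∀ i, i ≤ d1 → q i = q1 i := by
    intro i hi
    simp only [q, hi, if_true]
  have hq0 : q 0 = p n := by rw [hql 0 (by omega), h10]
  have hqM : q (d1 + d2) = u 0 := by rw [hqr, h21]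
  have hqa : ∀ i < d1 + d2, G.Adj (q i) (q (i + 1)) := by
    intro i hi
    by_cases h : i < d1
    · rw [hql i (by omega), hql (i + 1) (by omega)]
      exact h1a i h
    · obtain ⟨j, rfl⟩ := Nat.exists_eq_add_of_le (not_lt.mp h)
      rw [hqr j, add_assoc, hqr (j + 1)]
      exact h2a j (by omega)
  have hq2 : ∀ i ≤ d1 + d2, q i ∈ H ∧ ∀ j < n, p j ≠ q i := by
    intro i hi
    by_cases h : i ≤ d1
    · rw [hql i h]
      have h3 := h1b i h
      refine ⟨h3.1, hfresh _ h3.1 ?_⟩
      rw [SimpleGraph.dist_comm, h3.2]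
      omega
    · obtain ⟨j, rfl⟩ := Nat.exists_eq_add_of_le (le_of_lt (not_le.mp h))
      rw [hqr j]
      have h3 := h2b j (by omega)
      refine ⟨h3.1, hfresh _ h3.1 ?_⟩
      have h4 := hG.dist_triangle (u := z) (v := u 0) (w := q2 j)
      have h5 : G.dist (u 0) (q2 j) = d2 - j := by rw [SimpleGraph.dist_comm]; exact h3.2
      omega
  have huW : ∀ j < l, u j ∈ H ∧ ∀ i < n, p i ≠ u j := by
    intro j hj
    refine ⟨hH j hj, hfresh _ (hH j hj) ?_⟩
    have h4 := hG.dist_triangle (u := z) (v := u 0) (w := u j)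
    have h5 := C2_dist_circ hG hu j hj
    omega
  obtain ⟨S, nxt, hcard, hpS, hS, hcr⟩ := fresh_nxt hu huW hq0 hqM hqa hq2
  have hrev : ∀ y ∈ S, nxt y ∈ S → (True ∧ nxt (nxt y) ≠ y) := fun y hy _ => ⟨trivial, (hS y hy).2.2.2⟩
  have hz1 := hazard (S := S) (nxt := nxt) (rel := fun _ _ => True) (E := ∅) (K := 0) (D := D) hν hβ
    (fun y _ => Set.notMem_empty y) (fun y hy => (hS y hy).2.2.1) (fun y hy => Or.inl (hS y hy).2.1)
    hrev (fun y hy => (hD y (hS y hy).1).1) (p := p) (n := n)
    (fun y hy w _ _ => by have := hcr y hy w; simpa using this)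
  refine ⟨NoDev S nxt (fun _ _ => True) ∅ n, measurableSet_noDev _ _ _ _ _, ?_, ?_⟩
  · intro y hadj hc hA
    have hstep : ∀ k, n ≤ k → y k ∈ S → y (k + 1) = nxt (y k) := by
      intro k hk hkS
      by_contra hne
      exact hA k hk (fun j _ _ => Set.notMem_empty _) ⟨hkS, trivial, hne⟩
    have hin : ∀ k, y (n + k) ∈ S := by
      intro k
      induction k with
      | zero =>
        rw [add_zero, hc n le_rfl]
        exact hpS
      | succ k ih =>
        rw [← add_assoc, hstep (n + k) (by omega) ih]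
        exact (hS _ ih).2.1
    have hin' : ∀ k ≥ n, y k ∈ S := by
      intro k hk
      obtain ⟨j, rfl⟩ := Nat.exists_eq_add_of_le hk
      exact hin j
    exact trap_of_nxt (S := S) (nxt := nxt) (fun w hw _ => (hS w hw).2.2.2) hadj hin'
      (fun k hk => hstep k hk (hin' k hk))
  · refine le_trans ?_ hz1
    gcongr
    exact dl_anti hβ (by omega) le_rfl 0

end Pool.Agent.Lib.MP_c171f5_pr.AM
end

section

/-!
# TASK C3: in a dense piece the walk is trapped or visits only finitely many vertices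

PROOF. `D`, `L` from `Dense`. For a set `A` put `W A := {y ∈ H | ∃ z ∈ H, G.dist z y ≤ 2 * L ∧ ∀ a ∈ A, a ∈ H → 2 * L < G.dist z a}`.
`ae_of_levy` with `Q x := Trap G x ∨ {y ∈ H | ∃ n, x n = y}.Finite`, `δ := dl β (4 * L) D 0`, `good x n := ∃ m < n, x n ∈ W {x i | i ≤ m} ∧ ∀ i < n, x i ∉ W {x i | i ≤ m}`.
`hinf`: let `¬ Q x`, `N` given, `m := N`, `A := {x i | i ≤ N}`. `H \ W A` is finite: if `y ∈ H`, `y ∉ W A` then (with `z = y`) some `a ∈ A ∩ H` has
`G.dist y a ≤ 2 * L` (`ball_finite`). As `x` visits infinitely many vertices of `H`, it visits `W A`; let `n` be the first time. `n > N`: for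
`i ≤ N`, `x i ∈ W A` would give `z` with `G.dist z (x i) ≤ 2 L` and `2 L < G.dist z (x i)` (`a = x i`). So `n ≥ N` and `good x n`.
`hF`: `good x n` with `m`, `A`: `x n ∈ H`, `z ∈ H` with `G.dist z (x n) ≤ 2 * L` and `2 * L < G.dist z a` for `a ∈ A ∩ H`. Every `y ∈ H` with `G.dist z y ≤ 2 * L` is in
`W A`, so it is not visited before time `n`: `fresh_trap` with `p = x`.
`dense_trap`: a.e. `x` satisfies `dense_finite` (`piece_univ`) and, for all of the countably many `A : Finset V`, `hc`. If the set of the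
visited vertices is finite then `hc` for this set gives `Trap G x`.
-/

set_option autoImplicit false

namespace Pool.Agent.Lib.MP_c171f5_pr.AM

open MeasureTheory Filter Set
open scoped ENNReal

variable {V : Type*} [Countable V] [MeasurableSpace V] [DiscreteMeasurableSpace V]
  {G : SimpleGraph V} [G.LocallyFinite] {β : ℝ} {v : V} {ν : Measure (ℕ → V)} {H : Set V} {π : V → V}

/-- the vertices of `H` in a ball of radius `2 * L` which misses the path up to time `m` -/
private def C3_W (G : SimpleGraph V) (H : Set V) (L : ℕ) (x : ℕ → V) (m : ℕ) : Set V :=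
  {y | y ∈ H ∧ ∃ z ∈ H, G.dist z y ≤ 2 * L ∧ ∀ i ≤ m, x i ∈ H → 2 * L < G.dist z (x i)}

omit [Countable V] [MeasurableSpace V] [DiscreteMeasurableSpace V] [G.LocallyFinite] in
private theorem C3_W_congr {L : ℕ} {x y : ℕ → V} {m : ℕ} (h : ∀ i ≤ m, x i = y i) :
    C3_W G H L x m = C3_W G H L y m := by
  ext w
  constructor
  · rintro ⟨h1, z, hz, h2, h3⟩
    exact ⟨h1, z, hz, h2, fun i hi hy => by rw [← h i hi]; exact h3 i hi (by rw [h i hi]; exact hy)⟩
  · rintro ⟨h1, z, hz, h2, h3⟩
    exact ⟨h1, z, hz, h2, fun i hi hy => by rw [h i hi]; exact h3 i hi (by rw [← h i hi]; exact hy)⟩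

omit [Countable V] [MeasurableSpace V] [DiscreteMeasurableSpace V] in
private theorem C3_visit (hG : G.Connected) {L : ℕ} {x : ℕ → V}
    (hx : ¬ {y | y ∈ H ∧ ∃ n, x n = y}.Finite) (m : ℕ) : ∃ n, x n ∈ C3_W G H L x m := by
  by_contra hcon
  push Not at hcon
  refine hx ?_
  have h1 : {y | y ∈ H ∧ ∃ n, x n = y} ⊆ ⋃ i ∈ Finset.range (m + 1), {y | G.dist (x i) y ≤ 2 * L} := by
    rintro y ⟨hyH, n, hn⟩
    have h2 : y ∉ C3_W G H L x m := by
      rw [← hn]
      exact hcon n
    have h3 : ¬ ∀ i ≤ m, x i ∈ H → 2 * L < G.dist y (x i) := fun h3 =>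
      h2 ⟨hyH, y, hyH, by rw [SimpleGraph.dist_self]; exact Nat.zero_le _, h3⟩
    push Not at h3
    obtain ⟨i, hi, -, hd⟩ := h3
    refine mem_iUnion₂.2 ⟨i, Finset.mem_range.2 (by omega), ?_⟩
    rw [mem_ofPred_eq, SimpleGraph.dist_comm]
    exact hd
  exact ((Finset.range (m + 1)).finite_toSet.biUnion fun i _ => ball_finite hG (x i) (2 * L)).subset h1

theorem dense_finite (hG : G.Connected) (hν : IsLaw G β v ν) (hβ : 0 < β) (hP : Piece G H π)
    (hD : Dense G H) : ∀ᵐ x ∂ν, Trap G x ∨ {y | y ∈ H ∧ ∃ n, x n = y}.Finite := by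
  classical
  obtain ⟨D, L, hDL⟩ := hD
  refine ae_of_levy hν (fun x => Trap G x ∨ {y | y ∈ H ∧ ∃ n, x n = y}.Finite)
    (fun x n => ∃ m < n, x n ∈ C3_W G H L x m ∧ ∀ i < n, x i ∉ C3_W G H L x m) ?_ ?_
    (dl_pos β (4 * L) D 0) ?_
  · rintro x y n hxy ⟨m, hm, h1, h2⟩
    have e : C3_W G H L x m = C3_W G H L y m := C3_W_congr fun i hi => hxy i (by omega)
    refine ⟨m, hm, ?_, fun i hi => ?_⟩
    · rw [← e, ← hxy n le_rfl]
      exact h1
    · rw [← e, ← hxy i hi.le]
      exact h2 i hi
  · intro x hx _ _ N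
    have hfin : ¬ {y | y ∈ H ∧ ∃ n, x n = y}.Finite := fun h => hx (Or.inr h)
    have hex := C3_visit hG (L := L) hfin N
    have hmem := Nat.find_spec hex
    have hmin : ∀ i < Nat.find hex, x i ∉ C3_W G H L x N := fun i hi => Nat.find_min hex hi
    have hN : N < Nat.find hex := by
      by_contra hcon
      push Not at hcon
      obtain ⟨h1, z, _, h2, h3⟩ := hmem
      exact absurd (h3 _ hcon h1) (not_lt.2 h2)
    exact ⟨Nat.find hex, hN.le, N, hN, hmem, hmin⟩
  · rintro x _ _ _ n ⟨m, hm, ⟨hxH, z, hz, hzx, hfar⟩, hmin⟩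
    obtain ⟨A, hA, hT, hle⟩ := fresh_trap hG hν hβ hP hDL hxH hz hzx
      (fun y hy hzy i hi he => hmin i hi (by rw [he]; exact ⟨hy, z, hz, hzy, hfar⟩))
    exact ⟨A, hA, fun y hQ hpath hcyl hyA => hQ (Or.inl (hT y hpath hcyl hyA)), hle⟩

/-- if `V` itself is dense then the walk is trapped -/
theorem dense_trap [Infinite V] (hG : G.Connected) (hν : IsLaw G β v ν) (hβ : 0 < β)
    (hc : ∀ A : Finset V, ∀ᵐ x ∂ν, Trap G x ∨ ∀ N, ∃ k ≥ N, x k ∉ A)
    (hD : Dense G univ) : ∀ᵐ x ∂ν, Trap G x := by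
  have h1 := dense_finite hG hν hβ piece_univ hD
  have h2 : ∀ᵐ x ∂ν, ∀ A : Finset V, Trap G x ∨ ∀ N, ∃ k ≥ N, x k ∉ A := ae_all_iff.2 hc
  filter_upwards [h1, h2] with x hx1 hx2
  rcases hx1 with h | hfin
  · exact h
  · rcases hx2 hfin.toFinset with h | h
    · exact h
    · obtain ⟨k, -, hk⟩ := h 0
      exact absurd (hfin.mem_toFinset.2 ⟨mem_univ _, k, rfl⟩) hk

end Pool.Agent.Lib.MP_c171f5_pr.AM
end

section

/-!
# TASK B4: the greedy lemma

PROOF. `c := cr p n`. Put `y 0 := p n`, `y 1 := w`; given `y (i - 1)`, `y i` with `Live G H (y (i - 1)) (y i)`, let `y (i + 1)` be a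
vertex `z ≠ y (i - 1)` with `Live G H (y i) z` (there is one by `live_next`; all such `z` are neighbours, so finitely many) for
which `c (y i) z` is maximal. `a i := c (y i) (y (i + 1))`. Let `m ≥ 1` be the least number such that `y m ∉ A` or `y m = y j` for some `j < m`; so
`y 0, …, y (m - 1)` are distinct elements of `A`, `m ≤ A.card`.
Lower bound: `a i ≥ -(i + 1) (D + 1)` for `i < m`. By `flow` the sum of `c (y i) z` over the neighbours `z ∈ H` is `≥ -1`. Not live `z`:
`c (y i) z ≤ 1` (`cr_le_one_of_not_live`), at most `D` of them. `i = 0`: the sum over the live `z` is `≥ -1 - D`; there is at least one, and all are `≤ a 0`, so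
`a 0 ≥ -(1 + D)` (if `a 0 < 0` the sum is at most `a 0`). `i ≥ 1`: the term of `z = y (i - 1)` is `-a (i - 1)` (`cr_symm`); so the
sum over the live `z ≠ y (i - 1)` is `≥ a (i - 1) - 1 - D`; if `a i < 0` the sum is at most `a i`; so `a i ≥ min 0 (a (i - 1) - 1 - D)`.
Gap: let `z ∈ H` be a neighbour of `y i`, `i < m`. If `z` is not live: `c (y i) z ≤ 1`. If `i ≥ 1` and `z = y (i - 1)`: `c (y i) z = -a (i - 1) ≤ i (D + 1)`.
Otherwise `c (y i) z ≤ a i`. In all cases `c (y i) z - a i ≤ (2 i + 1) (D + 1) + 1 ≤ kA A.card D`.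
`S := {y 0, …, y (m - 1)}`; `nxt (y i) := y (i + 1)` for `i < m` (`w` elsewhere). If `y m ∈ A` then `y m = y j ∈ S`. `nxt (nxt y) ≠ y`: for `y = y i`,
`i + 1 < m` this is `y (i + 2) ≠ y i`. For `y = y (m - 1)` with `nxt y = y m = y j ∈ S`: `nxt (nxt y) = y (j + 1)`; if this were `y (m - 1)`, then
`j + 1 = m - 1` (or `j + 1 = m`: then `y m = y (m - 1)`, not adjacent), `y (j + 2) = y m = y j`, a contradiction.
-/

set_option autoImplicit false

namespace Pool.Agent.Lib.MP_c171f5_pr.AM

open MeasureTheory Filter Set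

variable {V : Type*} {G : SimpleGraph V} [G.LocallyFinite] {H : Set V} {π : V → V}

omit [G.LocallyFinite] in
private theorem B4_lb (s : Finset V) (f : V → ℤ) (D : ℕ) (hcard : s.card ≤ D) {w0 : V} (hw0 : w0 ∈ s)
    (hz : ∀ z ∈ s, z ≠ w0 → f z ≤ 1 ∨ f z ≤ f w0) (t : ℤ) (hsum : t ≤ ∑ z ∈ s, f z) :
    1 < f w0 ∨ t - D ≤ f w0 := by
  classical
  by_cases h1 : 1 < f w0
  · exact Or.inl h1
  · right
    rw [← Finset.add_sum_erase s f hw0] at hsum
    have h2 : ∑ z ∈ s.erase w0, f z ≤ ∑ z ∈ s.erase w0, (1 : ℤ) := by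
      apply Finset.sum_le_sum
      intro z hz'
      rw [Finset.mem_erase] at hz'
      rcases hz z hz'.2 hz'.1 with h | h
      · exact h
      · omega
    have h3 : ∑ z ∈ s.erase w0, (1 : ℤ) = ((s.erase w0).card : ℤ) := by simp
    have h4 : (s.erase w0).card ≤ D := le_trans (Finset.card_le_card (Finset.erase_subset _ _)) hcard
    have h5 : ((s.erase w0).card : ℤ) ≤ D := by exact_mod_cast h4
    linarith

private theorem B4_step (c : V → V → ℤ) {x w : V} (h : Live G H x w) :
    ∃ z, z ≠ x ∧ Live G H w z ∧ ∀ z', z' ≠ x → Live G H w z' → c w z' ≤ c w z := by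
  classical
  obtain ⟨z0, hz0, hl0⟩ := live_next h
  obtain ⟨z, hz, hmax⟩ := Finset.exists_max_image
    ((G.neighborFinset w).filter fun z => z ≠ x ∧ Live G H w z) (fun z => c w z)
    ⟨z0, by
      rw [Finset.mem_filter, SimpleGraph.mem_neighborFinset]
      exact ⟨(live_adj hl0).1, hz0, hl0⟩⟩
  rw [Finset.mem_filter] at hz
  refine ⟨z, hz.2.1, hz.2.2, fun z' h1 h2 => hmax z' ?_⟩
  rw [Finset.mem_filter, SimpleGraph.mem_neighborFinset]
  exact ⟨(live_adj h2).1, h1, h2⟩

private theorem B4_seq (c : V → V → ℤ) {v w : V} (h : Live G H v w) :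
    ∃ y : ℕ → V, y 0 = v ∧ y 1 = w ∧ (∀ i, Live G H (y i) (y (i + 1))) ∧ (∀ i, y (i + 2) ≠ y i) ∧
      ∀ i z, z ≠ y i → Live G H (y (i + 1)) z → c (y (i + 1)) z ≤ c (y (i + 1)) (y (i + 2)) := by
  classical
  let T := {q : V × V // Live G H q.1 q.2}
  have hstep : ∀ q : T, ∃ r : T, r.1.1 = q.1.2 ∧ r.1.2 ≠ q.1.1 ∧
      ∀ z', z' ≠ q.1.1 → Live G H q.1.2 z' → c q.1.2 z' ≤ c q.1.2 r.1.2 := by
    rintro ⟨⟨x, w⟩, hq⟩
    obtain ⟨z, h1, h2, h3⟩ := B4_step c hq
    exact ⟨⟨(w, z), h2⟩, rfl, h1, h3⟩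
  choose F hF1 hF2 hF3 using hstep
  let u : ℕ → T := fun i => F^[i] ⟨(v, w), h⟩
  have hu : ∀ i, u (i + 1) = F (u i) := fun i => by
    simp only [u, Function.iterate_succ_apply']
  have hu1 : ∀ i, (u (i + 1)).1.1 = (u i).1.2 := fun i => by rw [hu, hF1]
  refine ⟨fun i => (u i).1.1, rfl, ?_, ?_, ?_, ?_⟩
  · change (u (0 + 1)).1.1 = w
    rw [hu1]
    rfl
  · intro i
    change Live G H (u i).1.1 (u (i + 1)).1.1
    rw [hu1]
    exact (u i).2
  · intro i
    change (u (i + 1 + 1)).1.1 ≠ (u i).1.1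
    rw [hu1, hu]
    exact hF2 _
  · intro i z hz hl
    change z ≠ (u i).1.1 at hz
    change Live G H (u (i + 1)).1.1 z at hl
    change c (u (i + 1)).1.1 z ≤ c (u (i + 1)).1.1 (u (i + 1 + 1)).1.1
    rw [hu1] at hl ⊢
    rw [hu1 (i + 1), hu i]
    exact hF3 _ z hz hl

theorem greedy (hP : Piece G H π) (A : Finset V) (D : ℕ) (hD : ∀ y ∈ A, G.degree y ≤ D)
    {p : ℕ → V} {n : ℕ} (hp : IsPath G p n) {w : V} (hA : p n ∈ A) (hw : Live G H (p n) w)
    (hmax : ∀ z, Live G H (p n) z → cr p n (p n) z ≤ cr p n (p n) w) :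
    -((D : ℤ) + 1) ≤ cr p n (p n) w ∧ ∃ (S : Finset V) (nxt : V → V), S ⊆ A ∧ p n ∈ S ∧ nxt (p n) = w ∧
      (∀ y ∈ S, Live G H y (nxt y)) ∧ (∀ y ∈ S, nxt y ∈ S ∨ nxt y ∉ A) ∧
      (∀ y ∈ S, nxt y ∈ S → nxt (nxt y) ≠ y) ∧
      ∀ y ∈ S, ∀ z ∈ H, G.Adj y z → cr p n y z ≤ cr p n y (nxt y) + kA A.card D := by
  classical
  obtain ⟨y, hy0, hy1, hlive, hne, hmaxy⟩ := B4_seq (G := G) (H := H) (fun a b => cr p n a b) hw
  -- the stopping index
  have hex : ∃ m, y m ∉ A ∨ ∃ j < m, y m = y j := by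
    by_contra hcon
    push Not at hcon
    have hinj : Function.Injective y := by
      intro i j hij
      rcases lt_trichotomy i j with h | h | h
      · exact absurd hij.symm ((hcon j).2 i h)
      · exact h
      · exact absurd hij ((hcon i).2 j h)
    have hfin : (Set.range y).Finite := A.finite_toSet.subset (by
      rintro _ ⟨i, rfl⟩
      exact (hcon i).1)
    exact Set.infinite_range_of_injective hinj hfin
  obtain ⟨m, hm, hmin⟩ : ∃ m, (y m ∉ A ∨ ∃ j < m, y m = y j) ∧
      ∀ i < m, y i ∈ A ∧ ∀ j < i, y i ≠ y j := by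
    refine ⟨Nat.find hex, Nat.find_spec hex, fun i hi => ?_⟩
    have := Nat.find_min hex hi
    push Not at this
    exact this
  have hm1 : 1 ≤ m := by
    rcases Nat.eq_zero_or_pos m with h | h
    · subst h
      rcases hm with h | ⟨j, hj, _⟩
      · rw [hy0] at h
        exact absurd hA h
      · omega
    · exact h
  have hinj : ∀ i < m, ∀ j < m, y i = y j → i = j := by
    intro i hi j hj hij
    rcases lt_trichotomy i j with h | h | h
    · exact absurd hij.symm ((hmin j hj).2 i h)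
    · exact h
    · exact absurd hij ((hmin i hi).2 j h)
  have hmA : m ≤ A.card := by
    have := Finset.card_le_card_of_injOn (s := Finset.range m) (t := A) y
      (fun i hi => (hmin i (by simpa using hi)).1)
      (fun i hi j hj hij => hinj i (by simpa using hi) j (by simpa using hj) hij)
    simpa using this
  have hadj : ∀ i, G.Adj (y i) (y (i + 1)) := fun i => (live_adj (hlive i)).1
  have hH : ∀ i, y i ∈ H := fun i => (live_adj (hlive i)).2.1
  -- the sums
  have hflow : ∀ i, (-1 : ℤ) ≤ ∑ z ∈ (G.neighborFinset (y i)).filter (· ∈ H), cr p n (y i) z := by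
    intro i
    rw [flow hP hp (hH i)]
    split_ifs <;> norm_num
  have hcard : ∀ i < m, ((G.neighborFinset (y i)).filter (· ∈ H)).card ≤ D := by
    intro i hi
    refine le_trans (Finset.card_le_card (Finset.filter_subset _ _)) ?_
    rw [SimpleGraph.card_neighborFinset_eq_degree]
    exact hD _ (hmin i hi).1
  have hmem : ∀ i z, z ∈ (G.neighborFinset (y i)).filter (· ∈ H) ↔ G.Adj (y i) z ∧ z ∈ H := by
    intro i z
    rw [Finset.mem_filter, SimpleGraph.mem_neighborFinset]
  -- the lower bound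
  have hlow : ∀ i < m, -(((i : ℤ) + 1) * (D + 1)) ≤ cr p n (y i) (y (i + 1)) := by
    intro i
    induction i with
    | zero =>
      intro hi
      have h := B4_lb ((G.neighborFinset (y 0)).filter (· ∈ H)) (fun z => cr p n (y 0) z) D
        (hcard 0 hi) (w0 := y (0 + 1)) ((hmem 0 _).2 ⟨hadj 0, hH 1⟩) ?_ (-1) (hflow 0)
      · push_cast
        rcases h with h | h
        · have h' : (1 : ℤ) < cr p n (y 0) (y (0 + 1)) := h
          nlinarith
        · have h' : (-1 : ℤ) - D ≤ cr p n (y 0) (y (0 + 1)) := h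
          linarith
      · intro z hz _
        rw [hmem] at hz
        by_cases hl : Live G H (y 0) z
        · right
          have h1 := hl
          rw [hy0] at h1
          have := hmax z h1
          change cr p n (y 0) z ≤ cr p n (y 0) (y (0 + 1))
          rw [zero_add, hy0, hy1]
          exact this
        · left
          exact cr_le_one_of_not_live hP hp hz.1 (hH 0) hz.2 hl
    | succ i ih =>
      intro hi
      have ih' := ih (by omega)
      have hprev : y i ∈ (G.neighborFinset (y (i + 1))).filter (· ∈ H) :=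
        (hmem _ _).2 ⟨(hadj i).symm, hH i⟩
      have h := B4_lb (((G.neighborFinset (y (i + 1))).filter (· ∈ H)).erase (y i))
        (fun z => cr p n (y (i + 1)) z) D
        (le_trans (Finset.card_le_card (Finset.erase_subset _ _)) (hcard (i + 1) hi))
        (w0 := y (i + 1 + 1)) ?_ ?_ (-1 + cr p n (y i) (y (i + 1))) ?_
      · push_cast
        rcases h with h | h
        · have h' : (1 : ℤ) < cr p n (y (i + 1)) (y (i + 1 + 1)) := h
          have : (0 : ℤ) ≤ ((i : ℤ) + 1 + 1) * (D + 1) := by positivity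
          linarith
        · have h' : -1 + cr p n (y i) (y (i + 1)) - D ≤ cr p n (y (i + 1)) (y (i + 1 + 1)) := h
          nlinarith
      · rw [Finset.mem_erase]
        exact ⟨hne i, (hmem _ _).2 ⟨hadj (i + 1), hH _⟩⟩
      · intro z hz _
        rw [Finset.mem_erase, hmem] at hz
        by_cases hl : Live G H (y (i + 1)) z
        · right
          exact hmaxy i z hz.1 hl
        · left
          exact cr_le_one_of_not_live hP hp hz.2.1 (hH _) hz.2.2 hl
      · have h1 := Finset.add_sum_erase ((G.neighborFinset (y (i + 1))).filter (· ∈ H))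
          (fun z => cr p n (y (i + 1)) z) hprev
        have h2 := hflow (i + 1)
        have h3 : cr p n (y (i + 1)) (y i) = - cr p n (y i) (y (i + 1)) := cr_symm _ _ _ _
        linarith
  -- the gap
  have hgap : ∀ i < m, ∀ z ∈ H, G.Adj (y i) z →
      cr p n (y i) z ≤ cr p n (y i) (y (i + 1)) + kA A.card D := by
    intro i hi z hz hadjz
    have hl0 := hlow i hi
    have hk : (kA A.card D : ℤ) = (2 * (A.card : ℤ) + 3) * ((D : ℤ) + 1) + 1 := by
      unfold kA
      push_cast
      ring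
    have hD0 : (0 : ℤ) ≤ (D : ℤ) + 1 := by positivity
    have hiA : (i : ℤ) + 1 ≤ A.card := by
      have : i + 1 ≤ A.card := by omega
      exact_mod_cast this
    have hi0 : (0 : ℤ) ≤ (i : ℤ) := Int.natCast_nonneg i
    have hb1 : ((i : ℤ) + 1) * (D + 1) ≤ (A.card : ℤ) * (D + 1) :=
      mul_le_mul_of_nonneg_right hiA hD0
    have hA0 : (0 : ℤ) ≤ (A.card : ℤ) * (D + 1) := by positivity
    rw [hk]
    by_cases hl : Live G H (y i) z
    · rcases Nat.eq_zero_or_pos i with h0 | h0
      · subst h0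
        have h1 := hl
        rw [hy0] at h1
        have h2 := hmax z h1
        rw [zero_add, hy0, hy1]
        nlinarith
      · obtain ⟨k, rfl⟩ : ∃ k, i = k + 1 := ⟨i - 1, by omega⟩
        by_cases hzk : z = y k
        · subst hzk
          have h3 : cr p n (y (k + 1)) (y k) = - cr p n (y k) (y (k + 1)) := cr_symm _ _ _ _
          have h4 := hlow k (by omega)
          have h5 : ((k : ℤ) + 1) * (D + 1) ≤ (A.card : ℤ) * (D + 1) := by
            apply mul_le_mul_of_nonneg_right _ hD0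
            push_cast at hiA
            linarith
          rw [h3]
          nlinarith
        · have h6 : cr p n (y (k + 1)) z ≤ cr p n (y (k + 1)) (y (k + 1 + 1)) := hmaxy k z hzk hl
          nlinarith
    · have h7 := cr_le_one_of_not_live hP hp hadjz (hH i) hz hl
      nlinarith
  -- the choice of the successor
  let nxt : V → V := fun v => if h : ∃ i, i < m ∧ y i = v then y (h.choose + 1) else w
  have hnxt : ∀ i < m, nxt (y i) = y (i + 1) := by
    intro i hi
    have h : ∃ k, k < m ∧ y k = y i := ⟨i, hi, rfl⟩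
    have h1 : nxt (y i) = y (h.choose + 1) := by
      simp only [nxt]
      rw [dif_pos h]
    have h2 := h.choose_spec
    have h3 : h.choose = i := hinj _ h2.1 _ hi h2.2
    rw [h1, h3]
  have hS : ∀ v, v ∈ (Finset.range m).image y ↔ ∃ i < m, y i = v := by
    intro v
    simp [Finset.mem_image, Finset.mem_range]
  refine ⟨?_, (Finset.range m).image y, nxt, ?_, ?_, ?_, ?_, ?_, ?_, ?_⟩
  · have := hlow 0 (by omega)
    rw [zero_add, hy0, hy1] at this
    push_cast at this
    linarith
  · intro v hv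
    obtain ⟨i, hi, rfl⟩ := (hS v).1 hv
    exact (hmin i hi).1
  · exact (hS _).2 ⟨0, by omega, hy0⟩
  · rw [← hy0, hnxt 0 (by omega), zero_add, hy1]
  · intro v hv
    obtain ⟨i, hi, rfl⟩ := (hS v).1 hv
    rw [hnxt i hi]
    exact hlive i
  · intro v hv
    obtain ⟨i, hi, rfl⟩ := (hS v).1 hv
    rw [hnxt i hi]
    by_cases h : i + 1 < m
    · exact Or.inl ((hS _).2 ⟨i + 1, h, rfl⟩)
    · have h1 : i + 1 = m := by omega
      rw [h1]
      rcases hm with h2 | ⟨j, hj, h2⟩
      · exact Or.inr h2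
      · exact Or.inl ((hS _).2 ⟨j, hj, h2.symm⟩)
  · intro v hv hnv
    obtain ⟨i, hi, rfl⟩ := (hS v).1 hv
    rw [hnxt i hi] at hnv ⊢
    obtain ⟨j, hj, hij⟩ := (hS _).1 hnv
    rw [← hij, hnxt j hj]
    intro hcon
    by_cases h : i + 1 < m
    · have h1 : j = i + 1 := hinj _ hj _ h hij
      subst h1
      exact hne i hcon
    · have h1 : i + 1 = m := by omega
      by_cases h2 : j + 1 < m
      · have h3 : j + 1 = i := hinj _ h2 _ hi hcon
        have h4 : y (j + 2) = y j := by
          have : j + 2 = i + 1 := by omega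
          rw [this]
          exact hij.symm
        exact hne j h4
      · have h3 : j = i := by omega
        subst h3
        exact (hadj j).ne hij
  · intro v hv z hz hadjz
    obtain ⟨i, hi, rfl⟩ := (hS v).1 hv
    rw [hnxt i hi]
    exact hgap i hi z hz hadjz

end Pool.Agent.Lib.MP_c171f5_pr.AM
end

section

/-!
# TASK B6: every graph: the walk is trapped or leaves every finite set again and again

PROOF. By countability (`ae_all_iff`) it suffices, for every `N`, that a.e. `x` satisfies `Q x`: `Trap G x` or there is `k ≥ N` with `x k ∉ A`.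
`ae_of_levy` with `good x n := N ≤ n ∧ x n ∈ A`, `δ := dl β A.card D (kA A.card D)`, `D` a bound for the degrees on `A`. `hinf`: if `¬ Q x` then `x k ∈ A` for all
`k ≥ N`. `hF`: let `x` be a path, `n ≥ N`, `x n ∈ A`. Let `w` be such that `Live G univ (x n) w` and `cr x n (x n) w` is maximal among such `w` (`live_exists`; finitely
many since they are neighbours). `greedy` with `H = univ` (`piece_univ`), `p = x`, gives `S`, `nxt`. `hazard` with `rel := fun _ _ => True`, `E := (A : Set V)ᶜ`,
`K := kA A.card D`; `A' := NoDev S nxt rel E n`; `dl β A.card D K ≤ dl β S.card D K` by `dl_anti`. If `y` is a path with `¬ Q y`, `y ∈ cyl x n` and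
`y ∈ NoDev …` then `y k ∈ A` for all `k ≥ N`, so `y` never visits `E` after `n`: no deviation, and `y k ∈ S`, `y (k + 1) = nxt (y k)` for all `k ≥ n` by
induction (`y n = x n ∈ S`; `nxt (y k) ∈ S` or `∉ A`, and `y (k + 1) ∈ A`). By `trap_of_nxt` `Trap G y`, a contradiction.
-/

set_option autoImplicit false

namespace Pool.Agent.Lib.MP_c171f5_pr.AM

open MeasureTheory Filter Set
open scoped ENNReal

variable {V : Type*} [Countable V] [MeasurableSpace V] [DiscreteMeasurableSpace V] [Infinite V]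
  {G : SimpleGraph V} [G.LocallyFinite] {β : ℝ} {v : V} {ν : Measure (ℕ → V)}

theorem conf (hG : G.Connected) (hν : IsLaw G β v ν) (hβ : 0 < β) (A : Finset V) :
    ∀ᵐ x ∂ν, Trap G x ∨ ∀ N, ∃ k ≥ N, x k ∉ A := by
  have key : ∀ N : ℕ, ∀ᵐ x ∂ν, Trap G x ∨ ∃ k ≥ N, x k ∉ A := by
    intro N
    set D : ℕ := A.sup (fun y => G.degree y) with hDdef
    have hD : ∀ y ∈ A, G.degree y ≤ D := fun y hy =>
      Finset.le_sup (f := fun y => G.degree y) hy
    refine ae_of_levy hν (fun x => Trap G x ∨ ∃ k ≥ N, x k ∉ A) (fun x n => N ≤ n ∧ x n ∈ A)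
      ?_ ?_ (dl_pos β A.card D (kA A.card D)) ?_
    · rintro x y n hxy ⟨h1, h2⟩
      exact ⟨h1, by rw [← hxy n le_rfl]; exact h2⟩
    · intro x hQ _ _ N'
      refine ⟨max N N', le_max_right _ _, le_max_left _ _, ?_⟩
      by_contra hc
      exact hQ (Or.inr ⟨max N N', le_max_left _ _, hc⟩)
    · rintro x hQ hx0 hpath n ⟨hn, hxA⟩
      have hfin : {w | Live G univ (x n) w}.Finite := by
        refine (G.neighborFinset (x n)).finite_toSet.subset ?_
        intro w hw
        have := (live_adj hw).1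
        simpa using this
      obtain ⟨w, hw, hmax⟩ := Set.exists_max_image {w | Live G univ (x n) w}
        (fun z => cr x n (x n) z) hfin (live_exists hG (x n))
      obtain ⟨_, S, nxt, hSA, hxS, _, hlive, hnext, hback, hgap⟩ :=
        greedy (piece_univ (G := G)) A D hD (p := x) (n := n) (fun i _ => hpath i) hxA hw
          (fun z hz => hmax z hz)
      refine ⟨NoDev S nxt (fun _ _ => True) ((A : Set V)ᶜ) n, measurableSet_noDev _ _ _ _ _, ?_, ?_⟩
      · intro y hQy hypath hyc hyN
        have hyA : ∀ k, N ≤ k → y k ∈ A := by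
          intro k hk
          by_contra hc
          exact hQy (Or.inr ⟨k, hk, hc⟩)
        have hstep : ∀ k, n ≤ k → y k ∈ S → y (k + 1) = nxt (y k) := by
          intro k hk hkS
          by_contra hc
          refine hyN k hk (fun j hj _ => ?_) ⟨hkS, trivial, hc⟩
          simpa using hyA j (hn.trans hj)
        have hS : ∀ k, n ≤ k → y k ∈ S := by
          intro k hk
          induction k, hk using Nat.le_induction with
          | base => rw [hyc n le_rfl]; exact hxS
          | succ k hk ih =>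
            rw [hstep k hk ih]
            rcases hnext (y k) ih with h | h
            · exact h
            · exfalso
              apply h
              rw [← hstep k hk ih]
              exact hyA (k + 1) (by omega)
        exact hQy (Or.inl (trap_of_nxt hback hypath hS (fun k hk => hstep k hk (hS k hk))))
      · have h1 := hazard hν hβ (S := S) (nxt := nxt) (rel := fun _ _ => True)
          (E := (A : Set V)ᶜ) (K := kA A.card D) (D := D)
          (fun y hy => by simpa using hSA hy) (fun y hy => (live_adj (hlive y hy)).1)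
          (fun y hy => by
            rcases hnext y hy with h | h
            · exact Or.inl h
            · exact Or.inr (by simpa using h))
          (fun y hy hyS => ⟨trivial, hback y hy hyS⟩) (fun y hy => hD y (hSA hy)) (p := x) (n := n)
          (fun y hy z hz _ => hgap y hy z (mem_univ z) hz)
        refine le_trans ?_ h1
        gcongr
        exact dl_anti hβ (Finset.card_le_card hSA) le_rfl _
  filter_upwards [ae_all_iff.2 key] with x hx
  by_cases hT : Trap G x
  · exact Or.inl hT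
  · exact Or.inr fun N => (hx N).resolve_left hT

end Pool.Agent.Lib.MP_c171f5_pr.AM
end

section

/-!
# TASK D2: bounded crossing numbers at `x`: the neighbours of `x` are visited again and again

PROOF. It suffices, for every `N`, that a.e. `ω` satisfies `Q ω`: `¬ Rec x ω` or there is `n ≥ N` with `ω n = z`. `ae_of_levy` with
`good ω n := N ≤ n ∧ ω n = x`, `δ := dl β 1 (G.degree x) 2`. `hF`: `hazard` with `S := {x}`, `nxt := fun _ => z`, `rel := fun _ _ => True`, `E := {z}`, `K := 2`
(`hgap` from `hcr`: `1 ≤ -1 + 2`; `hrev` is empty since `nxt x = z ∉ S`). If `y ∈ cyl ω n ∩ NoDev …` then `y n = x ≠ z`, so the step at time `n` is no deviation: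
`y (n + 1) = z`, so `Q y`.
-/

set_option autoImplicit false

namespace Pool.Agent.Lib.MP_c171f5_pr.AM

open MeasureTheory Filter Set
open scoped ENNReal

variable {V : Type*} [Countable V] [MeasurableSpace V] [DiscreteMeasurableSpace V]
  {G : SimpleGraph V} [G.LocallyFinite] {β : ℝ} {v : V} {ν : Measure (ℕ → V)}

theorem step_rec (hν : IsLaw G β v ν) (hβ : 0 < β) {x z : V} (hxz : G.Adj x z)
    (hcr : ∀ p n, IsPath G p n → ∀ w, G.Adj x w → -1 ≤ cr p n x w ∧ cr p n x w ≤ 1) :
    ∀ᵐ ω ∂ν, ¬ Rec x ω ∨ Rec z ω := by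
  have key : ∀ N : ℕ, ∀ᵐ ω ∂ν, (¬ Rec x ω ∨ ∃ n ≥ N, ω n = z) := by
    intro N
    refine ae_of_levy hν (fun ω => ¬ Rec x ω ∨ ∃ n ≥ N, ω n = z)
      (fun ω n => N ≤ n ∧ ω n = x) ?_ ?_ (dl_pos β 1 (G.degree x) 2) ?_
    · rintro a b n hab ⟨h1, h2⟩
      exact ⟨h1, by rw [← hab n le_rfl, h2]⟩
    · intro ω hQ _ _ N'
      have hrec : Rec x ω := by
        by_contra hcon
        exact hQ (Or.inl hcon)
      obtain ⟨n, hn, hx⟩ := hrec (max N N')
      exact ⟨n, le_trans (le_max_right _ _) hn, le_trans (le_max_left _ _) hn, hx⟩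
    · intro ω _ _ hadj n hgood
      obtain ⟨hNn, hωn⟩ := hgood
      refine ⟨NoDev {x} (fun _ => z) (fun _ _ => True) {z} n, measurableSet_noDev _ _ _ _ _, ?_, ?_⟩
      · intro y hQy _ hcy hy
        have hyn : y n = x := by rw [hcy n le_rfl, hωn]
        apply hQy
        right
        refine ⟨n + 1, by omega, ?_⟩
        have h1 := hy n le_rfl (by
          intro j hj1 hj2 hj3
          have hjn : j = n := le_antisymm hj2 hj1
          rw [hjn, hyn] at hj3
          exact hxz.ne hj3)
        by_contra hne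
        exact h1 ⟨by rw [hyn]; exact Finset.mem_singleton_self x, trivial, hne⟩
      · have h1 := hazard (β := β) hν hβ (S := {x}) (nxt := fun _ => z) (rel := fun _ _ => True)
          (E := {z}) (K := 2) (D := G.degree x)
          (by
            intro y hy hyz
            rw [Finset.mem_singleton.mp hy] at hyz
            exact hxz.ne hyz)
          (by
            intro y hy
            rw [Finset.mem_singleton.mp hy]
            exact hxz)
          (fun y _ => Or.inr rfl)
          (by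
            intro y hy hz
            exact absurd (Finset.mem_singleton.mp hz).symm hxz.ne)
          (by
            intro y hy
            rw [Finset.mem_singleton.mp hy])
          (p := ω) (n := n)
          (by
            intro y hy w hw _
            rw [Finset.mem_singleton.mp hy] at hw ⊢
            have hpath : IsPath G ω n := fun i _ => hadj i
            have h2 := (hcr ω n hpath w hw).2
            have h3 := (hcr ω n hpath z hxz).1
            show cr ω n x w ≤ cr ω n x z + ((2 : ℕ) : ℤ)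
            push_cast
            omega)
        rw [Finset.card_singleton] at h1
        exact h1
  filter_upwards [ae_all_iff.mpr key] with ω hω
  by_cases hrec : Rec x ω
  · right
    intro N
    rcases hω N with h | h
    · exact absurd hrec h
    · exact h
  · exact Or.inl hrec

end Pool.Agent.Lib.MP_c171f5_pr.AM
end

section

/-!
# TASK D1: the winner at a vertex, finite version

`x` is a vertex; every neighbour `z` of `x` has a piece `Hs z ∋ x, z`, and a finite set `As z`; some neighbour `z₀` has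
`Live G (Hs z₀) x w₀` for some `w₀`.
PROOF. `ae_of_levy` with `Q ω := Trap G ω ∨ ¬ Rec x ω ∨ (∃ z, G.Adj x z ∧ ∃ n, ω n ∈ Hs z ∧ ω n ∉ As z) ∨ ∃ z w, G.Adj x z ∧ Live G (Hs z) x w ∧ ∃ N, ∀ n ≥ N, ω n = x → ω (n + 1) = w`,
`good ω n := ω n = x`. `hinf`: `¬ Q ω` gives `Rec x ω`. `δ`: let `D` bound the degrees on the finite union `B` of `{x}` and the `As z`,
`a := B.card`; `δ := dl β a D (kA a D)`. `hF`: let `ω n = x` (if `ν (cyl ω n) = 0` take `A = ∅`... it is along edges anyway: `IsPath G ω n`). Among the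
pairs `(z, w)`, `G.Adj x z`, `Live G (Hs z) x w` (finitely many, there is one) take one with the largest `cr ω n x w`. `H := Hs z`, `A' := insert x (As z)`.
`greedy` for `H`, `A'`, `p = ω` (`hmax` by the choice) gives `S`, `nxt`, `nxt x = w`. `hazard` with `rel y y' := y' ∈ H ∨ y = x`, `E := H \ A'`,
`K := kA A'.card D`. `hnext`: `nxt y ∈ H` (`live_adj`), so `nxt y ∉ A'` gives `nxt y ∈ E`. `hrev`: `y ∈ H` by `live_adj`. `hgap`: for `z' ∈ H` from `greedy`; for `y = x`,
`z' ∉ H`, a neighbour of `x`: if `Live G (Hs z') x z'` then `cr ω n x z' ≤ cr ω n x w` by the choice; otherwise `cr ω n x z' ≤ 1`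
(`cr_le_one_of_not_live`) and `cr ω n x w ≥ -(D + 1)`, `kA ≥ D + 2`. Compare `dl` for `S.card ≤ a` (`dl_anti`) and `kA` (replace `K` by `kA a D` in `hazard`:
the gap condition is weaker). Let `A := NoDev S nxt rel E n`. If `y` is along edges, `¬ Q y`, `y ∈ cyl ω n ∩ A`: `y` never visits `E` (third alternative of `Q`), so
there is no deviation after `n`: `y k = x` implies `y (k + 1) = nxt x = w` for `k ≥ n` (`x ∈ S`, `rel x _`): the last alternative of `Q`.
-/

set_option autoImplicit false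

namespace Pool.Agent.Lib.MP_c171f5_pr.AM

open MeasureTheory Filter Set
open scoped ENNReal

variable {V : Type*} [Countable V] [MeasurableSpace V] [DiscreteMeasurableSpace V]
  {G : SimpleGraph V} [G.LocallyFinite] {β : ℝ} {v : V} {ν : Measure (ℕ → V)}

private theorem d1_kA {a a' D : ℕ} (h : a ≤ a') : kA a D ≤ kA a' D := by
  unfold kA
  gcongr

private theorem d1_kA2 (a D : ℕ) : D + 2 ≤ kA a D := by
  unfold kA
  nlinarith [Nat.zero_le a, Nat.zero_le D, Nat.zero_le (a * D)]

theorem winner_fin (hν : IsLaw G β v ν) (hβ : 0 < β) (x : V) (Hs : V → Set V) (As : V → Finset V)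
    (hp : ∀ z, G.Adj x z → x ∈ Hs z ∧ z ∈ Hs z ∧ ∃ π, Piece G (Hs z) π)
    (hlive : ∃ z w, G.Adj x z ∧ Live G (Hs z) x w) :
    ∀ᵐ ω ∂ν, Trap G ω ∨ ¬ Rec x ω ∨ (∃ z, G.Adj x z ∧ ∃ n, ω n ∈ Hs z ∧ ω n ∉ As z) ∨
      ∃ z w, G.Adj x z ∧ Live G (Hs z) x w ∧ ∃ N, ∀ n ≥ N, ω n = x → ω (n + 1) = w := by
  classical
  set B : Finset V := insert x ((G.neighborFinset x).biUnion As) with hB
  obtain ⟨D, hD⟩ : ∃ D : ℕ, ∀ y ∈ B, G.degree y ≤ D :=
    ⟨B.sup fun y => G.degree y, fun y hy => Finset.le_sup (f := fun y => G.degree y) hy⟩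
  refine ae_of_levy hν _ (fun ω n => ω n = x) (fun ω ω' n h h' => (h n le_rfl).symm.trans h') ?_
    (dl_pos β B.card D (kA B.card D)) ?_
  · intro ω hQ _ _ N
    have h1 : Rec x ω := by
      by_contra h2
      exact hQ (Or.inr (Or.inl h2))
    exact h1 N
  · intro ω _ _ hpath n hn
    have hpn : IsPath G ω n := fun i _ => hpath i
    -- choice of the pair
    set C : Finset (V × V) := ((G.neighborFinset x) ×ˢ (G.neighborFinset x)).filter
      (fun q => Live G (Hs q.1) x q.2) with hC
    have hCmem : ∀ z w, (z, w) ∈ C ↔ G.Adj x z ∧ Live G (Hs z) x w := by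
      intro z w
      rw [hC, Finset.mem_filter, Finset.mem_product, SimpleGraph.mem_neighborFinset,
        SimpleGraph.mem_neighborFinset]
      constructor
      · rintro ⟨⟨h1, _⟩, h2⟩
        exact ⟨h1, h2⟩
      · rintro ⟨h1, h2⟩
        exact ⟨⟨h1, (live_adj h2).1⟩, h2⟩
    have hCne : C.Nonempty := by
      obtain ⟨z, w, h1, h2⟩ := hlive
      exact ⟨(z, w), (hCmem z w).2 ⟨h1, h2⟩⟩
    obtain ⟨⟨z, w⟩, hzw, hmax⟩ := Finset.exists_max_image C (fun q => cr ω n x q.2) hCne
    obtain ⟨hxz, hlw⟩ := (hCmem z w).1 hzw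
    have hmax' : ∀ z' w', G.Adj x z' → Live G (Hs z') x w' → cr ω n x w' ≤ cr ω n x w :=
      fun z' w' h1 h2 => hmax (z', w') ((hCmem z' w').2 ⟨h1, h2⟩)
    obtain ⟨hxH, _, π, hP⟩ := hp z hxz
    have hAB : insert x (As z) ⊆ B := by
      rw [hB]
      apply Finset.insert_subset_insert
      intro y hy
      exact Finset.mem_biUnion.2 ⟨z, (SimpleGraph.mem_neighborFinset _ _ _).2 hxz, hy⟩
    obtain ⟨hlow, S, nxt, hSA, hxS, hnx, hlv, hns, hnn, hgap⟩ :=
      greedy hP (insert x (As z)) D (fun y hy => hD y (hAB hy)) hpn (w := w)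
        (by rw [hn]; exact Finset.mem_insert_self _ _) (by rw [hn]; exact hlw)
        (by
          intro z' hz'
          rw [hn] at hz' ⊢
          exact hmax' z z' hxz hz')
    rw [hn] at hlow hxS hnx
    set E : Set V := Hs z \ (insert x (As z) : Finset V) with hE
    set rel : V → V → Prop := fun y y' => y' ∈ Hs z ∨ y = x with hrel
    refine ⟨NoDev S nxt rel E n, measurableSet_noDev _ _ _ _ _, ?_, ?_⟩
    · intro y hQy _ hy hyA
      apply hQy
      right; right; right
      refine ⟨z, w, hxz, hlw, n, ?_⟩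
      intro k hk hkx
      have hnd := hyA k hk (by
        intro j _ _ hj
        apply hQy
        right; right; left
        refine ⟨z, hxz, j, hj.1, ?_⟩
        intro hj2
        exact hj.2 (Finset.mem_coe.2 (Finset.mem_insert_of_mem hj2)))
      by_contra hne
      apply hnd
      refine ⟨by rw [hkx]; exact hxS, Or.inr hkx, ?_⟩
      rw [hkx, hnx]
      exact hne
    · have hcard : S.card ≤ B.card := Finset.card_le_card (hSA.trans hAB)
      refine le_trans ?_ (hazard hν hβ (S := S) (nxt := nxt) (rel := rel) (E := E) (K := kA B.card D) (D := D)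
        ?_ ?_ ?_ ?_ ?_ ?_)
      · gcongr
        exact dl_anti hβ hcard le_rfl _
      · intro y hy hyE
        exact hyE.2 (Finset.mem_coe.2 (hSA hy))
      · intro y hy
        exact (live_adj (hlv y hy)).1
      · intro y hy
        rcases hns y hy with h1 | h1
        · exact Or.inl h1
        · exact Or.inr ⟨(live_adj (hlv y hy)).2.2, fun h2 => h1 (Finset.mem_coe.1 h2)⟩
      · intro y hy h1
        exact ⟨Or.inl (live_adj (hlv y hy)).2.1, hnn y hy h1⟩
      · intro y hy
        exact hD y (hAB (hSA hy))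
      · intro y hy z' hyz' hr
        have hk1 : (kA (insert x (As z)).card D : ℤ) ≤ (kA B.card D : ℤ) := by
          exact_mod_cast d1_kA (Finset.card_le_card hAB)
        by_cases hzH : z' ∈ Hs z
        · have h1 := hgap y hy z' hzH hyz'
          linarith
        · have hyx : y = x := hr.resolve_left hzH
          subst hyx
          rw [hnx]
          by_cases hl : Live G (Hs z') y z'
          · have h1 := hmax' z' z' hyz' hl
            have h2 : (0 : ℤ) ≤ (kA B.card D : ℤ) := Int.natCast_nonneg _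
            linarith
          · obtain ⟨h1, h2, π', h3⟩ := hp z' hyz'
            have h4 := cr_le_one_of_not_live h3 hpn hyz' h1 h2 hl
            have h5 : ((D + 2 : ℕ) : ℤ) ≤ (kA B.card D : ℤ) := by
              exact_mod_cast d1_kA2 B.card D
            push_cast at h5
            linarith

end Pool.Agent.Lib.MP_c171f5_pr.AM
end
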