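import Pool.Agent.Lib.MP_c171f5_pr.Mg.G001
import Pool.Agent.Lib.MP_c171f5_pr.Mg.G003

section

/-!
# TASK T2: the harmonic function of a path in a tree, one step

`r 0 = v, r 1, …, r M` is an injective path in the tree `G`; `J a` is the number of `j`, `1 ≤ j ≤ M`, with `a` on the side of `r j` of the edge
`r (j - 1), r j`; `f a = exp (-β J a)`.
`J_start`: `r 0 ∉ side (r (j-1)) (r j)`: walk back from `r (j - 1)` to `r 0`, avoiding the edge; so otherwise `r (j - 1)` would be on this side, against
`not_mem_side`. `J_path`: `r i` is on the side of `r j` iff `j ≤ i` (walk along the path, `side_iff`, `not_mem_side`).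
`J_off`: an edge `a b` which is no edge of the path `r`: all memberships agree (`side_iff`).
`f_step`: the walk is at `x = p n`, `x ≠ v = p 0`, `x ≠ r M`. Let `z₀` be the neighbour of `x` with `v ∈ side x z₀` (`toward`). By `tree_cr` (`p n = x ∉ side x z`)
`cr p n x z₀ = -1` and `cr p n x z = 0` for the other neighbours. So with `d = G.degree x`: `pr z₀ = e^(-β) / (e^(-β) + d - 1)`,
`pr z = 1 / (e^(-β) + d - 1)` for the others. If `x` is not on the path `r`, then `f z = f x` for all neighbours `z` (`J_off`), and `∑ pr z = 1`.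
If `x = r j`, `1 ≤ j < M`: `z₀ = r (j - 1)` (`v ∈ side (r j) (r (j - 1))`: walk back along the path; uniqueness in `toward`), `f (r (j - 1)) = e^β f x`,
`f (r (j + 1)) = e^(-β) f x`, and `f z = f x` for the other `d - 2` neighbours (`J_off`; `z` is no neighbour of `x` along `r`). The sum is
`f x (e^(-β) e^β + e^(-β) + d - 2) / (e^(-β) + d - 1) = f x`.
-/

set_option autoImplicit false

namespace Pool.Agent.Lib.MP_c171f5_pr.AM

open MeasureTheory Filter Set

variable {V : Type*} {G : SimpleGraph V}

open Classical in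
/-- the number of edges of the path `r 0, …, r M` which separate `a` from `r 0` -/
noncomputable def J (G : SimpleGraph V) (r : ℕ → V) (M : ℕ) (a : V) : ℕ :=
  ((Finset.range M).filter fun j => a ∈ side G (r j) (r (j + 1))).card

private theorem T2_mem_iff (hG : ∀ l u, ¬ IsCircuit G l u) {r : ℕ → V} {M : ℕ}
    (hr : ∀ i < M, G.Adj (r i) (r (i + 1)))
    (hinj : ∀ i ≤ M, ∀ j ≤ M, r i = r j → i = j) {i j : ℕ} (hi : i ≤ M) (hj : j < M) :
    r i ∈ side G (r j) (r (j + 1)) ↔ j < i := by
  have hdown : ∀ k, k ≤ j → r (j - k) ∉ side G (r j) (r (j + 1)) := by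
    intro k
    induction k with
    | zero => intro _; exact not_mem_side hG (hr j hj)
    | succ k ih =>
      intro hk hmem
      apply ih (by omega)
      have hadj := hr (j - (k + 1)) (by omega)
      have e : j - (k + 1) + 1 = j - k := by omega
      rw [e] at hadj
      refine (side_iff hadj ?_ ?_).1 hmem
      · rintro ⟨h1, -⟩
        have := hinj _ (by omega) _ (by omega) h1
        omega
      · rintro ⟨h1, -⟩
        have := hinj _ (by omega) _ (by omega) h1
        omega
  have hup : ∀ k, j + 1 + k ≤ M → r (j + 1 + k) ∈ side G (r j) (r (j + 1)) := by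
    intro k
    induction k with
    | zero => intro _; exact mem_side_self _ _
    | succ k ih =>
      intro hk
      have hadj := hr (j + 1 + k) (by omega)
      refine (side_iff hadj ?_ ?_).1 (ih (by omega))
      · rintro ⟨h1, -⟩
        have := hinj _ (by omega) _ (by omega) h1
        omega
      · rintro ⟨-, h1⟩
        have := hinj _ (by omega) _ (by omega) h1
        omega
  constructor
  · intro h
    by_contra hcon
    have := hdown (j - i) (by omega)
    have e : j - (j - i) = i := by omega
    rw [e] at this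
    exact this h
  · intro h
    have := hup (i - (j + 1)) (by omega)
    have e : j + 1 + (i - (j + 1)) = i := by omega
    rwa [e] at this

theorem J_start (hG : ∀ l u, ¬ IsCircuit G l u) {r : ℕ → V} {M : ℕ} (hr : ∀ i < M, G.Adj (r i) (r (i + 1)))
    (hinj : ∀ i ≤ M, ∀ j ≤ M, r i = r j → i = j) : J G r M (r 0) = 0 := by
  classical
  unfold J
  rw [Finset.card_eq_zero, Finset.filter_eq_empty_iff]
  intro j hj h
  rw [T2_mem_iff hG hr hinj (Nat.zero_le _) (Finset.mem_range.1 hj)] at h
  omega

theorem J_path (hG : ∀ l u, ¬ IsCircuit G l u) {r : ℕ → V} {M : ℕ} (hr : ∀ i < M, G.Adj (r i) (r (i + 1)))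
    (hinj : ∀ i ≤ M, ∀ j ≤ M, r i = r j → i = j) {i : ℕ} (hi : i ≤ M) : J G r M (r i) = i := by
  classical
  unfold J
  have h : ((Finset.range M).filter fun j => r i ∈ side G (r j) (r (j + 1))) = Finset.range i := by
    ext j
    simp only [Finset.mem_filter, Finset.mem_range]
    constructor
    · rintro ⟨hj, h⟩
      exact (T2_mem_iff hG hr hinj hi hj).1 h
    · intro h
      exact ⟨by omega, (T2_mem_iff hG hr hinj hi (by omega)).2 h⟩
  rw [h, Finset.card_range]

theorem J_off {r : ℕ → V} {M : ℕ} {a b : V} (h : G.Adj a b)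
    (hab : ∀ i < M, ¬ (a = r i ∧ b = r (i + 1)) ∧ ¬ (a = r (i + 1) ∧ b = r i)) :
    J G r M a = J G r M b := by
  classical
  unfold J
  congr 1
  apply Finset.filter_congr
  intro j hj
  exact side_iff h (hab j (Finset.mem_range.1 hj)).1 (hab j (Finset.mem_range.1 hj)).2

theorem f_step [G.LocallyFinite] (hG : ∀ l u, ¬ IsCircuit G l u) (hc : G.Connected) {β : ℝ}
    {r : ℕ → V} {M : ℕ} (hr : ∀ i < M, G.Adj (r i) (r (i + 1)))
    (hinj : ∀ i ≤ M, ∀ j ≤ M, r i = r j → i = j)
    {p : ℕ → V} {n : ℕ} (hp : IsPath G p n) (h0 : p 0 = r 0) (hx0 : p n ≠ r 0) (hxM : p n ≠ r M) :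
    ∑ z ∈ G.neighborFinset (p n), pr G β p n z * Real.exp (-(β * J G r M z)) ≤
      Real.exp (-(β * J G r M (p n))) := by
  classical
  set x := p n with hx
  obtain ⟨z0, ⟨hz0, hv0⟩, huniq⟩ := toward hG hc (x := x) (v := r 0) hx0
  have hcr : ∀ z, G.Adj x z → cr p n x z = if z = z0 then -1 else 0 := by
    intro z hz
    rw [tree_cr hG hp hz, h0, if_neg (not_mem_side hG hz)]
    by_cases hzz : z = z0
    · rw [if_pos hzz, hzz, if_pos hv0]; norm_num
    · rw [if_neg hzz, if_neg]
      · norm_num
      · intro hmem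
        exact hzz (huniq z ⟨hz, hmem⟩)
  set f : V → ℝ := fun z => Real.exp (-(β * J G r M z)) with hf
  set N := G.neighborFinset x with hN
  have hz0N : z0 ∈ N := by rw [hN, SimpleGraph.mem_neighborFinset]; exact hz0
  have hD : 0 < ∑ z ∈ N, Real.exp (β * cr p n x z) :=
    Finset.sum_pos (fun z _ => Real.exp_pos _) ⟨z0, hz0N⟩
  have hkey : ∑ z ∈ N, Real.exp (β * cr p n x z) * (f z - f x) = 0 := by
    by_cases hon : ∃ j, j ≤ M ∧ x = r j
    · obtain ⟨j, hjM, hxj⟩ := hon
      have hj0 : j ≠ 0 := by
        rintro rfl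
        exact hx0 hxj
      have hjM' : j ≠ M := by
        rintro rfl
        exact hxM hxj
      have hjlt : j < M := lt_of_le_of_ne hjM hjM'
      have hadj1 : G.Adj x (r (j - 1)) := by
        have := hr (j - 1) (by omega)
        have e : j - 1 + 1 = j := by omega
        rw [e] at this
        rw [hxj]
        exact this.symm
      have hadj2 : G.Adj x (r (j + 1)) := by
        rw [hxj]
        exact hr j hjlt
      have hback : ∀ k, k ≤ j - 1 → r (j - 1 - k) ∈ side G x (r (j - 1)) := by
        intro k
        induction k with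
        | zero => intro _; exact mem_side_self _ _
        | succ k ih =>
          intro hk
          have hadj := hr (j - 1 - (k + 1)) (by omega)
          have e : j - 1 - (k + 1) + 1 = j - 1 - k := by omega
          rw [e] at hadj
          refine (side_iff hadj ?_ ?_).2 (ih (by omega))
          · rintro ⟨h1, -⟩
            rw [hxj] at h1
            have := hinj _ (by omega) _ (by omega) h1
            omega
          · rintro ⟨h1, -⟩
            have := hinj _ (by omega) _ (by omega) h1
            omega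
      have hz0e : r (j - 1) = z0 := by
        apply huniq
        refine ⟨hadj1, ?_⟩
        have := hback (j - 1) le_rfl
        rwa [Nat.sub_self] at this
      have hne : r (j - 1) ≠ r (j + 1) := by
        intro h
        have := hinj _ (by omega) _ (by omega) h
        omega
      have hoff : ∀ z ∈ N, z ∉ ({r (j - 1), r (j + 1)} : Finset V) →
          Real.exp (β * cr p n x z) * (f z - f x) = 0 := by
        intro z hz hz2
        rw [hN, SimpleGraph.mem_neighborFinset] at hz
        simp only [Finset.mem_insert, Finset.mem_singleton, not_or] at hz2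
        have : J G r M x = J G r M z := by
          apply J_off hz
          intro i hi
          constructor
          · rintro ⟨h1, h2⟩
            rw [hxj] at h1
            have h3 := hinj _ (by omega) _ (by omega) h1
            subst h3
            exact hz2.2 h2
          · rintro ⟨h1, h2⟩
            rw [hxj] at h1
            have h3 := hinj _ (by omega) _ (by omega) h1
            subst h3
            exact hz2.1 (by rw [h2]; rfl)
        rw [hf]
        simp only
        rw [this, sub_self, mul_zero]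
      have hsub : ({r (j - 1), r (j + 1)} : Finset V) ⊆ N := by
        intro z hz
        simp only [Finset.mem_insert, Finset.mem_singleton] at hz
        rw [hN, SimpleGraph.mem_neighborFinset]
        rcases hz with rfl | rfl
        · exact hadj1
        · exact hadj2
      rw [← Finset.sum_subset hsub hoff, Finset.sum_pair hne]
      rw [hcr _ hadj1, hcr _ hadj2, if_pos hz0e, if_neg (by rw [← hz0e]; exact hne.symm)]
      have e1 : J G r M (r (j - 1)) = j - 1 := J_path hG hr hinj (by omega)
      have e2 : J G r M (r (j + 1)) = j + 1 := J_path hG hr hinj (by omega)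
      have e3 : J G r M x = j := by rw [hxj]; exact J_path hG hr hinj (by omega)
      rw [hf]
      simp only
      rw [e1, e2, e3]
      obtain ⟨k, rfl⟩ : ∃ k, j = k + 1 := ⟨j - 1, by omega⟩
      push_cast
      try simp only [Nat.add_sub_cancel]
      have h1 : Real.exp (β * (-1 : ℝ)) * Real.exp (-(β * (k : ℝ))) = Real.exp (-(β * ((k : ℝ) + 1))) := by
        rw [← Real.exp_add]; congr 1; ring
      have h2 : Real.exp (β * (-1 : ℝ)) * Real.exp (-(β * ((k : ℝ) + 1))) =
          Real.exp (-(β * ((k : ℝ) + 1 + 1))) := by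
        rw [← Real.exp_add]; congr 1; ring
      rw [mul_zero, Real.exp_zero]
      have h3 : Real.exp (β * (-1 : ℝ)) * (Real.exp (-(β * (k : ℝ))) - Real.exp (-(β * ((k : ℝ) + 1)))) =
          Real.exp (-(β * ((k : ℝ) + 1))) - Real.exp (-(β * ((k : ℝ) + 1 + 1))) := by
        rw [mul_sub, h1, h2]
      rw [h3]
      ring
    · apply Finset.sum_eq_zero
      intro z hz
      rw [hN, SimpleGraph.mem_neighborFinset] at hz
      have : J G r M x = J G r M z := by
        apply J_off hz
        intro i hi
        constructor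
        · rintro ⟨h1, -⟩
          exact hon ⟨i, by omega, h1⟩
        · rintro ⟨h1, -⟩
          exact hon ⟨i + 1, by omega, h1⟩
      rw [hf]
      simp only
      rw [this, sub_self, mul_zero]
  have hsum : ∑ z ∈ N, Real.exp (β * cr p n x z) * f z =
      (∑ z ∈ N, Real.exp (β * cr p n x z)) * f x := by
    have h1 : ∑ z ∈ N, Real.exp (β * cr p n x z) * (f z - f x) =
        ∑ z ∈ N, Real.exp (β * cr p n x z) * f z - (∑ z ∈ N, Real.exp (β * cr p n x z)) * f x := by
      rw [Finset.sum_mul, ← Finset.sum_sub_distrib]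
      apply Finset.sum_congr rfl
      intro z _
      ring
    rw [hkey] at h1
    linarith
  have hpr : ∀ z ∈ N, pr G β p n z * f z =
      (Real.exp (β * cr p n x z) * f z) / ∑ z ∈ N, Real.exp (β * cr p n x z) := by
    intro z hz
    have hz' : G.Adj (p n) z := by
      rw [hN, SimpleGraph.mem_neighborFinset] at hz
      exact hz
    unfold pr
    rw [if_pos hz']
    ring
  have hfin : ∑ z ∈ N, pr G β p n z * f z = f x := by
    rw [Finset.sum_congr rfl hpr, ← Finset.sum_div, hsum]
    field_simp
  exact hfin.le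

end Pool.Agent.Lib.MP_c171f5_pr.AM
end

section

/-!
# TASK T3: in a tree the start vertex is visited only finitely often

`hit`: for `r`, `M` as in T2 with `r 0 = v`, a history `q`, `k` with `q 0 = v`, `IsPath G q k` and `G.dist v (q k) + t < M`:
`ν (cyl q k ∩ {x | ∃ j, k ≤ j ∧ j ≤ k + t ∧ x j = v}) ≤ ofReal (exp (-β J (q k))) * ν (cyl q k)`. Induction on `t` (for all `q`, `k`). If `q k = v` the right side is
`ν (cyl q k)` (`J_start`). Otherwise: `t = 0`: the left side is `0`. `t + 1`: the event is `∃ j, k + 1 ≤ j ≤ k + 1 + t, x j = v`; `cyl_inter_eq_sum`, for each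
neighbour `z` of `q k` the induction hypothesis for `update q (k + 1) z`, `k + 1` (`G.dist v z ≤ G.dist v (q k) + 1`) and `cyl_update`; then `f_step`
(`q k ≠ r M` since `G.dist v (r M) = M`, see below). Here `r` is a shortest path, so `G.dist v (r i) = i`.
`no_return`: let `p n = v`, `p 0 = v`. Let `t` be given. Take a vertex at distance `M = t + 3` from `v` (balls are finite: `ball_finite`) and a shortest path `r` to it.
`cyl_inter_eq_sum` for the event `∀ j, n < j → j ≤ n + 1 + t → x j ≠ v`; the term of `z = r 1` is at least `(1 - e^(-β)) ν (cyl (update p (n + 1) (r 1)) (n + 1))` by `hit`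
(`J (r 1) = 1`, `J_path`), and this cylinder has measure `ν (cyl p n) * ofReal (pr (r 1))`, `pr (r 1) = 1 / G.degree v`: by `tree_cr` all `cr p n v z` are `0`
(`p n = p 0 = v`). So for all `t` the event has at least `(1 - e^(-β)) / G.degree v` of the measure of `cyl p n`; continuity from above.
`tree_start`: `ae_of_levy` with `Q ω := ¬ Rec v ω`, `good ω n := ω n = v`, `A := {x | ∀ j > n, x j ≠ v}` (measurable).
-/

set_option autoImplicit false

namespace Pool.Agent.Lib.MP_c171f5_pr.AM

open MeasureTheory Filter Set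
open scoped ENNReal

variable {V : Type*} [Countable V] [MeasurableSpace V] [DiscreteMeasurableSpace V]
  {G : SimpleGraph V} [G.LocallyFinite] {β : ℝ} {v : V} {ν : Measure (ℕ → V)}

omit [Countable V] [MeasurableSpace V] [DiscreteMeasurableSpace V] [G.LocallyFinite] in
private theorem T3_path {q : ℕ → V} {k : ℕ} {z : V} (hq : IsPath G q k) (hz : G.Adj (q k) z) :
    IsPath G (Function.update q (k + 1) z) (k + 1) := by
  intro i hi
  rcases Nat.lt_succ_iff_lt_or_eq.1 hi with h | h
  · rw [Function.update_of_ne (by omega), Function.update_of_ne (by omega)]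
    exact hq i h
  · subst h
    rw [Function.update_of_ne (by omega), Function.update_self]
    exact hz

private theorem T3_meas_ex (a b : ℕ) (v : V) :
    MeasurableSet {x : ℕ → V | ∃ j, a ≤ j ∧ j ≤ b ∧ x j = v} := by
  refine measurableSet_of_dep b fun x y h => ?_
  constructor
  · rintro ⟨j, h1, h2, h3⟩
    exact ⟨j, h1, h2, by rw [← h j h2, h3]⟩
  · rintro ⟨j, h1, h2, h3⟩
    exact ⟨j, h1, h2, by rw [h j h2, h3]⟩

theorem hit (hν : IsLaw G β v ν) (hβ : 0 < β) (hG : ∀ l u, ¬ IsCircuit G l u) (hc : G.Connected)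
    {r : ℕ → V} {M : ℕ} (hr : ∀ i < M, G.Adj (r i) (r (i + 1))) (hr0 : r 0 = v)
    (hdist : ∀ i ≤ M, G.dist v (r i) = i) (t : ℕ) (q : ℕ → V) (k : ℕ) (h0 : q 0 = v) (hq : IsPath G q k)
    (ht : G.dist v (q k) + t < M) :
    ν (cyl q k ∩ {x | ∃ j, k ≤ j ∧ j ≤ k + t ∧ x j = v}) ≤
      ENNReal.ofReal (Real.exp (-(β * J G r M (q k)))) * ν (cyl q k) := by
  have hinj : ∀ i ≤ M, ∀ j ≤ M, r i = r j → i = j := by
    intro i hi j hj h
    rw [← hdist i hi, ← hdist j hj, h]
  induction t generalizing q k with
  | zero =>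
    by_cases hqv : q k = v
    · rw [hqv, ← hr0, J_start hG hr hinj]
      simp only [Nat.cast_zero, mul_zero, neg_zero, Real.exp_zero, ENNReal.ofReal_one, one_mul]
      exact measure_mono inter_subset_left
    · have he : cyl q k ∩ {x | ∃ j, k ≤ j ∧ j ≤ k + 0 ∧ x j = v} = ∅ := by
        rw [eq_empty_iff_forall_notMem]
        rintro x ⟨h1, j, h2, h3, h4⟩
        obtain rfl : j = k := by omega
        exact hqv ((h1 j le_rfl).symm.trans h4)
      rw [he, measure_empty]
      exact zero_le
  | succ t ih =>
    by_cases hqv : q k = v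
    · rw [hqv, ← hr0, J_start hG hr hinj]
      simp only [Nat.cast_zero, mul_zero, neg_zero, Real.exp_zero, ENNReal.ofReal_one, one_mul]
      exact measure_mono inter_subset_left
    · have hsub : cyl q k ∩ {x | ∃ j, k ≤ j ∧ j ≤ k + (t + 1) ∧ x j = v} ⊆
          cyl q k ∩ {x | ∃ j, k + 1 ≤ j ∧ j ≤ k + 1 + t ∧ x j = v} := by
        rintro x ⟨h1, j, h2, h3, h4⟩
        refine ⟨h1, j, ?_, by omega, h4⟩
        rcases h2.eq_or_lt with h | h
        · subst h
          exact absurd ((h1 k le_rfl).symm.trans h4) hqv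
        · exact h
      refine (measure_mono hsub).trans ?_
      rw [cyl_inter_eq_sum hν q k _ (T3_meas_ex _ _ _)]
      have hz : ∀ z ∈ G.neighborFinset (q k),
          ν (cyl (Function.update q (k + 1) z) (k + 1) ∩ {x | ∃ j, k + 1 ≤ j ∧ j ≤ k + 1 + t ∧ x j = v}) ≤
            ν (cyl q k) * ENNReal.ofReal (pr G β q k z * Real.exp (-(β * J G r M z))) := by
        intro z hz
        rw [SimpleGraph.mem_neighborFinset] at hz
        have h1 := ih (Function.update q (k + 1) z) (k + 1)
          (by rw [Function.update_of_ne (by omega), h0]) (T3_path hq hz) (by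
            rw [Function.update_self]
            have h2 : G.dist v z ≤ G.dist v (q k) + G.dist (q k) z := hc.dist_triangle
            have h3 : G.dist (q k) z = 1 := SimpleGraph.dist_eq_one_iff_adj.2 hz
            omega)
        rw [Function.update_self, cyl_update hν] at h1
        refine h1.trans (le_of_eq ?_)
        rw [ENNReal.ofReal_mul (pr_nonneg q k z)]
        ring
      refine (Finset.sum_le_sum hz).trans ?_
      rw [← Finset.mul_sum, ← ENNReal.ofReal_sum_of_nonneg
        (fun z _ => mul_nonneg (pr_nonneg q k z) (Real.exp_pos _).le), mul_comm]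
      refine mul_le_mul_left (ENNReal.ofReal_le_ofReal ?_) _
      refine f_step hG hc hr hinj hq (h0.trans hr0.symm) (by rw [hr0]; exact hqv) ?_
      intro hM
      have h1 := hdist M le_rfl
      rw [← hM] at h1
      omega

omit [Countable V] [MeasurableSpace V] [DiscreteMeasurableSpace V] in
private theorem T3_ray [Infinite V] (hc : G.Connected) (v : V) (M : ℕ) :
    ∃ r : ℕ → V, (∀ i < M, G.Adj (r i) (r (i + 1))) ∧ r 0 = v ∧ ∀ i ≤ M, G.dist v (r i) = i := by
  obtain ⟨y, hy⟩ : ∃ y, y ∉ {y | G.dist v y ≤ M} := (ball_finite hc v M).exists_notMem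
  rw [mem_ofPred_eq, not_le] at hy
  obtain ⟨w, hw⟩ := hc.exists_walk_length_eq_dist v y
  refine ⟨w.getVert, fun i hi => w.adj_getVert_succ (by omega), w.getVert_zero, fun i hi => ?_⟩
  have h1 : G.dist v (w.getVert i) ≤ i := by
    refine (SimpleGraph.dist_le (w.take i)).trans ?_
    rw [SimpleGraph.Walk.take_length]
    exact min_le_left _ _
  have h2 : G.dist (w.getVert i) y ≤ w.length - i := by
    refine (SimpleGraph.dist_le (w.drop i)).trans ?_
    rw [SimpleGraph.Walk.drop_length]
  have h3 : G.dist v y ≤ G.dist v (w.getVert i) + G.dist (w.getVert i) y := hc.dist_triangle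
  omega

theorem no_return [Infinite V] (hν : IsLaw G β v ν) (hβ : 0 < β) (hG : ∀ l u, ¬ IsCircuit G l u)
    (hc : G.Connected) {p : ℕ → V} {n : ℕ} (h0 : p 0 = v) (hn : p n = v) (hp : IsPath G p n) :
    ENNReal.ofReal ((1 - Real.exp (-β)) / G.degree v) * ν (cyl p n) ≤
      ν (cyl p n ∩ {x | ∀ j, n < j → x j ≠ v}) := by
  have hprob := hν.prob
  have hE : ∀ t, MeasurableSet {x : ℕ → V | ∀ j, n < j → j ≤ n + 1 + t → x j ≠ v} := by
    intro t
    refine measurableSet_of_dep (n + 1 + t) fun x y h => ?_
    constructor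
    · intro hx j h1 h2
      rw [← h j h2]
      exact hx j h1 h2
    · intro hx j h1 h2
      rw [h j h2]
      exact hx j h1 h2
  have key : ∀ t, ENNReal.ofReal ((1 - Real.exp (-β)) / G.degree v) * ν (cyl p n) ≤
      ν (cyl p n ∩ {x | ∀ j, n < j → j ≤ n + 1 + t → x j ≠ v}) := by
    intro t
    obtain ⟨r, hr, hr0, hdist⟩ := T3_ray (G := G) hc v (t + 3)
    have hinj : ∀ i ≤ t + 3, ∀ j ≤ t + 3, r i = r j → i = j := by
      intro i hi j hj h
      rw [← hdist i hi, ← hdist j hj, h]
    have hadj : G.Adj (p n) (r 1) := by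
      have h := hr 0 (by omega)
      rwa [hr0, ← hn] at h
    rw [cyl_inter_eq_sum hν p n _ (hE t)]
    refine le_trans ?_ (Finset.single_le_sum (f := fun z => ν (cyl (Function.update p (n + 1) z) (n + 1) ∩
      {x | ∀ j, n < j → j ≤ n + 1 + t → x j ≠ v})) (fun _ _ => zero_le)
      ((G.mem_neighborFinset _ _).2 hadj))
    have h1 := hit hν hβ hG hc hr hr0 hdist t (Function.update p (n + 1) (r 1)) (n + 1)
      (by rw [Function.update_of_ne (by omega), h0]) (T3_path hp hadj) (by
        rw [Function.update_self, hdist 1 (by omega)]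
        omega)
    rw [Function.update_self, J_path hG hr hinj (by omega : 1 ≤ t + 3)] at h1
    simp only [Nat.cast_one, mul_one] at h1
    have hexp : 0 < Real.exp (-β) := Real.exp_pos _
    have hexp1 : Real.exp (-β) < 1 := Real.exp_lt_one_iff.2 (by linarith)
    have h2 : ENNReal.ofReal (1 - Real.exp (-β)) * ν (cyl (Function.update p (n + 1) (r 1)) (n + 1)) ≤
        ν (cyl (Function.update p (n + 1) (r 1)) (n + 1) ∩
          {x | ∀ j, n < j → j ≤ n + 1 + t → x j ≠ v}) := by
      have hfin : ENNReal.ofReal (Real.exp (-β)) *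
          ν (cyl (Function.update p (n + 1) (r 1)) (n + 1)) ≠ ∞ :=
        ENNReal.mul_ne_top ENNReal.ofReal_ne_top (measure_ne_top ν _)
      rw [← ENNReal.add_le_add_iff_right hfin, ← add_mul,
        ← ENNReal.ofReal_add (by linarith) hexp.le, sub_add_cancel, ENNReal.ofReal_one, one_mul]
      refine le_trans ?_ (add_le_add_right h1 _)
      refine (measure_mono ?_).trans (measure_union_le _ _)
      intro x hx
      by_cases hxv : ∃ j, n + 1 ≤ j ∧ j ≤ n + 1 + t ∧ x j = v
      · exact Or.inr ⟨hx, hxv⟩
      · refine Or.inl ⟨hx, fun j hj1 hj2 hj3 => hxv ⟨j, hj1, hj2, hj3⟩⟩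
    refine le_trans (le_of_eq ?_) h2
    rw [cyl_update hν]
    have hpr : pr G β p n (r 1) = 1 / G.degree v := by
      have hcr : ∀ z, G.Adj (p n) z → cr p n (p n) z = 0 := by
        intro z hz
        rw [tree_cr hG hp hz, h0, hn]
        simp
      unfold pr
      rw [if_pos hadj, hcr _ hadj]
      have hs : ∑ z ∈ G.neighborFinset (p n), Real.exp (β * cr p n (p n) z) = G.degree v := by
        rw [Finset.sum_congr rfl (g := fun _ => (1 : ℝ)) (fun z hz => by
          rw [hcr z ((G.mem_neighborFinset _ _).1 hz)]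
          simp)]
        rw [Finset.sum_const, nsmul_eq_mul, mul_one, SimpleGraph.card_neighborFinset_eq_degree, hn]
      rw [hs]
      simp
    rw [hpr, ← mul_assoc, mul_comm (ENNReal.ofReal (1 - Real.exp (-β))) (ν (cyl p n)), mul_assoc,
      ← ENNReal.ofReal_mul (by linarith), mul_comm (ν (cyl p n)), mul_one_div]
  have hanti : Antitone fun t : ℕ => cyl p n ∩ {x | ∀ j, n < j → j ≤ n + 1 + t → x j ≠ v} := by
    intro s t hst x hx
    exact ⟨hx.1, fun j h1 h2 => hx.2 j h1 (h2.trans (by omega))⟩
  have hInter : (⋂ t : ℕ, cyl p n ∩ {x | ∀ j, n < j → j ≤ n + 1 + t → x j ≠ v}) =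
      cyl p n ∩ {x | ∀ j, n < j → x j ≠ v} := by
    ext x
    simp only [mem_iInter, mem_inter_iff, mem_ofPred_eq]
    constructor
    · intro h
      exact ⟨(h 0).1, fun j hj => (h j).2 j hj (by omega)⟩
    · intro h t
      exact ⟨h.1, fun j hj _ => h.2 j hj⟩
  have hlim := tendsto_measure_iInter_atTop (μ := ν)
    (fun t => ((measurableSet_cyl p n).inter (hE t)).nullMeasurableSet) hanti
    ⟨0, measure_ne_top ν _⟩
  rw [hInter] at hlim
  exact ge_of_tendsto' hlim key

theorem tree_start [Infinite V] (hν : IsLaw G β v ν) (hβ : 0 < β) (hG : ∀ l u, ¬ IsCircuit G l u)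
    (hc : G.Connected) : ∀ᵐ ω ∂ν, ¬ Rec v ω := by
  obtain ⟨w, hw⟩ := live_exists hc v
  have hadj : G.Adj v w := (live_adj hw).1
  have hdeg : 0 < G.degree v := (G.degree_pos_iff_exists_adj v).2 ⟨w, hadj⟩
  have hexp1 : Real.exp (-β) < 1 := Real.exp_lt_one_iff.2 (by linarith)
  refine ae_of_levy hν (fun ω => ¬ Rec v ω) (fun ω n => ω n = v) ?_ ?_
    (δ := (1 - Real.exp (-β)) / G.degree v) ?_ ?_
  · intro x y n h hx
    rw [← h n le_rfl]
    exact hx
  · intro x hx _ _ N
    exact (not_not.1 hx) N
  · exact div_pos (by linarith) (by exact_mod_cast hdeg)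
  · intro x _ hx0 hxp n hn
    refine ⟨{y | ∀ j, n < j → y j ≠ v}, ?_, ?_, ?_⟩
    · have he : {y : ℕ → V | ∀ j, n < j → y j ≠ v} = ⋂ j : ℕ, {y | n < j → y j ≠ v} := by
        ext y
        simp
      rw [he]
      refine MeasurableSet.iInter fun j => measurableSet_of_dep j fun a b h => ?_
      rw [h j le_rfl]
    · intro y hy _ _ hyA
      obtain ⟨j, hj1, hj2⟩ := (not_not.1 hy) (n + 1)
      exact hyA j (by omega) hj2
    · exact no_return hν hβ hG hc hx0 hn fun i _ => hxp i

end Pool.Agent.Lib.MP_c171f5_pr.AM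
end

section

/-!
# TASK Q1: graphs: escape, countability, quasi-transitive graphs

`esc_of_not_rec`: for every `r` the ball `{y | G.dist y (ω 0) ≤ r}` is finite (`ball_finite`), and each of its vertices is visited only
finitely often, so from some time on `ω n` is outside.
`countable_of_connected`: `V` is the union over `n` of the finite balls of radius `n` around a vertex.
`dense_of_qt`: `R` is a finite set of representatives of the orbits. Let `D` be the maximum of the degrees on `R` (an automorphism preserves degrees), let `u` be a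
circuit of length `l`, and let `L` be `l` plus the maximum over `r ∈ R` of `G.dist r (u 0)`. For a vertex `x` and an automorphism `φ` with `φ r = x`, `r ∈ R`:
the circuit `φ ∘ u`, `G.dist x (φ (u 0)) = G.dist r (u 0) ≤ L` (automorphisms preserve distances: `SimpleGraph.Iso` maps walks to walks of the
same length, in both directions).
`tame_of_dense`: `piece_univ`.
-/

set_option autoImplicit false

namespace Pool.Agent.Lib.MP_c171f5_pr.AM

open MeasureTheory Filter Set

variable {V : Type*} {G : SimpleGraph V} [G.LocallyFinite]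

theorem esc_of_not_rec (hc : G.Connected) {ω : ℕ → V} (h : ∀ x, ¬ Rec x ω) : Esc G ω := by
  rw [Esc, tendsto_atTop]
  intro b
  have hfin : {y | G.dist (ω 0) y ≤ b}.Finite := ball_finite hc (ω 0) b
  have hev : ∀ᶠ n in atTop, ∀ y ∈ {y | G.dist (ω 0) y ≤ b}, ω n ≠ y := by
    rw [hfin.eventually_all]
    intro y _
    have hy := h y
    simp only [Rec, not_forall, not_exists, not_and] at hy
    obtain ⟨N, hN⟩ := hy
    exact eventually_atTop.2 ⟨N, fun n hn => hN n hn⟩
  filter_upwards [hev] with n hn
  by_contra hlt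
  have h1 : G.dist (ω 0) (ω n) ≤ b := by
    rw [SimpleGraph.dist_comm]
    omega
  exact hn (ω n) h1 rfl

theorem countable_of_connected (hc : G.Connected) : Countable V := by
  obtain ⟨v⟩ := hc.nonempty
  rw [← Set.countable_univ_iff]
  have h : (univ : Set V) = ⋃ n : ℕ, {y | G.dist v y ≤ n} := by
    ext y
    simp only [mem_univ, mem_iUnion, Set.mem_ofPred_eq, true_iff]
    exact ⟨G.dist v y, le_rfl⟩
  rw [h]
  exact Set.countable_iUnion fun n => (ball_finite hc v n).countable

omit [G.LocallyFinite] in
private theorem Q1_dist_le (hc : G.Connected) (φ : G ≃g G) (x y : V) :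
    G.dist (φ x) (φ y) ≤ G.dist x y := by
  obtain ⟨w, hw⟩ := (hc x y).exists_walk_length_eq_dist
  have h := SimpleGraph.dist_le (w.map φ.toHom)
  rw [SimpleGraph.Walk.length_map, hw] at h
  exact h

/-- finitely many orbits of the automorphism group on the vertices -/
def QuasiTransitive (G : SimpleGraph V) : Prop :=
  ∃ R : Finset V, ∀ x, ∃ r ∈ R, ∃ φ : G ≃g G, φ r = x

theorem dense_of_qt (hc : G.Connected) (hq : QuasiTransitive G) {l : ℕ} {u : ℕ → V}
    (hu : IsCircuit G l u) : Dense G univ := by
  obtain ⟨R, hR⟩ := hq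
  refine ⟨R.sup fun r => G.degree r, l + R.sup fun r => G.dist r (u 0), fun x _ => ?_⟩
  obtain ⟨r, hr, φ, hφ⟩ := hR x
  refine ⟨?_, l, fun i => φ (u i), ⟨hu.three, ?_, ?_, ?_⟩, Nat.le_add_right _ _,
    fun _ _ => mem_univ _, ?_⟩
  · have h1 : G.degree x = G.degree r := by
      rw [← hφ]
      exact φ.degree_eq r
    rw [h1]
    exact Finset.le_sup (f := fun r => G.degree r) hr
  · intro i hi j hj hij
    exact hu.inj i hi j hj (φ.injective hij)
  · intro i hi
    exact φ.map_adj_iff.2 (hu.adj i hi)
  · exact φ.map_adj_iff.2 hu.last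
  · have h1 : G.dist x (φ (u 0)) ≤ G.dist r (u 0) := by
      rw [← hφ]
      exact Q1_dist_le hc φ r (u 0)
    have h2 : G.dist r (u 0) ≤ R.sup fun r => G.dist r (u 0) :=
      Finset.le_sup (f := fun r => G.dist r (u 0)) hr
    exact (h1.trans h2).trans (Nat.le_add_left _ _)

end Pool.Agent.Lib.MP_c171f5_pr.AM
end
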