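import Pool.Agent.Lib.MP_c171f5_pr.Mg.G001
import Pool.Agent.Lib.MP_c171f5_pr.Mg.G002
import Pool.Agent.Lib.MP_c171f5_pr.Mg.G005

section

/-!
# TASK D3: the winner at a good vertex

`GoodEdge`: the edge lies in a tame piece which contains a circuit.
`goodEdge_of_live`: a tame `H` with `Live G H x w` contains a circuit: if `H` is finite by `circuit_of_live`, if `H` is dense by the
definition of `Dense` for `x`.
`winner`: for every neighbour `z` of `x` choose `Hs z`: a tame piece with a circuit which contains `x`, `z` if `GoodEdge G x z`, and any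
tame piece which contains `x`, `z` otherwise. `hlive` of `winner_fin`: for a good `z` by `live_of_circuit_in`. For every choice of `As : V → Finset V` which is
nonempty only on the neighbours of `x` (countably many choices: finitely many neighbours; for instance by functions on
`G.neighborSet x`) a.e. `ω` satisfies `winner_fin`; and a.e. `ω` satisfies `dense_finite` for the dense `Hs z`. Let `ω` be such a path,
not trapped, `Rec x ω`. For every neighbour `z` the set of the visited vertices of `Hs z` is finite (`Hs z` finite or `dense_finite`): let `As z` be this set.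
The third alternative of `winner_fin` fails, so there are `z`, `w` with `G.Adj x z`, `Live G (Hs z) x w` and eventually `ω (n + 1) = w` whenever
`ω n = x`. `GoodEdge G x w` by `goodEdge_of_live`.
`bad_cr`: if no edge at `x` is good: let `w` be a neighbour, `H` a tame piece with `x, w ∈ H`. Neither `Live G H x w` nor `Live G H w x` (by `goodEdge_of_live`;
`GoodEdge` is symmetric), so `cr p n x w ≤ 1`, `cr p n w x ≤ 1` (`cr_le_one_of_not_live`), and `cr_symm`.
-/

set_option autoImplicit false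

namespace Pool.Agent.Lib.MP_c171f5_pr.AM

open MeasureTheory Filter Set
open scoped ENNReal

variable {V : Type*} {G : SimpleGraph V} [G.LocallyFinite]

/-- the edge `x z` lies in a tame piece which contains a circuit -/
def GoodEdge (G : SimpleGraph V) [G.LocallyFinite] (x z : V) : Prop :=
  G.Adj x z ∧ ∃ H : Set V, x ∈ H ∧ z ∈ H ∧ Tame G H ∧ ∃ l u, IsCircuit G l u ∧ ∀ i < l, u i ∈ H

theorem GoodEdge.symm {x z : V} (h : GoodEdge G x z) : GoodEdge G z x := by
  obtain ⟨h1, H, h2, h3, h4⟩ := h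
  exact ⟨h1.symm, H, h3, h2, h4⟩

theorem goodEdge_of_live {H : Set V} (hH : Tame G H) {x w : V} (h : Live G H x w) : GoodEdge G x w := by
  obtain ⟨hadj, hx, hw⟩ := live_adj h
  refine ⟨hadj, H, hx, hw, hH, ?_⟩
  obtain ⟨_, hf | ⟨D, L, hD⟩⟩ := hH
  · exact circuit_of_live hf h
  · obtain ⟨_, l, u, hu, _, hin, _⟩ := hD x hx
    exact ⟨l, u, hu, hin⟩

theorem bad_cr (hall : ∀ x y, G.Adj x y → ∃ H, x ∈ H ∧ y ∈ H ∧ Tame G H) {x : V}
    (hx : ∀ z, ¬ GoodEdge G x z) {p : ℕ → V} {n : ℕ} (hp : IsPath G p n) {w : V} (hw : G.Adj x w) :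
    -1 ≤ cr p n x w ∧ cr p n x w ≤ 1 := by
  obtain ⟨H, hxH, hwH, hT⟩ := hall x w hw
  obtain ⟨π, hP⟩ := hT.1
  have h1 : ¬ Live G H x w := fun h => hx w (goodEdge_of_live hT h)
  have h2 : ¬ Live G H w x := fun h => hx w (goodEdge_of_live hT h).symm
  have h3 := cr_le_one_of_not_live hP hp hw hxH hwH h1
  have h4 := cr_le_one_of_not_live hP hp hw.symm hwH hxH h2
  have h5 := cr_symm p n x w
  constructor
  · linarith
  · exact h3

variable [Countable V] [MeasurableSpace V] [DiscreteMeasurableSpace V]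
  {β : ℝ} {v : V} {ν : Measure (ℕ → V)}

theorem winner (hG : G.Connected) (hν : IsLaw G β v ν) (hβ : 0 < β)
    (hall : ∀ x y, G.Adj x y → ∃ H, x ∈ H ∧ y ∈ H ∧ Tame G H) {x z : V} (hx : GoodEdge G x z) :
    ∀ᵐ ω ∂ν, Trap G ω ∨ ¬ Rec x ω ∨ ∃ w, GoodEdge G x w ∧ ∃ N, ∀ n ≥ N, ω n = x → ω (n + 1) = w := by
  classical
  have hH : ∀ y, G.Adj x y → ∃ H : Set V, (x ∈ H ∧ y ∈ H ∧ Tame G H) ∧
      (GoodEdge G x y → ∃ l u, IsCircuit G l u ∧ ∀ i < l, u i ∈ H) := by
    intro y hy
    by_cases hg : GoodEdge G x y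
    · obtain ⟨_, H, h1, h2, h3, h4⟩ := hg
      exact ⟨H, ⟨h1, h2, h3⟩, fun _ => h4⟩
    · obtain ⟨H, h1⟩ := hall x y hy
      exact ⟨H, h1, fun h => absurd h hg⟩
  choose! Hs hHs hcirc using hH
  have hp : ∀ y, G.Adj x y → x ∈ Hs y ∧ y ∈ Hs y ∧ ∃ π, Piece G (Hs y) π := fun y hy =>
    ⟨(hHs y hy).1, (hHs y hy).2.1, (hHs y hy).2.2.1⟩
  have hlive : ∃ z w, G.Adj x z ∧ Live G (Hs z) x w := by
    obtain ⟨l, u, hu, hin⟩ := hcirc z hx.1 hx
    obtain ⟨hxH, _, π, hP⟩ := hp z hx.1
    obtain ⟨w, hw⟩ := live_of_circuit_in hG hP hu hin hxH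
    exact ⟨z, w, hx.1, hw⟩
  have h1 : ∀ᵐ ω ∂ν, ∀ f : (↥(G.neighborFinset x) → Finset V), Trap G ω ∨ ¬ Rec x ω ∨
      (∃ y, G.Adj x y ∧ ∃ n, ω n ∈ Hs y ∧
        ω n ∉ (if h : y ∈ G.neighborFinset x then f ⟨y, h⟩ else (∅ : Finset V))) ∨
      ∃ y w, G.Adj x y ∧ Live G (Hs y) x w ∧ ∃ N, ∀ n ≥ N, ω n = x → ω (n + 1) = w := by
    rw [ae_all_iff]
    intro f
    exact winner_fin hν hβ x Hs
      (fun y => if h : y ∈ G.neighborFinset x then f ⟨y, h⟩ else (∅ : Finset V)) hp hlive
  have h2 : ∀ᵐ ω ∂ν, ∀ y, G.Adj x y → Dense G (Hs y) →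
      Trap G ω ∨ {a | a ∈ Hs y ∧ ∃ n, ω n = a}.Finite := by
    rw [ae_all_iff]
    intro y
    by_cases hy : G.Adj x y
    · by_cases hd : Dense G (Hs y)
      · obtain ⟨_, _, π, hP⟩ := hp y hy
        filter_upwards [dense_finite hG hν hβ hP hd] with ω h _ _ using h
      · exact Eventually.of_forall fun ω _ h => absurd h hd
    · exact Eventually.of_forall fun ω h => absurd h hy
  filter_upwards [h1, h2] with ω h1 h2
  by_cases ht : Trap G ω
  · exact Or.inl ht
  by_cases hr : Rec x ω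
  swap
  · exact Or.inr (Or.inl hr)
  right
  right
  have hfin : ∀ y, G.Adj x y → {a | a ∈ Hs y ∧ ∃ n, ω n = a}.Finite := by
    intro y hy
    obtain ⟨_, _, _, hf | hd⟩ := hHs y hy
    · exact hf.subset fun a ha => ha.1
    · exact (h2 y hy hd).resolve_left ht
  have hmem : ∀ y : ↥(G.neighborFinset x), G.Adj x y.1 := fun y => (G.mem_neighborFinset x y.1).mp y.2
  rcases h1 (fun y => (hfin y.1 (hmem y)).toFinset) with h | h | ⟨y, hy, n, hn1, hn2⟩ | ⟨y, w, hy, hl, hN⟩
  · exact absurd h ht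
  · exact absurd hr h
  · exfalso
    apply hn2
    rw [dif_pos ((G.mem_neighborFinset x y).mpr hy)]
    rw [Set.Finite.mem_toFinset]
    exact ⟨hn1, n, rfl⟩
  · exact ⟨w, goodEdge_of_live (hHs y hy).2.2 hl, hN⟩

end Pool.Agent.Lib.MP_c171f5_pr.AM
end

section

/-!
# TASK D4: the orbit of the winners

A statement about a single path `ω`.
PROOF. Define `o 0 := x`, `o (i + 1) := ` the winner `w` of `hW` for `o i`; by induction `GoodEdge G (o i) (o (i + 1))` (so `o (i + 1)` is on a good edge, by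
`GoodEdge.symm`), `Rec (o i) ω` (every late visit to `o i` is followed by one to `o (i + 1)`), and for `n ≥ N i`: `ω n = o i → ω (n + 1) = o (i + 1)`.
Case 1: `o i = o j`, `i < j`. Let `N` be the maximum of the `N k`, `i ≤ k < j`, and `n ≥ N` with `ω n = o i`. By induction `ω k` is in the finite set
`{o k | i ≤ k < j}` for all `k ≥ n` (if `ω k = o m`, `i ≤ m < j`, then `ω (k + 1) = o (m + 1)`, and `o j = o i`). This contradicts `hleave`.
Case 2: `o` is injective. Take `H`, `π` from `hpiece` for the edge `(o 0, o 1)`. All `o k` are visited, so only finitely many of them are in `H`. Let `m ≥ 1` be the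
least number with `o (m + 1) ∉ H` (so `o m ∈ H`). Let `n ≥ N m` with `ω n = o m`. Then `π (ω k) = o m` for all `k ≥ n`: for `k = n` by `fix`; if
`π (ω k) = o m` and `π (ω (k + 1)) ≠ o m` then `ω k, ω (k + 1) ∈ H` (`Piece.edge`), `ω k = π (ω k) = o m`, so `ω (k + 1) = o (m + 1) ∉ H`, a contradiction.
But there is `k ≥ n` with `ω k = x = o 0 ∈ H`, `π (o 0) = o 0 ≠ o m`. A contradiction.
-/

set_option autoImplicit false

namespace Pool.Agent.Lib.MP_c171f5_pr.AM

open MeasureTheory Filter Set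

variable {V : Type*} {G : SimpleGraph V} [G.LocallyFinite]

theorem orbit_false {ω : ℕ → V} (hadj : ∀ n, G.Adj (ω n) (ω (n + 1)))
    (hW : ∀ y z, GoodEdge G y z → Rec y ω →
      ∃ w, GoodEdge G y w ∧ ∃ N, ∀ n ≥ N, ω n = y → ω (n + 1) = w)
    (hleave : ∀ A : Finset V, ∀ N, ∃ k ≥ N, ω k ∉ A)
    (hpiece : ∀ y z, GoodEdge G y z → ∃ (H : Set V) (π : V → V), Piece G H π ∧ y ∈ H ∧ z ∈ H ∧
      {a | a ∈ H ∧ ∃ n, ω n = a}.Finite)
    {x z : V} (hx : GoodEdge G x z) (hrec : Rec x ω) : False := by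
  classical
  have step : ∀ y : {y : V // (∃ z, GoodEdge G y z) ∧ Rec y ω},
      ∃ w : {y : V // (∃ z, GoodEdge G y z) ∧ Rec y ω}, GoodEdge G y.1 w.1 ∧
        ∃ N, ∀ n ≥ N, ω n = y.1 → ω (n + 1) = w.1 := by
    rintro ⟨y, ⟨z', hz'⟩, hy⟩
    obtain ⟨w, hw, N, hN⟩ := hW y z' hz' hy
    refine ⟨⟨w, ⟨y, hw.symm⟩, fun M => ?_⟩, hw, N, hN⟩
    obtain ⟨n, hn, hn2⟩ := hy (max M N)
    exact ⟨n + 1, by omega, hN n (by omega) hn2⟩
  choose nx hnx using step
  obtain ⟨o, ho0, ho1⟩ : ∃ o : ℕ → {y : V // (∃ z, GoodEdge G y z) ∧ Rec y ω},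
      o 0 = ⟨x, ⟨z, hx⟩, hrec⟩ ∧ ∀ i, o (i + 1) = nx (o i) :=
    ⟨fun i => nx^[i] ⟨x, ⟨z, hx⟩, hrec⟩, rfl, fun i => Function.iterate_succ_apply' nx i _⟩
  have ho : ∀ i, GoodEdge G (o i).1 (o (i + 1)).1 := fun i => by
    rw [ho1 i]
    exact (hnx (o i)).1
  have hN0 : ∀ i, ∃ N, ∀ n ≥ N, ω n = (o i).1 → ω (n + 1) = (o (i + 1)).1 := fun i => by
    rw [ho1 i]
    exact (hnx (o i)).2
  choose N hN using hN0
  by_cases hinj : Function.Injective fun i => (o i).1
  · obtain ⟨H, π, hP, h0, h1, hfin⟩ := hpiece _ _ (ho 0)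
    have hex : ∃ k, (o k).1 ∉ H := by
      by_contra hcon
      push Not at hcon
      refine Set.infinite_range_of_injective hinj (hfin.subset ?_)
      rintro a ⟨k, rfl⟩
      obtain ⟨n, -, hn⟩ := (o k).2.2 0
      exact ⟨hcon k, n, hn⟩
    have hK := Nat.find_spec hex
    have hmin : ∀ k, k < Nat.find hex → (o k).1 ∈ H := fun k hk => by
      have := Nat.find_min hex hk
      push Not at this
      exact this
    generalize Nat.find hex = K at hK hmin
    have hK0 : K ≠ 0 := fun h => hK (by rw [h]; exact h0)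
    have hK1 : K ≠ 1 := fun h => hK (by rw [h]; exact h1)
    obtain ⟨m, rfl⟩ : ∃ m, K = m + 1 := ⟨K - 1, by omega⟩
    have hmH : (o m).1 ∈ H := hmin m (by omega)
    obtain ⟨n, hn, hn2⟩ := (o m).2.2 (N m)
    have key : ∀ k, n ≤ k → π (ω k) = (o m).1 := by
      intro k hk
      induction k, hk using Nat.le_induction with
      | base => rw [hn2]; exact hP.fix _ hmH
      | succ k hk ih =>
        rcases hP.edge _ _ (hadj k) with h | ⟨h, h'⟩
        · rw [← h]
          exact ih
        · exfalso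
          rw [hP.fix _ h] at ih
          exact hK (by rw [← hN m k (by omega) ih]; exact h')
    obtain ⟨k, hk, hk2⟩ := hrec n
    have h2 := key k hk
    rw [hk2] at h2
    have h3 : x ∈ H := by
      have := h0
      rw [ho0] at this
      exact this
    rw [hP.fix _ h3] at h2
    have h4 : (o 0).1 = (o m).1 := by
      rw [ho0]
      exact h2
    have h5 : 0 = m := hinj h4
    omega
  · obtain ⟨i, j, hij, hoij⟩ : ∃ i j, i < j ∧ (o i).1 = (o j).1 := by
      unfold Function.Injective at hinj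
      push Not at hinj
      obtain ⟨a, b, hab, hne⟩ := hinj
      rcases lt_or_gt_of_ne hne with h | h
      · exact ⟨a, b, h, hab⟩
      · exact ⟨b, a, h, hab.symm⟩
    obtain ⟨n, hn, hn2⟩ := (o i).2.2 ((Finset.range j).sup N)
    have hle : ∀ k < j, N k ≤ n := fun k hk =>
      (Finset.le_sup (f := N) (Finset.mem_range.2 hk)).trans hn
    have key : ∀ k, n ≤ k → ∃ m, i ≤ m ∧ m < j ∧ ω k = (o m).1 := by
      intro k hk
      induction k, hk using Nat.le_induction with
      | base => exact ⟨i, le_rfl, hij, hn2⟩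
      | succ k hk ih =>
        obtain ⟨m, h1, h2, h3⟩ := ih
        have h4 := hN m k ((hle m h2).trans hk) h3
        rcases Nat.lt_or_ge (m + 1) j with h5 | h5
        · exact ⟨m + 1, by omega, h5, h4⟩
        · have h6 : m + 1 = j := by omega
          rw [h6, ← hoij] at h4
          exact ⟨i, le_rfl, hij, h4⟩
    obtain ⟨k, hk, hk2⟩ := hleave ((Finset.Ico i j).image fun m => (o m).1) n
    obtain ⟨m, h1, h2, h3⟩ := key k hk
    exact hk2 (Finset.mem_image.2 ⟨m, Finset.mem_Ico.2 ⟨h1, h2⟩, h3.symm⟩)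

end Pool.Agent.Lib.MP_c171f5_pr.AM
end

section

/-!
# TASK M1: assembly of the main statement for path measures

`rec_step_tree`: `step_rec` with `tree_cr_le`. `tree_rec`: for every `d` and every `x` with `G.dist x v = d`: a.e. `ω` satisfies `¬ Rec x ω`; induction on `d`: `x = v`:
`tree_start`; otherwise a neighbour `z` of `x` with `G.dist z v = d - 1`, and `step_rec`. Countably many `x`.
`good_exists`: the edge `u 0, u 1` of a circuit lies in a tame piece `H` (`hall`), which contains the circuit (`circuit_in_piece`).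
`good_rec`: a.e. `ω` satisfies: `law_path`; `conf` for all (countably many) `A`; `winner` for all good edges `y z` (countably many); for every good edge `y z`
`dense_finite` for a chosen tame piece `H` containing it (if `H` is finite then the set of its visited vertices is finite anyway). If `ω` is not
trapped and `Rec x ω`: `orbit_false`.
`main_rec`: if `G` has no circuit: `tree_rec`. Otherwise let `g` be on a good edge (`good_exists`). For every `d` and every `x` with `G.dist x g = d`: a.e. `ω`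
satisfies `Trap G ω ∨ ¬ Rec x ω`; induction on `d`: if `x` is on a good edge: `good_rec`. Otherwise `d ≥ 1`; take a neighbour `z` of `x` with
`G.dist z g = d - 1`; `step_rec` with `bad_cr`. Countably many `x`.
-/

set_option autoImplicit false

namespace Pool.Agent.Lib.MP_c171f5_pr.AM

open MeasureTheory Filter Set
open scoped ENNReal

variable {V : Type*} {G : SimpleGraph V} [G.LocallyFinite]

omit [G.LocallyFinite] in
private theorem M1_nb (hc : G.Connected) {x v : V} {d : ℕ} (h : G.dist x v = d + 1) :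
    ∃ z, G.Adj x z ∧ G.dist z v = d := by
  obtain ⟨w, hw⟩ := hc.exists_walk_length_eq_dist x v
  cases w with
  | nil => simp at h
  | @cons _ z _ hxz q =>
    refine ⟨z, hxz, ?_⟩
    have h1 : G.dist z v ≤ q.length := SimpleGraph.dist_le q
    have h2 : q.length + 1 = G.dist x v := by
      rw [← hw, SimpleGraph.Walk.length_cons]
    have h3 : G.dist x v ≤ G.dist x z + G.dist z v := hc.dist_triangle
    have h4 : G.dist x z ≤ 1 := by
      have := SimpleGraph.dist_le (SimpleGraph.Walk.cons hxz SimpleGraph.Walk.nil)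
      simpa using this
    omega

theorem good_exists (hall : ∀ x y, G.Adj x y → ∃ H, x ∈ H ∧ y ∈ H ∧ Tame G H) {l : ℕ} {u : ℕ → V}
    (hu : IsCircuit G l u) : GoodEdge G (u 0) (u 1) := by
  have h3 := hu.three
  have hadj : G.Adj (u 0) (u 1) := hu.adj 0 (by omega)
  obtain ⟨H, h0, h1, hH⟩ := hall _ _ hadj
  obtain ⟨⟨π, hP⟩, hH'⟩ := hH
  exact ⟨hadj, H, h0, h1, ⟨⟨π, hP⟩, hH'⟩, l, u, hu, circuit_in_piece hP hu h0 h1⟩

variable [Countable V] [MeasurableSpace V] [DiscreteMeasurableSpace V] [Infinite V]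
  {β : ℝ} {v : V} {ν : Measure (ℕ → V)}

theorem tree_rec (hc : G.Connected) (hν : IsLaw G β v ν) (hβ : 0 < β) (hG : ∀ l u, ¬ IsCircuit G l u) :
    ∀ᵐ ω ∂ν, ∀ x, ¬ Rec x ω := by
  rw [ae_all_iff]
  have key : ∀ d : ℕ, ∀ x : V, G.dist x v = d → ∀ᵐ ω ∂ν, ¬ Rec x ω := by
    intro d
    induction d with
    | zero =>
      intro x hx
      have hxv : x = v := by
        rcases SimpleGraph.dist_eq_zero_iff_eq_or_not_reachable.1 hx with h | h
        · exact h
        · exact absurd (hc x v) h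
      rw [hxv]
      exact tree_start hν hβ hG hc
    | succ d ih =>
      intro x hx
      obtain ⟨z, hxz, hz⟩ := M1_nb hc hx
      filter_upwards [step_rec hν hβ hxz (fun p n hp w hw => tree_cr_le hG hp hw), ih z hz] with ω h1 h2
      rcases h1 with h | h
      · exact h
      · exact absurd h h2
  intro x
  exact key _ x rfl

theorem good_rec (hc : G.Connected) (hν : IsLaw G β v ν) (hβ : 0 < β)
    (hall : ∀ x y, G.Adj x y → ∃ H, x ∈ H ∧ y ∈ H ∧ Tame G H) {x z : V} (hx : GoodEdge G x z) :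
    ∀ᵐ ω ∂ν, Trap G ω ∨ ¬ Rec x ω := by
  have h1 := law_path hν
  have h2 : ∀ᵐ ω ∂ν, ∀ A : Finset V, Trap G ω ∨ ∀ N, ∃ k ≥ N, ω k ∉ A :=
    ae_all_iff.2 fun A => conf hc hν hβ A
  have h3 : ∀ᵐ ω ∂ν, ∀ y z, GoodEdge G y z → (Trap G ω ∨ ¬ Rec y ω ∨
      ∃ w, GoodEdge G y w ∧ ∃ N, ∀ n ≥ N, ω n = y → ω (n + 1) = w) := by
    refine ae_all_iff.2 fun y => ae_all_iff.2 fun z => ?_
    by_cases hg : GoodEdge G y z
    · filter_upwards [winner hc hν hβ hall hg] with ω hω _ using hω
    · exact Eventually.of_forall fun ω h => absurd h hg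
  have h4 : ∀ᵐ ω ∂ν, ∀ y z, GoodEdge G y z → (Trap G ω ∨ ∃ (H : Set V) (π : V → V), Piece G H π ∧
      y ∈ H ∧ z ∈ H ∧ {a | a ∈ H ∧ ∃ n, ω n = a}.Finite) := by
    refine ae_all_iff.2 fun y => ae_all_iff.2 fun z => ?_
    by_cases hg : GoodEdge G y z
    · obtain ⟨H, hy, hz, ⟨⟨π, hP⟩, hfd⟩, -⟩ := hg.2
      rcases hfd with hfin | hD
      · exact Eventually.of_forall fun ω _ =>
          Or.inr ⟨H, π, hP, hy, hz, hfin.subset fun a ha => ha.1⟩
      · filter_upwards [dense_finite hc hν hβ hP hD] with ω hω _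
        rcases hω with h | h
        · exact Or.inl h
        · exact Or.inr ⟨H, π, hP, hy, hz, h⟩
    · exact Eventually.of_forall fun ω h => absurd h hg
  filter_upwards [h1, h2, h3, h4] with ω g1 g2 g3 g4
  by_contra hcon
  rw [not_or, not_not] at hcon
  obtain ⟨hT, hR⟩ := hcon
  refine orbit_false (ω := ω) g1.2 ?_ ?_ ?_ hx hR
  · intro y z hg hr
    rcases g3 y z hg with h | h | h
    · exact absurd h hT
    · exact absurd hr h
    · exact h
  · intro A
    exact (g2 A).resolve_left hT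
  · intro y z hg
    exact (g4 y z hg).resolve_left hT

theorem main_rec (hc : G.Connected) (hν : IsLaw G β v ν) (hβ : 0 < β)
    (hall : ∀ x y, G.Adj x y → ∃ H, x ∈ H ∧ y ∈ H ∧ Tame G H) :
    ∀ᵐ ω ∂ν, Trap G ω ∨ ∀ x, ¬ Rec x ω := by
  by_cases hG : ∀ l u, ¬ IsCircuit G l u
  · filter_upwards [tree_rec hc hν hβ hG] with ω hω using Or.inr hω
  · push Not at hG
    obtain ⟨l, u, hu⟩ := hG
    have hg := good_exists hall hu
    have key : ∀ d : ℕ, ∀ x : V, G.dist x (u 0) = d → ∀ᵐ ω ∂ν, Trap G ω ∨ ¬ Rec x ω := by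
      intro d
      induction d with
      | zero =>
        intro x hx
        have hxv : x = u 0 := by
          rcases SimpleGraph.dist_eq_zero_iff_eq_or_not_reachable.1 hx with h | h
          · exact h
          · exact absurd (hc x (u 0)) h
        rw [hxv]
        exact good_rec hc hν hβ hall hg
      | succ d ih =>
        intro x hx
        by_cases hxg : ∃ z, GoodEdge G x z
        · obtain ⟨z, hz⟩ := hxg
          exact good_rec hc hν hβ hall hz
        · have hxg' : ∀ z, ¬ GoodEdge G x z := fun z hz => hxg ⟨z, hz⟩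
          obtain ⟨z, hxz, hz⟩ := M1_nb hc hx
          filter_upwards [step_rec hν hβ hxz (fun p n hp w hw => bad_cr hall hxg' hp hw), ih z hz]
            with ω h1 h2
          rcases h2 with h | h
          · exact Or.inl h
          · rcases h1 with h' | h'
            · exact Or.inr h'
            · exact absurd h' h
    have hall2 : ∀ᵐ ω ∂ν, ∀ x, Trap G ω ∨ ¬ Rec x ω := ae_all_iff.2 fun x => key _ x rfl
    filter_upwards [hall2] with ω hω
    by_cases hT : Trap G ω
    · exact Or.inl hT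
    · exact Or.inr fun x => (hω x).resolve_left hT

end Pool.Agent.Lib.MP_c171f5_pr.AM
end
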